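import Pool.Agent.H466.LD.L17

/-!
# The global data of the Riemann xi function
-/

set_option autoImplicit false

open Complex MeasureTheory Filter Topology Set Metric
open scoped ComplexConjugate

namespace Pool.Agent.H466.LD

open Pool.Agent.H466.HF Pool.Agent.Helper242.KK

/-- `(s - 1) ζ(s)` -/
noncomputable def Z1 : ℂ → ℂ := Function.update (fun w : ℂ => (w - 1) * riemannZeta w) 1 1

lemma Z1_ne {s : ℂ} (hs : s ≠ 1) : Z1 s = (s - 1) * riemannZeta s := by
  unfold Z1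
  rw [Function.update_of_ne hs]

lemma zeta_inv_bdd : ∃ C : ℝ, 0 < C ∧ ∀ s : ℂ, 3 / 2 ≤ s.re → 1 ≤ C * ‖riemannZeta s‖ := by
  set μf : ℕ → ℂ := fun n => ((ArithmeticFunction.moebius n : ℤ) : ℂ) with hμf
  have hsum : Summable (fun n : ℕ => 1 / (n : ℝ) ^ (3 / 2 : ℝ)) :=
    (Real.summable_one_div_nat_rpow (p := 3 / 2)).mpr (by norm_num)
  set Z : ℝ := ∑' n : ℕ, 1 / (n : ℝ) ^ (3 / 2 : ℝ) with hZ
  have hZ0 : 0 ≤ Z := tsum_nonneg fun n => by positivity
  refine ⟨Z + 1, by linarith, fun s hs => ?_⟩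
  have h1 := ArithmeticFunction.LSeries_zeta_mul_Lseries_moebius (s := s) (by linarith)
  rw [ArithmeticFunction.LSeries_zeta_eq_riemannZeta (by linarith)] at h1
  have h2 : ‖LSeries μf s‖ ≤ Z := by
    unfold LSeries
    refine tsum_of_norm_bounded hsum.hasSum fun n => ?_
    rw [LSeries.norm_term_eq]
    split_ifs with h
    · positivity
    · have hn : 1 ≤ (n : ℝ) := by exact_mod_cast Nat.one_le_iff_ne_zero.mpr h
      have hμ1 : ‖μf n‖ ≤ 1 := by
        simp only [hμf]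
        rw [Complex.norm_intCast]
        exact_mod_cast ArithmeticFunction.abs_moebius_le_one
      calc ‖μf n‖ / (n : ℝ) ^ s.re ≤ 1 / (n : ℝ) ^ s.re := by gcongr
        _ ≤ 1 / (n : ℝ) ^ (3 / 2 : ℝ) := by
            apply one_div_le_one_div_of_le (by positivity)
            exact Real.rpow_le_rpow_of_exponent_le hn hs
  have h3 : ‖riemannZeta s‖ * ‖LSeries μf s‖ = 1 := by
    rw [← norm_mul, h1, norm_one]
  rw [← h3, mul_comm]
  apply mul_le_mul_of_nonneg_right _ (norm_nonneg _)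
  linarith

lemma half_ne_zero {z : ℂ} (hz : 0 ≤ z.re) : (1 / 2 + z : ℂ) ≠ 0 := by
  intro h
  have := congrArg re h
  simp at this
  linarith

lemma xi_fac {z : ℂ} (hz : 0 ≤ z.re) : xi (1 / 2 + z) = gz z * (Z1 (1 / 2 + z) / (z + 3 / 2)) := by
  have hden := den_ne hz
  have hpi : (Real.pi : ℂ) ≠ 0 := by exact_mod_cast Real.pi_pos.ne'
  have e1 : gz z * (Z1 (1 / 2 + z) / (z + 3 / 2)) =
      Real.pi * gamE Real.pi (z / 2 + 1 / 4) * Z1 (1 / 2 + z) := by
    unfold gz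
    have e : (z + 3 / 2) * (1 / (z + 3 / 2)) = 1 := mul_one_div_cancel hden
    linear_combination (Real.pi * gamE Real.pi (z / 2 + 1 / 4) * Z1 (1 / 2 + z)) * e
  rw [e1]
  have hs0 := half_ne_zero hz
  set s : ℂ := 1 / 2 + z with hs
  have e2 : z / 2 + 1 / 4 = s / 2 := by rw [hs]; ring
  rw [e2]
  have h2 : s / 2 ≠ 0 := by
    intro h
    apply hs0
    linear_combination 2 * h
  have e3 : (Real.pi : ℂ) * gamE Real.pi (s / 2) =
      s / 2 * Gamma (s / 2) * (Real.pi : ℂ) ^ (-s / 2) := by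
    unfold gamE
    rw [Complex.Gamma_add_one _ h2]
    have : -(s / 2 + 1) = -s / 2 - 1 := by ring
    rw [this, Complex.cpow_sub _ _ hpi, Complex.cpow_one]
    field_simp
  rw [e3]
  by_cases h1 : s = 1
  · rw [h1]
    have e4 : Z1 1 = 1 := by
      unfold Z1
      rw [Function.update_self]
    have e5 : xi 1 = 1 / 2 := by
      unfold xi
      ring
    have e6 : Gamma (1 / 2 : ℂ) = (Real.pi : ℂ) ^ (1 / 2 : ℂ) := Complex.Gamma_one_half_eq
    rw [e4, e5, e6]
    have e7 : (Real.pi : ℂ) ^ (1 / 2 : ℂ) * (Real.pi : ℂ) ^ (-1 / 2 : ℂ) = 1 := by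
      rw [← Complex.cpow_add _ _ hpi]
      norm_num
    linear_combination (-(1 / 2 : ℂ)) * e7
  · rw [xi_eq hs0 h1, Z1_ne h1, riemannZeta_def_of_ne_zero hs0, Gammaℝ_def]
    have h3 : (Real.pi : ℂ) ^ (-s / 2) ≠ 0 := by
      rw [Ne, Complex.cpow_eq_zero_iff]
      exact fun h => hpi h.1
    have h4 : Gamma (s / 2) ≠ 0 := by
      apply Complex.Gamma_ne_zero_of_re_pos
      have : (s / 2).re = (1 / 2 + z.re) / 2 := by
        rw [hs]
        simp
      rw [this]
      linarith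
    field_simp

lemma xi_norm {z : ℂ} (hz : 0 ≤ z.re) :
    ‖LL gk 0 z‖ = ‖gz z‖ * (‖Z1 (1 / 2 + z)‖ / ‖z + 3 / 2‖) := by
  rw [LL_gk_xi, xi_fac hz, norm_mul, norm_div]

lemma ratio_bounds {z : ℂ} (hz : 1 ≤ z.re) :
    ‖(1 / 2 + z) - 1‖ ≤ ‖z + 3 / 2‖ ∧ ‖z + 3 / 2‖ ≤ 5 * ‖(1 / 2 + z) - 1‖ := by
  have e1 : (1 / 2 + z) - 1 = z - 1 / 2 := by ring
  rw [e1]
  constructor
  · rw [← sq_le_sq₀ (norm_nonneg _) (norm_nonneg _), ← Complex.normSq_eq_norm_sq,
      ← Complex.normSq_eq_norm_sq, Complex.normSq_apply, Complex.normSq_apply]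
    simp
    nlinarith
  · have h1 : ‖z + 3 / 2‖ ≤ ‖z - 1 / 2‖ + 2 := by
      have : z + 3 / 2 = (z - 1 / 2) + 2 := by ring
      rw [this]
      refine (norm_add_le _ _).trans ?_
      simp
    have h2 : 1 / 2 ≤ ‖z - 1 / 2‖ := by
      have h3 := re_le_norm (z - 1 / 2)
      have h4 : (z - 1 / 2).re = z.re - 1 / 2 := by simp
      rw [h4] at h3
      linarith
    linarith

theorem gd_xi : ∃ b B C2 : ℝ, Gd (LL gk 0) gz Dz 12 b B C2 9 := by
  obtain ⟨A, k⟩ := gk_kern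
  obtain ⟨M, hM, hup⟩ := H448R2.GC.X1.zeta_bdd
  obtain ⟨N, hN, hlo⟩ := zeta_inv_bdd
  obtain ⟨C, B, hC, hgr⟩ := H448R2.GC.zeta_one_growth 0
  set b : ℝ := Real.log (M + 1) + Real.log (5 * N + 1) with hb
  have hb1 : 0 < Real.log (M + 1) := Real.log_pos (by linarith)
  have hb2 : 0 < Real.log (5 * N + 1) := Real.log_pos (by linarith)
  have hbM : M ≤ Real.exp b := by
    rw [hb, Real.exp_add, Real.exp_log (by linarith), Real.exp_log (by linarith)]
    nlinarith
  have hbN : 5 * N ≤ Real.exp b := by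
    rw [hb, Real.exp_add, Real.exp_log (by linarith), Real.exp_log (by linarith)]
    nlinarith
  have hne1 : ∀ z : ℂ, 1 ≤ z.re → (1 / 2 + z : ℂ) ≠ 1 := by
    intro z hz h
    have := congrArg re h
    simp at this
    linarith
  have hre : ∀ z : ℂ, (1 / 2 + z : ℂ).re = 1 / 2 + z.re := fun z => by simp
  have him : ∀ z : ℂ, (1 / 2 + z : ℂ).im = z.im := fun z => by simp
  have hbig : ∀ z : ℂ, 1 ≤ z.re → ‖LL gk 0 z‖ ≤ M * ‖gz z‖ := by
    intro z hz
    rw [xi_norm (by linarith), Z1_ne (hne1 z hz), norm_mul, mul_comm]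
    apply mul_le_mul_of_nonneg_right _ (norm_nonneg _)
    have h1 := (ratio_bounds hz).1
    have h2 := den_norm (z := z) (by linarith)
    rw [div_le_iff₀ (by linarith)]
    have h3 := hup (1 / 2 + z) (by rw [hre]; linarith)
    calc ‖(1 / 2 + z) - 1‖ * ‖riemannZeta (1 / 2 + z)‖ ≤ ‖z + 3 / 2‖ * M := by gcongr
      _ = _ := mul_comm _ _
  refine ⟨b, B, max C M + 1, gz_gamW, k.differentiable 0, by linarith, Nat.cast_nonneg _, ?_, ?_,
    ?_, ?_, ?_, fun T hT => Dz_re hT⟩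
  · have := le_max_left C M
    linarith
  · intro z hz
    rw [xi_norm (by linarith), Z1_ne (hne1 z hz), norm_mul, mul_comm]
    apply mul_le_mul_of_nonneg_left _ (norm_nonneg _)
    have h1 := (ratio_bounds hz).2
    have h2 := den_norm (z := z) (by linarith)
    rw [le_div_iff₀ (by linarith), Real.exp_neg, inv_mul_le_iff₀ (Real.exp_pos _)]
    have h3 := hlo (1 / 2 + z) (by rw [hre]; linarith)
    have h4 := norm_nonneg ((1 / 2 + z) - 1)
    have h5 := norm_nonneg (riemannZeta (1 / 2 + z))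
    calc ‖z + 3 / 2‖ ≤ 5 * ‖(1 / 2 + z) - 1‖ * 1 := by linarith
      _ ≤ 5 * ‖(1 / 2 + z) - 1‖ * (N * ‖riemannZeta (1 / 2 + z)‖) := by gcongr
      _ = (5 * N) * (‖(1 / 2 + z) - 1‖ * ‖riemannZeta (1 / 2 + z)‖) := by ring
      _ ≤ Real.exp b * (‖(1 / 2 + z) - 1‖ * ‖riemannZeta (1 / 2 + z)‖) := by gcongr
  · intro z hz
    refine (hbig z hz).trans ?_
    gcongr
  · intro z hz
    have hone : (1 : ℝ) ≤ 1 + |z.im| := by linarith [abs_nonneg z.im]
    have hp1 : (1 : ℝ) ≤ (1 + |z.im|) ^ (B : ℝ) := Real.one_le_rpow hone (Nat.cast_nonneg _)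
    rcases le_total z.re 1 with h | h
    · rw [xi_norm hz, mul_comm]
      apply mul_le_mul_of_nonneg_right _ (norm_nonneg _)
      have h2 := den_norm hz
      have h3 := hgr (1 / 2 + z) (by rw [hre]; linarith) (by rw [hre]; linarith)
      rw [him] at h3
      rw [div_le_iff₀ (by linarith)]
      have h4 : ‖Z1 (1 / 2 + z)‖ ≤ C * (1 + |z.im|) ^ B := h3
      rw [Real.rpow_natCast] at hp1 ⊢
      have h5 : C * (1 + |z.im|) ^ B ≤ (max C M + 1) * (1 + |z.im|) ^ B := by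
        gcongr
        linarith [le_max_left C M]
      have h6 : 0 ≤ (max C M + 1) * (1 + |z.im|) ^ B := by
        have := le_max_left C M
        positivity
      nlinarith
    · refine (hbig z h).trans ?_
      apply mul_le_mul_of_nonneg_right _ (norm_nonneg _)
      have h1 : M ≤ max C M + 1 := by linarith [le_max_right C M]
      have h2 : 0 ≤ max C M + 1 := by linarith
      nlinarith
  · intro z
    rw [LL_gk_fe, Complex.norm_conj]

end Pool.Agent.H466.LD
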