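import Pool.Agent.H466.LD.L20

/-!
# The Lindelöf hypothesis and the heat flow of the Riemann xi function
-/

set_option autoImplicit false

open Complex MeasureTheory Filter Topology Set Metric
open scoped ComplexConjugate

namespace Pool.Agent.H466.LD

open Pool.Agent.H466.HF Pool.Agent.K7.H52.SP

/-- the heat flow of the xi function, in terms of the Gaussian average -/
noncomputable def xiHeat (lam : ℝ) (s : ℂ) : ℂ :=
  ((1 / Real.sqrt (4 * Real.pi * lam) : ℝ) : ℂ) *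
    ∫ v : ℝ, xi (s + v) * (Real.exp (-v ^ 2 / (4 * lam)) : ℂ)

lemma xiHeat_eq {lam : ℝ} (hlam : 0 < lam) (s : ℂ) : xiHeat lam s = LL gk lam (s - 1 / 2) := by
  obtain ⟨A, k⟩ := gk_kern
  have h1 := k.heat_eq hlam (s - 1 / 2)
  have e : heat (LL gk 0) lam (s - 1 / 2) =
      ∫ v : ℝ, xi (s + v) * (Real.exp (-v ^ 2 / (4 * lam)) : ℂ) := by
    unfold heat
    refine integral_congr_ae (Eventually.of_forall fun v => ?_)
    simp only
    rw [LL_gk_xi]
    congr 2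
    ring
  unfold xiHeat
  rw [← e, h1, ← mul_assoc, ← ofReal_mul]
  have hpos : 0 < Real.sqrt (4 * Real.pi * lam) := by
    have := Real.pi_pos
    positivity
  have e2 : Real.sqrt (Real.pi * (4 * lam)) = Real.sqrt (4 * Real.pi * lam) := by
    congr 1
    ring
  rw [e2, one_div, inv_mul_cancel₀ hpos.ne', ofReal_one, one_mul]

lemma xiHeat_fun {lam : ℝ} (hlam : 0 < lam) : xiHeat lam = fun s => LL gk lam (s - 1 / 2) :=
  funext fun s => xiHeat_eq hlam s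

lemma xiHeat_order {lam : ℝ} (hlam : 0 < lam) (s : ℂ) :
    analyticOrderNatAt (xiHeat lam) s = analyticOrderNatAt (LL gk lam) (s - 1 / 2) := by
  obtain ⟨A, k⟩ := gk_kern
  have h := order_shift (k.differentiable lam) (-1 / 2) one_ne_zero s
  have e : (fun z => LL gk lam (-1 / 2 + z) * 1) = xiHeat lam := by
    rw [xiHeat_fun hlam]
    funext z
    rw [mul_one]
    congr 1
    ring
  rw [e] at h
  rw [h]
  congr 1
  ring

lemma xiHeat_deriv {lam : ℝ} (hlam : 0 < lam) (s : ℂ) :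
    deriv (xiHeat lam) s = deriv (LL gk lam) (s - 1 / 2) := by
  rw [xiHeat_fun hlam]
  exact deriv_comp_sub_const _ _ _

/-- transport of a finite set of zeros -/
lemma sum_shift {lam : ℝ} (hlam : 0 < lam) (S : Finset ℂ) :
    ∑ s ∈ S, ((analyticOrderNatAt (xiHeat lam) s : ℝ) - if s.re = 1 / 2 then 1 else 0) =
      ∑ z ∈ S.image (fun s : ℂ => s - 1 / 2), ((analyticOrderNatAt (LL gk lam) z : ℝ) -
        if z.re = 0 then 1 else 0) := by
  rw [Finset.sum_image (fun a _ b _ h => sub_left_injective h)]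
  refine Finset.sum_congr rfl fun s _ => ?_
  rw [xiHeat_order hlam]
  congr 1
  have : (s - 1 / 2 : ℂ).re = s.re - 1 / 2 := by simp
  rw [this]
  have h : s.re = 1 / 2 ↔ s.re - 1 / 2 = 0 := sub_eq_zero.symm
  simp only [h]

theorem law {κ δ : ℝ} (hδ : 0 < δ) (hκ : δ < 4 * κ) :
    ∃ η : ℝ, 0 < η ∧ ∃ R : ℝ, 0 < R ∧ ∃ T0 : ℝ, 3 ≤ T0 ∧ ∀ T : ℝ, T0 ≤ T →
      T ^ κ ≤ ‖riemannZeta (1 / 2 + T * I)‖ → ∀ lam : ℝ, 0 < lam → lam * Real.log T ≤ δ →
      ∃ S : Finset ℂ, (∀ s ∈ S, xiHeat lam s = 0 ∧ 1 / 2 + η ≤ s.re ∧ |s.im - T| ≤ R) ∧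
        η * Real.log T ≤ ∑ s ∈ S, (analyticOrderNatAt (xiHeat lam) s : ℝ) := by
  obtain ⟨η, hη, R, hR, T0, hT0, h⟩ := law_z hδ hκ
  refine ⟨η, hη, R, hR, T0, hT0, fun T hT hbig lam hlam hl => ?_⟩
  obtain ⟨S, hS1, hS2⟩ := h T hT hbig lam hlam hl
  refine ⟨S.image (fun z : ℂ => z + 1 / 2), ?_, ?_⟩
  · intro s hs
    obtain ⟨z, hz, rfl⟩ := Finset.mem_image.mp hs
    obtain ⟨h1, h2, h3⟩ := hS1 z hz
    refine ⟨?_, ?_, ?_⟩
    · rw [xiHeat_eq hlam, add_sub_cancel_right]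
      exact h1
    · have : (z + 1 / 2 : ℂ).re = z.re + 1 / 2 := by simp
      rw [this]
      linarith
    · have : (z + 1 / 2 : ℂ).im = z.im := by simp
      rw [this]
      exact h3
  · rw [Finset.sum_image (fun a _ b _ h => add_left_injective _ h)]
    refine hS2.trans (le_of_eq ?_)
    refine Finset.sum_congr rfl fun z _ => ?_
    rw [xiHeat_order hlam, add_sub_cancel_right]

theorem localThm {δ1 δ ε Y : ℝ} (hδ1 : 0 < δ1) (hδ : δ1 ≤ δ) (hε : 0 < ε) (hY : 0 < Y) :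
    ∃ η : ℝ, 0 < η ∧ ∃ R : ℝ, 0 < R ∧ ∃ T0 : ℝ, 3 ≤ T0 ∧ ∀ T : ℝ, T0 ≤ T →
      (∀ y : ℝ, |y - T| ≤ R → ‖riemannZeta (1 / 2 + y * I)‖ ≤ T ^ η) →
      ∀ lam : ℝ, 0 < lam → δ1 ≤ lam * Real.log T → lam * Real.log T ≤ δ →
      (∀ S : Finset ℂ, (∀ s ∈ S, xiHeat lam s = 0 ∧ |s.im - T| ≤ Y) →
        ∑ s ∈ S, ((analyticOrderNatAt (xiHeat lam) s : ℝ) - if s.re = 1 / 2 then 1 else 0) ≤
          ε * Real.log T) ∧
      ∃ S : Finset ℝ, (∀ y ∈ S, T < y ∧ y < T + Y ∧ xiHeat lam (1 / 2 + y * I) = 0 ∧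
        deriv (xiHeat lam) (1 / 2 + y * I) ≠ 0) ∧
        (1 - ε) * (Y * Real.log T / (2 * Real.pi)) ≤ (S.card : ℝ) := by
  obtain ⟨η, hη, R, hR, T0, hT0, h⟩ := few_z hδ1 hδ hε hY.le
  obtain ⟨η', hη', R', hR', T0', hT0', h'⟩ := many_z hδ1 hδ hε hY
  refine ⟨min η η', lt_min hη hη', max R R', lt_max_of_lt_left hR, max T0 T0',
    hT0.trans (le_max_left _ _), ?_⟩
  intro T hT hsm lam hlam hl1 hl2
  have hT1 : T0 ≤ T := (le_max_left _ _).trans hT
  have hT2 : T0' ≤ T := (le_max_right _ _).trans hT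
  have hTpos : 0 < T := by linarith
  have hL0 : 0 ≤ Real.log T := Real.log_nonneg (by linarith)
  have hsm' : ∀ y : ℝ, |y - T| ≤ max R R' →
      ‖riemannZeta (1 / 2 + y * I)‖ ≤ Real.exp (min η η' * Real.log T) := fun y hy => by
    rw [exp_mul_log hTpos]
    exact hsm y hy
  refine ⟨fun S hS => ?_, ?_⟩
  · rw [sum_shift hlam]
    refine h T hT1 (fun y hy => (hsm' y (hy.trans (le_max_left _ _))).trans
      (Real.exp_le_exp.mpr (mul_le_mul_of_nonneg_right (min_le_left _ _) hL0))) lam hlam hl1 hl2 _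
      fun z hz => ?_
    obtain ⟨s, hs, rfl⟩ := Finset.mem_image.mp hz
    obtain ⟨h1, h2⟩ := hS s hs
    refine ⟨?_, ?_⟩
    · rw [← xiHeat_eq hlam]
      exact h1
    · have : (s - 1 / 2 : ℂ).im = s.im := by simp
      rw [this]
      exact h2
  · obtain ⟨S, hS1, hS2⟩ := h' T hT2 (fun y hy => (hsm' y (hy.trans (le_max_right _ _))).trans
      (Real.exp_le_exp.mpr (mul_le_mul_of_nonneg_right (min_le_right _ _) hL0))) lam hlam hl1 hl2
    refine ⟨S, fun y hy => ?_, hS2⟩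
    obtain ⟨b1, b2, b3, b4⟩ := hS1 y hy
    have e : (1 / 2 + (y : ℂ) * I) - 1 / 2 = (y : ℂ) * I := by ring
    refine ⟨b1, b2, ?_, ?_⟩
    · rw [xiHeat_eq hlam, e]
      exact b3
    · rw [xiHeat_deriv hlam, e]
      exact b4

/-- the Lindelöf hypothesis -/
def Lindelof : Prop :=
  ∀ ε : ℝ, 0 < ε → ∃ C : ℝ, ∀ t : ℝ, ‖riemannZeta (1 / 2 + t * I)‖ ≤ C * (1 + |t|) ^ ε

/-- nearly all zeros are on the line -/
def NearlyAll : Prop := ∀ δ1 δ ε Y : ℝ, 0 < δ1 → δ1 ≤ δ → 0 < ε → 0 < Y → ∃ T0 : ℝ, ∀ T : ℝ,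
  T0 ≤ T → ∀ lam : ℝ, 0 < lam → δ1 ≤ lam * Real.log T → lam * Real.log T ≤ δ →
  (∀ S : Finset ℂ, (∀ s ∈ S, xiHeat lam s = 0 ∧ |s.im - T| ≤ Y) →
    ∑ s ∈ S, ((analyticOrderNatAt (xiHeat lam) s : ℝ) - if s.re = 1 / 2 then 1 else 0) ≤
      ε * Real.log T) ∧
  ∃ S : Finset ℝ, (∀ y ∈ S, T < y ∧ y < T + Y ∧ xiHeat lam (1 / 2 + y * I) = 0 ∧
    deriv (xiHeat lam) (1 / 2 + y * I) ≠ 0) ∧
    (1 - ε) * (Y * Real.log T / (2 * Real.pi)) ≤ (S.card : ℝ)

/-- few zeros are far from the line, for arbitrarily small times -/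
def FewFar : Prop := ∀ δ0 : ℝ, 0 < δ0 → ∃ δ : ℝ, 0 < δ ∧ δ < δ0 ∧ ∀ ε Y : ℝ, 0 < ε → 0 < Y →
  ∃ T0 : ℝ, ∀ T : ℝ, T0 ≤ T → ∀ S : Finset ℂ,
    (∀ s ∈ S, xiHeat (δ / Real.log T) s = 0 ∧ 1 / 2 + ε ≤ s.re ∧ |s.im - T| ≤ Y) →
    ∑ s ∈ S, (analyticOrderNatAt (xiHeat (δ / Real.log T)) s : ℝ) ≤ ε * Real.log T

lemma nearly_of_lindelof (H : Lindelof) : NearlyAll := by
  intro δ1 δ ε Y hδ1 hδ hε hY
  obtain ⟨η, hη, R, hR, T0, hT0, h⟩ := localThm hδ1 hδ hε hY
  obtain ⟨C, hC⟩ := H (min (η / 2) 1) (lt_min (by positivity) one_pos)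
  obtain ⟨T2, hT2, hab⟩ := absorb (|C| * 4) (show 0 < η / 2 by positivity)
  refine ⟨T0 + T2 + R + 1, fun T hT => h T (by linarith) fun y hy => ?_⟩
  have hTpos : 0 < T := by linarith
  have hT1 : 1 ≤ T := by linarith
  have hy2 : 1 + |y| ≤ 4 * T := by
    have h1 : |y| ≤ |y - T| + |T| := by
      have := abs_add_le (y - T) T
      rwa [sub_add_cancel] at this
    rw [abs_of_pos hTpos] at h1
    linarith
  have hab' := hab T (by linarith)
  rw [exp_mul_log hTpos] at hab'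
  have hm0 : 0 < min (η / 2) 1 := lt_min (by positivity) one_pos
  have h5 : (1 + |y|) ^ (min (η / 2) 1) ≤ 4 * T ^ (η / 2) := by
    calc (1 + |y|) ^ (min (η / 2) 1) ≤ (4 * T) ^ (min (η / 2) 1) :=
          Real.rpow_le_rpow (by positivity) hy2 hm0.le
      _ = 4 ^ (min (η / 2) 1) * T ^ (min (η / 2) 1) := Real.mul_rpow (by norm_num) hTpos.le
      _ ≤ 4 ^ (1 : ℝ) * T ^ (η / 2) := by
          gcongr
          · norm_num
          · exact min_le_right _ _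
          · exact min_le_left _ _
      _ = _ := by rw [Real.rpow_one]
  have h6 : 0 ≤ (1 + |y|) ^ (min (η / 2) 1) := Real.rpow_nonneg (by positivity) _
  calc ‖riemannZeta (1 / 2 + y * I)‖ ≤ C * (1 + |y|) ^ (min (η / 2) 1) := hC y
    _ ≤ |C| * (1 + |y|) ^ (min (η / 2) 1) := by
        gcongr
        exact le_abs_self C
    _ ≤ |C| * (4 * T ^ (η / 2)) := by gcongr
    _ = (|C| * 4) * T ^ (η / 2) := by ring
    _ ≤ T ^ (η / 2) * T ^ (η / 2) := by gcongr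
    _ = T ^ η := by
        rw [← Real.rpow_add hTpos]
        congr 1
        ring

lemma fewFar_of_nearly (H : NearlyAll) : FewFar := by
  intro δ0 hδ0
  refine ⟨δ0 / 2, by positivity, by linarith, fun ε Y hε hY => ?_⟩
  obtain ⟨T0, h⟩ := H (δ0 / 2) (δ0 / 2) ε Y (by positivity) le_rfl hε hY
  refine ⟨max T0 3, fun T hT S hS => ?_⟩
  have hT3 : 3 ≤ T := (le_max_right _ _).trans hT
  have hL : 0 < Real.log T := Real.log_pos (by linarith)
  have e : δ0 / 2 / Real.log T * Real.log T = δ0 / 2 := by field_simp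
  have h1 := (h T ((le_max_left _ _).trans hT) (δ0 / 2 / Real.log T) (by positivity) e.ge e.le).1
    S (fun s hs => ⟨(hS s hs).1, (hS s hs).2.2⟩)
  refine le_trans (le_of_eq ?_) h1
  refine Finset.sum_congr rfl fun s hs => ?_
  have h2 := (hS s hs).2.1
  rw [if_neg (by intro h3; linarith), sub_zero]

lemma lindelof_of_fewFar (H : FewFar) : Lindelof := by
  intro κ hκ
  obtain ⟨δ, hδ0, hδ1, hfew⟩ := H (4 * κ) (by positivity)
  obtain ⟨η, hη, R, hR, T0, hT0, hlaw⟩ := law hδ0 hδ1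
  obtain ⟨T1, hfew1⟩ := hfew (η / 2) R (by positivity) hR
  have hbig : ∀ T : ℝ, max T0 T1 ≤ T → ‖riemannZeta (((1 / 2 : ℝ) : ℂ) + T * I)‖ ≤ T ^ κ := by
    intro T hT
    have hTT0 : T0 ≤ T := (le_max_left _ _).trans hT
    have hL : 0 < Real.log T := Real.log_pos (by linarith)
    by_contra hcon
    push Not at hcon
    have e0 : (((1 / 2 : ℝ) : ℂ)) = 1 / 2 := by push_cast; ring
    rw [e0] at hcon
    have e : δ / Real.log T * Real.log T = δ := by field_simp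
    obtain ⟨S, hS1, hS2⟩ := hlaw T hTT0 hcon.le (δ / Real.log T) (by positivity) e.le
    have h1 := hfew1 T ((le_max_right _ _).trans hT) S (fun s hs => ⟨(hS1 s hs).1, by
      linarith [(hS1 s hs).2.1], (hS1 s hs).2.2⟩)
    have : 0 < η * Real.log T := by positivity
    linarith
  obtain ⟨C, hC⟩ := small_of_large hκ hbig
  have hcont : ContinuousOn (fun t : ℝ => riemannZeta (1 / 2 + t * I)) (Icc 0 1) := by
    intro t ht
    apply ContinuousAt.continuousWithinAt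
    have h1 : ContinuousAt riemannZeta (1 / 2 + t * I) := by
      refine (differentiableAt_riemannZeta ?_).continuousAt
      intro h
      have := congrArg Complex.re h
      norm_num at this
    exact ContinuousAt.comp (f := fun t : ℝ => ((1 / 2 : ℂ) + t * I)) h1 (by fun_prop)
  obtain ⟨M, hM⟩ := isCompact_Icc.exists_bound_of_continuousOn hcont
  refine ⟨max |C| M, fun t => ?_⟩
  rw [zeta_abs]
  set u := |t| with hu
  have hu0 : 0 ≤ u := abs_nonneg t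
  have h1 : 1 ≤ (1 + u) ^ κ := Real.one_le_rpow (by linarith) hκ.le
  have hmax : 0 ≤ max |C| M := (abs_nonneg C).trans (le_max_left _ _)
  rcases le_total u 1 with h | h
  · calc ‖riemannZeta (1 / 2 + (u : ℝ) * I)‖ ≤ M := hM u ⟨hu0, h⟩
      _ ≤ max |C| M * 1 := by rw [mul_one]; exact le_max_right _ _
      _ ≤ _ := by gcongr
  · have h2 := hC u h
    rw [show (((1 / 2 : ℝ) : ℂ)) = 1 / 2 by push_cast; ring] at h2
    calc ‖riemannZeta (1 / 2 + (u : ℝ) * I)‖ ≤ C * u ^ κ := h2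
      _ ≤ |C| * (1 + u) ^ κ := by
          have h3 : u ^ κ ≤ (1 + u) ^ κ := Real.rpow_le_rpow hu0 (by linarith) hκ.le
          have h4 := le_abs_self C
          have h5 : 0 ≤ u ^ κ := Real.rpow_nonneg hu0 _
          have h6 := abs_nonneg C
          calc C * u ^ κ ≤ |C| * u ^ κ := by gcongr
            _ ≤ _ := by gcongr
      _ ≤ _ := by
          gcongr
          exact le_max_left _ _

end Pool.Agent.H466.LD
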