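import Pool.Agent.H466.TH.A5

/-!
# Gaussian bounds: the heat flow forward and backward
-/

set_option autoImplicit false

open Complex MeasureTheory Filter Topology Set
open scoped ComplexConjugate

namespace Pool.Agent.H466.LD

open Pool.Agent.H466.HF

variable {g : ℝ → ℂ} {A c : ℝ}

lemma gauss_shift {a b : ℝ} (hb : 0 < b) :
    Integrable (fun v : ℝ => Real.exp (a * v - b * v ^ 2)) ∧
      ∫ v : ℝ, Real.exp (a * v - b * v ^ 2) = Real.sqrt (Real.pi / b) * Real.exp (a ^ 2 / (4 * b)) := by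
  have h1 : Integrable (fun v : ℝ => Real.exp (-b * v ^ 2)) := integrable_exp_neg_mul_sq hb
  have h2 := h1.comp_sub_right (a / (2 * b))
  have e : (fun v : ℝ => Real.exp (a * v - b * v ^ 2)) =
      fun v : ℝ => Real.exp (a ^ 2 / (4 * b)) * Real.exp (-b * (v - a / (2 * b)) ^ 2) := by
    funext v
    rw [← Real.exp_add]
    congr 1
    field_simp
    ring
  constructor
  · rw [e]
    exact h2.const_mul _
  · rw [e, integral_const_mul, integral_sub_right_eq_self (fun v : ℝ => Real.exp (-b * v ^ 2)),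
      integral_gaussian]
    ring

/-- Gaussian integral with an absolute value -/
lemma gauss_abs {a b : ℝ} (hb : 0 < b) :
    Integrable (fun v : ℝ => Real.exp (a * |v| - b * v ^ 2)) ∧
      ∫ v : ℝ, Real.exp (a * |v| - b * v ^ 2) ≤
        2 * (Real.sqrt (Real.pi / b) * Real.exp (a ^ 2 / (4 * b))) := by
  obtain ⟨i1, e1⟩ := gauss_shift (a := a) hb
  obtain ⟨i2, e2⟩ := gauss_shift (a := -a) hb
  have hle : ∀ v : ℝ, Real.exp (a * |v| - b * v ^ 2) ≤
      Real.exp (a * v - b * v ^ 2) + Real.exp (-a * v - b * v ^ 2) := by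
    intro v
    rcases le_total 0 v with h | h
    · rw [abs_of_nonneg h]
      linarith [Real.exp_pos (-a * v - b * v ^ 2)]
    · rw [abs_of_nonpos h]
      have : a * -v = -a * v := by ring
      rw [this]
      linarith [Real.exp_pos (a * v - b * v ^ 2)]
  have hi : Integrable (fun v : ℝ => Real.exp (a * |v| - b * v ^ 2)) := by
    refine (i1.add i2).mono' (Continuous.aestronglyMeasurable (by fun_prop))
      (Eventually.of_forall fun v => ?_)
    rw [Real.norm_eq_abs, abs_of_pos (Real.exp_pos _)]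
    exact hle v
  refine ⟨hi, ?_⟩
  have h := integral_mono hi (i1.add i2) hle
  refine h.trans (le_of_eq ?_)
  have : ∫ v : ℝ, ((fun v : ℝ => Real.exp (a * v - b * v ^ 2)) +
      fun v : ℝ => Real.exp (-a * v - b * v ^ 2)) v =
      (∫ v : ℝ, Real.exp (a * v - b * v ^ 2)) + ∫ v : ℝ, Real.exp (-a * v - b * v ^ 2) :=
    integral_add i1 i2
  rw [this, e1, e2, neg_sq]
  ring

/-- the normalized Gaussian integral which occurs in all bounds -/
lemma gauss_norm {lam ℒ K : ℝ} (hlam : 0 < lam) (hK : 0 ≤ K) (hs : 8 * K * lam ≤ 1) :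
    Integrable (fun v : ℝ => Real.exp (ℒ * |v| + K * v ^ 2) * Real.exp (-v ^ 2 / (4 * lam))) ∧
    ∫ v : ℝ, Real.exp (ℒ * |v| + K * v ^ 2) * Real.exp (-v ^ 2 / (4 * lam)) ≤
      Real.sqrt (Real.pi * (4 * lam)) * Real.exp (lam * ℒ ^ 2 + 8 * K * (lam * ℒ) ^ 2 + 2) := by
  set b : ℝ := 1 / (4 * lam) - K with hb
  have hb1 : 1 / (8 * lam) ≤ b := by
    rw [hb]
    have : K ≤ 1 / (8 * lam) := by
      rw [le_div_iff₀ (by positivity)]
      linarith
    have h2 : 1 / (4 * lam) = 1 / (8 * lam) + 1 / (8 * lam) := by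
      field_simp
      norm_num
    linarith
  have hb0 : 0 < b := lt_of_lt_of_le (by positivity) hb1
  have e : (fun v : ℝ => Real.exp (ℒ * |v| + K * v ^ 2) * Real.exp (-v ^ 2 / (4 * lam))) =
      fun v : ℝ => Real.exp (ℒ * |v| - b * v ^ 2) := by
    funext v
    rw [← Real.exp_add]
    congr 1
    rw [hb]
    ring
  obtain ⟨h1, h2⟩ := gauss_abs (a := ℒ) hb0
  rw [e]
  refine ⟨h1, h2.trans ?_⟩
  have hs1 : Real.sqrt (Real.pi / b) ≤ 2 * Real.sqrt (Real.pi * (4 * lam)) := by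
    have h3 : Real.pi / b ≤ (4 : ℝ) * (Real.pi * (4 * lam)) := by
      rw [div_le_iff₀ hb0]
      have h4 : (4 : ℝ) * (Real.pi * (4 * lam)) * (1 / (8 * lam)) = 2 * Real.pi := by
        field_simp
        norm_num
      have h5 : (4 : ℝ) * (Real.pi * (4 * lam)) * (1 / (8 * lam)) ≤ 4 * (Real.pi * (4 * lam)) * b :=
        mul_le_mul_of_nonneg_left hb1 (by positivity)
      have := Real.pi_pos
      linarith
    calc Real.sqrt (Real.pi / b) ≤ Real.sqrt ((4 : ℝ) * (Real.pi * (4 * lam))) := Real.sqrt_le_sqrt h3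
      _ = 2 * Real.sqrt (Real.pi * (4 * lam)) := by
          rw [Real.sqrt_mul (by norm_num)]
          congr 1
          rw [show (4 : ℝ) = 2 ^ 2 by norm_num, Real.sqrt_sq (by norm_num)]
  have hs2 : ℒ ^ 2 / (4 * b) ≤ lam * ℒ ^ 2 + 8 * K * (lam * ℒ) ^ 2 := by
    rw [div_le_iff₀ (by positivity)]
    have h4 : 4 * b * lam = 1 - 4 * K * lam := by
      rw [hb]
      field_simp
    have h5 : (lam * ℒ ^ 2 + 8 * K * (lam * ℒ) ^ 2) * (4 * b) =
        ℒ ^ 2 * ((1 + 8 * K * lam) * (4 * b * lam)) := by ring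
    rw [h5, h4]
    have h6 : (1 : ℝ) ≤ (1 + 8 * K * lam) * (1 - 4 * K * lam) := by
      have : 0 ≤ K * lam := by positivity
      nlinarith
    nlinarith [sq_nonneg ℒ]
  have hE : (4 : ℝ) ≤ Real.exp 2 := by
    have h7 : (2 : ℝ) ≤ Real.exp 1 := by linarith [Real.add_one_le_exp (1 : ℝ)]
    have h8 : Real.exp 2 = Real.exp 1 * Real.exp 1 := by
      rw [← Real.exp_add]
      norm_num
    rw [h8]
    nlinarith
  calc 2 * (Real.sqrt (Real.pi / b) * Real.exp (ℒ ^ 2 / (4 * b)))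
      ≤ 2 * ((2 * Real.sqrt (Real.pi * (4 * lam))) *
          Real.exp (lam * ℒ ^ 2 + 8 * K * (lam * ℒ) ^ 2)) := by
        apply mul_le_mul_of_nonneg_left _ (by norm_num)
        exact mul_le_mul hs1 (Real.exp_le_exp.mpr hs2) (Real.exp_pos _).le (by positivity)
    _ = Real.sqrt (Real.pi * (4 * lam)) * (Real.exp (lam * ℒ ^ 2 + 8 * K * (lam * ℒ) ^ 2) * 4) := by
        ring
    _ ≤ Real.sqrt (Real.pi * (4 * lam)) *
        (Real.exp (lam * ℒ ^ 2 + 8 * K * (lam * ℒ) ^ 2) * Real.exp 2) := by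
        gcongr
    _ = _ := by rw [← Real.exp_add]

lemma sqrt_pos' {lam : ℝ} (hlam : 0 < lam) : 0 < Real.sqrt (Real.pi * (4 * lam)) := by
  have := Real.pi_pos
  positivity

/-- upper bound for the heat flow -/
lemma heat_upper (k : Kern g A c) {lam ℒ a K Γ0 : ℝ} (hlam : 0 < lam) (hK : 0 ≤ K)
    (hs : 8 * K * lam ≤ 1) {z : ℂ}
    (h : ∀ v : ℝ, ‖LL g 0 (z + v)‖ ≤ Γ0 * Real.exp (a + (ℒ * |v| + K * v ^ 2))) :
    ‖LL g lam z‖ ≤ Γ0 * Real.exp (a + lam * ℒ ^ 2 + 8 * K * (lam * ℒ) ^ 2 + 2) := by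
  have hS := sqrt_pos' hlam
  obtain ⟨i1, i2⟩ := gauss_norm (ℒ := ℒ) hlam hK hs
  have h1 := k.heat_eq hlam z
  have h2 : ‖heat (LL g 0) lam z‖ ≤ (Γ0 * Real.exp a) *
      (Real.sqrt (Real.pi * (4 * lam)) * Real.exp (lam * ℒ ^ 2 + 8 * K * (lam * ℒ) ^ 2 + 2)) := by
    have hΓ : 0 ≤ Γ0 * Real.exp a := by
      have h3 := (norm_nonneg _).trans (h 0)
      rw [Real.exp_add, ← mul_assoc] at h3
      exact nonneg_of_mul_nonneg_left h3 (Real.exp_pos _)
    refine le_trans ?_ (mul_le_mul_of_nonneg_left i2 hΓ)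
    rw [← integral_const_mul]
    unfold heat
    refine norm_integral_le_of_norm_le (i1.const_mul _) (Eventually.of_forall fun v => ?_)
    rw [norm_mul, Complex.norm_real, Real.norm_eq_abs, abs_of_pos (Real.exp_pos _)]
    calc ‖LL g 0 (z + v)‖ * Real.exp (-v ^ 2 / (4 * lam))
        ≤ (Γ0 * Real.exp (a + (ℒ * |v| + K * v ^ 2))) * Real.exp (-v ^ 2 / (4 * lam)) :=
          mul_le_mul_of_nonneg_right (h v) (Real.exp_pos _).le
      _ = _ := by rw [Real.exp_add]; ring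
  rw [h1, norm_mul, Complex.norm_real, Real.norm_eq_abs, abs_of_pos hS] at h2
  have h3 : Real.sqrt (Real.pi * (4 * lam)) * ‖LL g lam z‖ ≤ Real.sqrt (Real.pi * (4 * lam)) *
      (Γ0 * Real.exp (a + lam * ℒ ^ 2 + 8 * K * (lam * ℒ) ^ 2 + 2)) := by
    refine h2.trans (le_of_eq ?_)
    rw [show a + lam * ℒ ^ 2 + 8 * K * (lam * ℒ) ^ 2 + 2 =
      a + (lam * ℒ ^ 2 + 8 * K * (lam * ℒ) ^ 2 + 2) by ring, Real.exp_add a]
    ring
  exact le_of_mul_le_mul_left h3 hS

/-- the backward heat flow: averages along vertical lines -/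
lemma backward (k : Kern g A c) {lam : ℝ} (hlam : 0 < lam) (z : ℂ) :
    ∫ v : ℝ, LL g lam (z + v * I) * (Real.exp (-v ^ 2 / (4 * lam)) : ℂ) =
      (Real.sqrt (Real.pi * (4 * lam)) : ℂ) * LL g 0 z := by
  have h1 : ∀ v : ℝ, LL g lam (z + v * I) * (Real.exp (-v ^ 2 / (4 * lam)) : ℂ) =
      ∫ u : ℝ, (g u * cexp ((lam : ℂ) * (u : ℂ) ^ 2 + z * u)) *
        (cexp ((v : ℂ) * (I * u)) * (Real.exp (-v ^ 2 / (4 * lam)) : ℂ)) := by
    intro v
    unfold LL
    rw [← integral_mul_const]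
    refine integral_congr_ae (Eventually.of_forall fun u => ?_)
    simp only
    have e : (lam : ℂ) * (u : ℂ) ^ 2 + (z + v * I) * u =
        ((lam : ℂ) * (u : ℂ) ^ 2 + z * u) + (v : ℂ) * (I * u) := by ring
    rw [e, Complex.exp_add]
    ring
  simp_rw [h1]
  have hint : Integrable (Function.uncurry fun (v u : ℝ) =>
      (g u * cexp ((lam : ℂ) * (u : ℂ) ^ 2 + z * u)) *
        (cexp ((v : ℂ) * (I * u)) * (Real.exp (-v ^ 2 / (4 * lam)) : ℂ)))
      ((volume : Measure ℝ).prod volume) := by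
    have i1 : Integrable (fun v : ℝ => Real.exp (-v ^ 2 / (4 * lam))) :=
      ga_integrable (k := 4 * lam) (by positivity)
    have i2 := (k.integrable lam z).norm
    refine (i1.mul_prod i2).mono' ?_ (Eventually.of_forall fun p => ?_)
    · have := k.cont
      refine Continuous.aestronglyMeasurable ?_
      unfold Function.uncurry
      fun_prop
    · obtain ⟨v, u⟩ := p
      simp only [Function.uncurry]
      rw [norm_mul, norm_mul (cexp _) ((Real.exp _ : ℝ) : ℂ)]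
      have e1 : ‖cexp ((v : ℂ) * (I * u))‖ = 1 := by
        have : (v : ℂ) * (I * u) = ((v * u : ℝ) : ℂ) * I := by push_cast; ring
        rw [this, Complex.norm_exp_ofReal_mul_I]
      rw [e1, one_mul, Complex.norm_real, Real.norm_eq_abs, abs_of_pos (Real.exp_pos _), mul_comm]
  rw [integral_integral_swap hint]
  have h2 : ∀ u : ℝ, ∫ v : ℝ, (g u * cexp ((lam : ℂ) * (u : ℂ) ^ 2 + z * u)) *
        (cexp ((v : ℂ) * (I * u)) * (Real.exp (-v ^ 2 / (4 * lam)) : ℂ)) =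
      (Real.sqrt (Real.pi * (4 * lam)) : ℂ) * (g u * cexp (z * u)) := by
    intro u
    rw [integral_const_mul, gauss_inner' hlam]
    have e : cexp ((lam : ℂ) * (u : ℂ) ^ 2 + z * u) * cexp (lam * (I * u) ^ 2) = cexp (z * u) := by
      rw [← Complex.exp_add]
      congr 1
      have hI : I ^ 2 = -1 := I_sq
      linear_combination ((lam : ℂ) * u ^ 2) * hI
    calc g u * cexp ((lam : ℂ) * (u : ℂ) ^ 2 + z * u) *
          ((Real.sqrt (Real.pi * (4 * lam)) : ℂ) * cexp (lam * (I * u) ^ 2))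
        = (Real.sqrt (Real.pi * (4 * lam)) : ℂ) * (g u *
          (cexp ((lam : ℂ) * (u : ℂ) ^ 2 + z * u) * cexp (lam * (I * u) ^ 2))) := by ring
      _ = _ := by rw [e]
  simp_rw [h2]
  rw [integral_const_mul, LL_zero]

/-- a bound for the function by the heat flow on the vertical line -/
lemma backward_le (k : Kern g A c) {lam a K B : ℝ} (hlam : 0 < lam) (hK : 0 ≤ K)
    (hs : 8 * K * lam ≤ 1) {z : ℂ} (hB : 0 ≤ B)
    (h : ∀ v : ℝ, ‖LL g lam (z + v * I)‖ ≤ B * Real.exp (a * |v| + K * v ^ 2)) :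
    ‖LL g 0 z‖ ≤ B * Real.exp (lam * a ^ 2 + 8 * K * (lam * a) ^ 2 + 2) := by
  have hS := sqrt_pos' hlam
  obtain ⟨i1, i2⟩ := gauss_norm (ℒ := a) hlam hK hs
  have h2 : ‖∫ v : ℝ, LL g lam (z + v * I) * (Real.exp (-v ^ 2 / (4 * lam)) : ℂ)‖ ≤ B *
      (Real.sqrt (Real.pi * (4 * lam)) * Real.exp (lam * a ^ 2 + 8 * K * (lam * a) ^ 2 + 2)) := by
    refine le_trans ?_ (mul_le_mul_of_nonneg_left i2 hB)
    rw [← integral_const_mul]
    refine norm_integral_le_of_norm_le (i1.const_mul _) (Eventually.of_forall fun v => ?_)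
    rw [norm_mul, Complex.norm_real, Real.norm_eq_abs, abs_of_pos (Real.exp_pos _)]
    calc ‖LL g lam (z + v * I)‖ * Real.exp (-v ^ 2 / (4 * lam))
        ≤ (B * Real.exp (a * |v| + K * v ^ 2)) * Real.exp (-v ^ 2 / (4 * lam)) :=
          mul_le_mul_of_nonneg_right (h v) (Real.exp_pos _).le
      _ = _ := by ring
  rw [backward k hlam, norm_mul, Complex.norm_real, Real.norm_eq_abs, abs_of_pos hS] at h2
  have h3 : Real.sqrt (Real.pi * (4 * lam)) * ‖LL g 0 z‖ ≤ Real.sqrt (Real.pi * (4 * lam)) *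
      (B * Real.exp (lam * a ^ 2 + 8 * K * (lam * a) ^ 2 + 2)) := by
    refine h2.trans (le_of_eq ?_)
    ring
  exact le_of_mul_le_mul_left h3 hS

end Pool.Agent.H466.LD
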