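import Pool.Agent.H466.LD.L9

/-!
# Zeros from the variation of the argument
-/

set_option autoImplicit false

open Complex MeasureTheory Filter Topology Set Metric
open scoped ComplexConjugate

namespace Pool.Agent.H466.LD

open Pool.Agent.W186.LH

/-- the factor of a zero on the imaginary axis -/
lemma factor_arg (ρ : ℂ) : ∃ (t α : ℝ → ℝ), Continuous α ∧ (∀ y, |α y| ≤ Real.pi / 2) ∧
    ∀ y : ℝ, (y : ℂ) * I - ρ = (t y : ℂ) * cexp ((α y : ℂ) * I) := by
  by_cases h : ρ.re = 0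
  · refine ⟨fun y => y - ρ.im, fun _ => Real.pi / 2, continuous_const, fun y => ?_, fun y => ?_⟩
    · rw [abs_of_nonneg (by positivity)]
    · push_cast
      rw [Complex.exp_pi_div_two_mul_I]
      have e : ρ = (ρ.re : ℂ) + (ρ.im : ℂ) * I := (re_add_im ρ).symm
      nth_rewrite 1 [e]
      rw [h]
      push_cast
      ring
  · set a : ℝ := -ρ.re with ha
    have ha0 : a ≠ 0 := by rw [ha]; exact neg_ne_zero.mpr h
    refine ⟨fun y => a * Real.sqrt (1 + ((y - ρ.im) / a) ^ 2), fun y => Real.arctan ((y - ρ.im) / a),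
      ?_, fun y => ?_, fun y => ?_⟩
    · exact Real.continuous_arctan.comp (by fun_prop)
    · rw [abs_le]
      exact ⟨(Real.neg_pi_div_two_lt_arctan _).le, (Real.arctan_lt_pi_div_two _).le⟩
    · set x : ℝ := (y - ρ.im) / a with hx
      have hs : 0 < Real.sqrt (1 + x ^ 2) := Real.sqrt_pos.mpr (by positivity)
      rw [Complex.exp_mul_I, ← ofReal_cos, ← ofReal_sin, Real.cos_arctan, Real.sin_arctan]
      have h1 : a * Real.sqrt (1 + x ^ 2) * (1 / Real.sqrt (1 + x ^ 2)) = a := by field_simp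
      have h2 : a * Real.sqrt (1 + x ^ 2) * (x / Real.sqrt (1 + x ^ 2)) = y - ρ.im := by
        rw [hx]
        field_simp
      have e : (y : ℂ) * I - ρ = (a : ℂ) + ((y - ρ.im : ℝ) : ℂ) * I := by
        apply Complex.ext
        · simp [ha]
        · simp
      rw [e, mul_add, ← mul_assoc, ← ofReal_mul, ← ofReal_mul, h1, h2]

lemma exists_ints {a b : ℝ} : ∃ S : Finset ℤ, (∀ k ∈ S, a < k ∧ (k : ℝ) < b) ∧
    b - a - 1 ≤ (S.card : ℝ) := by
  refine ⟨Finset.Ioo ⌊a⌋ ⌈b⌉, fun k hk => ?_, ?_⟩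
  · rw [Finset.mem_Ioo] at hk
    exact ⟨Int.floor_lt.mp hk.1, Int.lt_ceil.mp hk.2⟩
  · rw [Int.card_Ioo]
    have h1 : ((⌈b⌉ - ⌊a⌋ - 1 : ℤ) : ℝ) ≤ ((⌈b⌉ - ⌊a⌋ - 1).toNat : ℝ) := by
      exact_mod_cast Int.self_le_toNat _
    refine le_trans ?_ h1
    push_cast
    linarith [Int.floor_le a, Int.le_ceil b]

/-- the variation of the argument gives zeros of the real part -/
theorem line_zeros {B : ℂ → ℂ} (hB : Differentiable ℂ B) {ℒ r E1 E2 : ℝ} {w0 : ℂ} (hr : 0 < r)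
    (hw0 : ‖w0‖ ≤ r) (hE : 0 ≤ E1 + E2) (hup : ∀ w : ℂ, ‖w‖ ≤ 13 * r → ‖B w‖ ≤ Real.exp E1)
    (hlow : Real.exp (-E2) ≤ ‖B w0‖) :
    ∃ S : Finset ℝ, (∀ y ∈ S, -r < y ∧ y < r ∧
      (B ((y : ℂ) * I) * cexp ((ℒ : ℂ) * ((y : ℂ) * I))).re = 0) ∧
      2 * ℒ * r / Real.pi - 4 * (E1 + E2) - 3 ≤ (S.card : ℝ) := by
  classical
  have hπ := Real.pi_pos
  have hπ3 := Real.pi_gt_three
  have hBw0 : B w0 ≠ 0 := by
    rw [← norm_pos_iff]
    exact lt_of_lt_of_le (Real.exp_pos _) hlow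
  have hne : ∃ u, B u ≠ 0 := ⟨w0, hBw0⟩
  have hfin := zfin hB hne (isCompact_closedBall w0 (6 * r))
  set Z : Finset ℂ := hfin.toFinset with hZ
  have hZmem : ∀ z, z ∈ Z ↔ z ∈ closedBall w0 (6 * r) ∧ B z = 0 := fun z => by
    rw [hZ, Set.Finite.mem_toFinset]; rfl
  obtain ⟨G, hG, hGZ, hBG⟩ := fac Z hB hne
  obtain ⟨m, hm⟩ : ∃ m : ℂ → ℕ, m = fun z => analyticOrderNatAt B z := ⟨_, rfl⟩
  have hBG' : ∀ u, B u = (∏ z ∈ Z, (u - z) ^ (m z)) * G u := by rw [hm]; exact hBG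
  have hball13 : ∀ w ∈ closedBall w0 (12 * r), ‖w‖ ≤ 13 * r := by
    intro w hw
    rw [mem_closedBall, dist_eq_norm] at hw
    have := norm_le_norm_add_norm_sub' w w0
    linarith
  -- the number of zeros
  set M : ℕ := ∑ z ∈ Z, m z with hM
  have hMb : (M : ℝ) ≤ 2 * (E1 + E2) := by
    have h1 := jc hB (c := w0) (r := 6 * r) (R := 12 * r) (M := Real.exp E1) (by positivity)
      (by linarith) (fun u hu => hup u (hball13 u (sphere_subset_closedBall hu))) hBw0 Z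
      (fun z hz => ((hZmem z).mp hz).1)
    have h2 : 12 * r / (6 * r) = 2 := by
      field_simp
      norm_num
    rw [h2] at h1
    have h3 : (∑ z ∈ Z, analyticOrderNatAt B z) = M := by rw [hM, hm]
    rw [h3] at h1
    have h4 : (2 : ℝ) ^ M * Real.exp (-E2) ≤ Real.exp E1 :=
      (mul_le_mul_of_nonneg_left hlow (by positivity)).trans h1
    have h5 : Real.exp ((M : ℝ) * Real.log 2) ≤ Real.exp (E1 + E2) := by
      have h6 : Real.exp ((M : ℝ) * Real.log 2) = 2 ^ M := by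
        rw [mul_comm, Real.exp_mul, Real.exp_log (by norm_num), Real.rpow_natCast]
      rw [h6, Real.exp_add]
      calc (2 : ℝ) ^ M = (2 : ℝ) ^ M * Real.exp (-E2) * Real.exp E2 := by
            rw [mul_assoc, ← Real.exp_add, neg_add_cancel, Real.exp_zero, mul_one]
        _ ≤ _ := by gcongr
    have h6 := Real.exp_le_exp.mp h5
    have h7 := Real.log_two_gt_d9
    have h8 : (0 : ℝ) ≤ M := Nat.cast_nonneg _
    nlinarith
  -- the zero free factor
  have hG0 : ∀ w ∈ closedBall w0 (6 * r), G w ≠ 0 := by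
    intro w hw h
    by_cases hwZ : w ∈ Z
    · exact hGZ w hwZ h
    · apply hwZ
      rw [hZmem]
      refine ⟨hw, ?_⟩
      rw [hBG', h, mul_zero]
  have hGw0 : G w0 ≠ 0 := hG0 w0 (mem_closedBall_self (by positivity))
  have hGs : ∀ w ∈ sphere w0 (12 * r), ‖G w‖ ≤ Real.exp (E1 + E2) * ‖G w0‖ := by
    intro w hw
    have h1 := hup w (hball13 w (sphere_subset_closedBall hw))
    rw [mem_sphere, dist_eq_norm] at hw
    have hP : ‖∏ z ∈ Z, (w0 - z) ^ (m z)‖ ≤ ‖∏ z ∈ Z, (w - z) ^ (m z)‖ := by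
      rw [norm_prod, norm_prod]
      refine Finset.prod_le_prod (fun z _ => norm_nonneg _) fun z hz => ?_
      rw [norm_pow, norm_pow]
      refine pow_le_pow_left₀ (norm_nonneg _) ?_ _
      have h2 := ((hZmem z).mp hz).1
      rw [mem_closedBall, dist_eq_norm, norm_sub_rev] at h2
      have h3 : ‖w - w0‖ ≤ ‖w - z‖ + ‖w0 - z‖ := by
        have := norm_sub_le (w - z) (w0 - z)
        rwa [sub_sub_sub_cancel_right] at this
      linarith
    have hP0 : 0 < ‖∏ z ∈ Z, (w0 - z) ^ (m z)‖ := by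
      rw [norm_pos_iff]
      intro h
      apply hBw0
      rw [hBG', h, zero_mul]
    have h3 : ‖B w‖ ≤ Real.exp (E1 + E2) * ‖B w0‖ := by
      calc ‖B w‖ ≤ Real.exp E1 := h1
        _ = Real.exp (E1 + E2) * Real.exp (-E2) := by rw [← Real.exp_add]; congr 1; ring
        _ ≤ _ := by gcongr
    rw [hBG' w, hBG' w0, norm_mul, norm_mul] at h3
    have h4 : ‖∏ z ∈ Z, (w0 - z) ^ (m z)‖ * ‖G w‖ ≤
        ‖∏ z ∈ Z, (w0 - z) ^ (m z)‖ * (Real.exp (E1 + E2) * ‖G w0‖) := by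
      calc ‖∏ z ∈ Z, (w0 - z) ^ (m z)‖ * ‖G w‖ ≤ ‖∏ z ∈ Z, (w - z) ^ (m z)‖ * ‖G w‖ := by gcongr
        _ ≤ _ := h3
        _ = _ := by ring
    exact le_of_mul_le_mul_left h4 hP0
  have hGb : ∀ w ∈ ball w0 (6 * r), ‖G w‖ ≤ Real.exp (E1 + E2) * ‖G w0‖ := by
    intro w hw
    refine Complex.norm_le_of_forall_mem_frontier_norm_le (U := ball w0 (12 * r)) isBounded_ball
      hG.diffContOnCl ?_ (subset_closure (ball_subset_ball (by linarith) hw))
    intro z hz
    rw [frontier_ball w0 (by positivity : 12 * r ≠ 0)] at hz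
    exact hGs z hz
  obtain ⟨h, hh, hh0, hhG⟩ := DH31.exists_log (g := G) (c := w0) (r := 6 * r) (by positivity)
    (fun z _ => hG.analyticAt z) (fun z hz => hG0 z (ball_subset_closedBall hz))
  have hhb : ∀ w ∈ closedBall w0 (3 * r), ‖h w‖ ≤ 2 * (E1 + E2 + 1) := by
    intro w hw
    have h1 := DH31.bc_log (g := G) (h := h) (c := w0) (r := 6 * r) (r' := 6 * r) (r1 := 3 * r)
      (B := E1 + E2) (by positivity) (by linarith) le_rfl hE hGw0 hh hh0 hhG hGb hw
    refine h1.trans (le_of_eq ?_)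
    field_simp
    ring
  -- the phase
  choose t α hα hαb hta using factor_arg
  have hseg : ∀ y : ℝ, -r ≤ y → y ≤ r → (y : ℂ) * I ∈ closedBall w0 (3 * r) := by
    intro y h1 h2
    rw [mem_closedBall, dist_eq_norm]
    have h3 : ‖(y : ℂ) * I‖ ≤ r := by
      rw [norm_mul, Complex.norm_I, mul_one, Complex.norm_real, Real.norm_eq_abs, abs_le]
      exact ⟨h1, h2⟩
    have := norm_sub_le ((y : ℂ) * I) w0
    linarith
  set φ : ℝ → ℝ := fun y => ℒ * y + ∑ z ∈ Z, (m z : ℝ) * α z y + (arg (G w0) + (h ((y : ℂ) * I)).im)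
    with hφ
  have hφc : ContinuousOn φ (Icc (-r) r) := by
    have h1 : ContinuousOn (fun y : ℝ => h ((y : ℂ) * I)) (Icc (-r) r) := by
      refine hh.continuousOn.comp (by fun_prop) ?_
      intro y hy
      exact closedBall_subset_ball (by linarith) (hseg y hy.1 hy.2)
    have h2 : ContinuousOn (fun y : ℝ => (h ((y : ℂ) * I)).im) (Icc (-r) r) :=
      continuous_im.comp_continuousOn h1
    have h3 : Continuous fun y : ℝ => ∑ z ∈ Z, (m z : ℝ) * α z y :=
      continuous_finset_sum _ fun z _ => (hα z).const_mul _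
    exact ((continuousOn_const.mul continuousOn_id).add h3.continuousOn).add
      (continuousOn_const.add h2)
  have hval : ∀ y : ℝ, -r ≤ y → y ≤ r → ∃ t' : ℝ,
      B ((y : ℂ) * I) * cexp ((ℒ : ℂ) * ((y : ℂ) * I)) = (t' : ℂ) * cexp ((φ y : ℂ) * I) := by
    intro y h1 h2
    have h3 := hhG _ (closedBall_subset_ball (by linarith) (hseg y h1 h2))
    refine ⟨(∏ z ∈ Z, (t z y) ^ (m z)) * (‖G w0‖ * Real.exp (h ((y : ℂ) * I)).re), ?_⟩
    rw [hBG', h3]
    have h4 : ∏ z ∈ Z, ((y : ℂ) * I - z) ^ (m z) =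
        ((∏ z ∈ Z, (t z y) ^ (m z) : ℝ) : ℂ) * cexp (((∑ z ∈ Z, (m z : ℝ) * α z y : ℝ) : ℂ) * I) := by
      push_cast
      rw [Finset.sum_mul, Complex.exp_sum, ← Finset.prod_mul_distrib]
      refine Finset.prod_congr rfl fun z _ => ?_
      rw [hta, mul_pow, ← Complex.exp_nat_mul]
      congr 2
      ring
    have h5 : G w0 = (‖G w0‖ : ℂ) * cexp ((arg (G w0) : ℂ) * I) := (norm_mul_exp_arg_mul_I _).symm
    have h6 : cexp (h ((y : ℂ) * I)) = ((Real.exp (h ((y : ℂ) * I)).re : ℝ) : ℂ) *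
        cexp (((h ((y : ℂ) * I)).im : ℂ) * I) := by
      rw [ofReal_exp, ← Complex.exp_add, re_add_im]
    rw [h4, h6]
    nth_rewrite 1 [h5]
    have h7 : cexp ((φ y : ℂ) * I) = cexp ((ℒ : ℂ) * ((y : ℂ) * I)) *
        cexp (((∑ z ∈ Z, (m z : ℝ) * α z y : ℝ) : ℂ) * I) * (cexp ((arg (G w0) : ℂ) * I) *
        cexp (((h ((y : ℂ) * I)).im : ℂ) * I)) := by
      rw [← Complex.exp_add, ← Complex.exp_add, ← Complex.exp_add]
      congr 1
      simp only [hφ]
      push_cast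
      ring
    rw [h7]
    push_cast
    ring
  -- the total variation
  have hvar : 2 * ℒ * r - Real.pi * M - 4 * (E1 + E2 + 1) ≤ φ r - φ (-r) := by
    have h1 : φ r - φ (-r) = 2 * ℒ * r + ∑ z ∈ Z, (m z : ℝ) * (α z r - α z (-r)) +
        ((h ((r : ℂ) * I)).im - (h (((-r : ℝ) : ℂ) * I)).im) := by
      simp only [hφ]
      have : ∑ z ∈ Z, (m z : ℝ) * (α z r - α z (-r)) =
          ∑ z ∈ Z, (m z : ℝ) * α z r - ∑ z ∈ Z, (m z : ℝ) * α z (-r) := by
        rw [← Finset.sum_sub_distrib]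
        exact Finset.sum_congr rfl fun z _ => by ring
      rw [this]
      ring
    have h2 : -(Real.pi * M) ≤ ∑ z ∈ Z, (m z : ℝ) * (α z r - α z (-r)) := by
      have h3 : -(Real.pi * M) = ∑ z ∈ Z, (m z : ℝ) * (-Real.pi) := by
        rw [← Finset.sum_mul, hM]
        push_cast
        ring
      rw [h3]
      refine Finset.sum_le_sum fun z _ => ?_
      apply mul_le_mul_of_nonneg_left _ (Nat.cast_nonneg _)
      have h4 := (abs_le.mp (hαb z r)).1
      have h5 := (abs_le.mp (hαb z (-r))).2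
      linarith
    have h3 : |(h ((r : ℂ) * I)).im| ≤ 2 * (E1 + E2 + 1) :=
      (abs_im_le_norm _).trans (hhb _ (hseg r (by linarith) le_rfl))
    have h4 : |(h (((-r : ℝ) : ℂ) * I)).im| ≤ 2 * (E1 + E2 + 1) :=
      (abs_im_le_norm _).trans (hhb _ (hseg (-r) le_rfl (by linarith)))
    rw [h1]
    linarith [(abs_le.mp h3).1, (abs_le.mp h4).2]
  -- the points
  obtain ⟨S, hS1, hS2⟩ := exists_ints (a := (φ (-r) - Real.pi / 2) / Real.pi)
    (b := (φ r - Real.pi / 2) / Real.pi)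
  have hpt : ∀ k ∈ S, ∃ y : ℝ, y ∈ Ioo (-r) r ∧ φ y = Real.pi / 2 + k * Real.pi := by
    intro k hk
    obtain ⟨h1, h2⟩ := hS1 k hk
    rw [div_lt_iff₀ hπ] at h1
    rw [lt_div_iff₀ hπ] at h2
    have h3 := intermediate_value_Ioo (by linarith : -r ≤ r) hφc
    have h4 : Real.pi / 2 + k * Real.pi ∈ Ioo (φ (-r)) (φ r) := ⟨by linarith, by linarith⟩
    obtain ⟨y, hy, hy2⟩ := h3 h4
    exact ⟨y, hy, hy2⟩
  choose! Y hY1 hY2 using hpt
  refine ⟨S.image Y, ?_, ?_⟩
  · intro y hy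
    rw [Finset.mem_image] at hy
    obtain ⟨k, hk, rfl⟩ := hy
    have h1 := hY1 k hk
    refine ⟨h1.1, h1.2, ?_⟩
    obtain ⟨t', ht'⟩ := hval (Y k) h1.1.le h1.2.le
    rw [ht', hY2 k hk, re_ofReal_mul, Complex.exp_ofReal_mul_I_re]
    have : Real.cos (Real.pi / 2 + k * Real.pi) = 0 := by
      rw [Real.cos_eq_zero_iff]
      exact ⟨k, by ring⟩
    rw [this, mul_zero]
  · have hinj : Set.InjOn Y S := by
      intro k hk l hl hkl
      have h1 := hY2 k hk
      have h2 := hY2 l hl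
      rw [hkl, h2] at h1
      have h3 : (l : ℝ) * Real.pi = k * Real.pi := by linarith
      have h4 := mul_right_cancel₀ hπ.ne' h3
      exact_mod_cast h4.symm
    rw [Finset.card_image_of_injOn hinj]
    refine le_trans ?_ hS2
    have h1 : (φ r - Real.pi / 2) / Real.pi - (φ (-r) - Real.pi / 2) / Real.pi =
        (φ r - φ (-r)) / Real.pi := by
      field_simp
      ring
    have h2 : (2 * ℒ * r - Real.pi * M - 4 * (E1 + E2 + 1)) / Real.pi ≤ (φ r - φ (-r)) / Real.pi :=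
      div_le_div_of_nonneg_right hvar hπ.le
    have h3 : (2 * ℒ * r - Real.pi * M - 4 * (E1 + E2 + 1)) / Real.pi =
        2 * ℒ * r / Real.pi - M - 4 * (E1 + E2 + 1) / Real.pi := by
      field_simp
    have h4 : 4 * (E1 + E2 + 1) / Real.pi ≤ 2 * (E1 + E2 + 1) := by
      rw [div_le_iff₀ hπ]
      nlinarith
    rw [h1]
    linarith

end Pool.Agent.H466.LD
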