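import Pool.Agent.H466.LD.L10

/-!
# Zeros on short segments of the line
-/

set_option autoImplicit false

open Complex MeasureTheory Filter Topology Set Metric
open scoped ComplexConjugate

namespace Pool.Agent.H466.LD

open Pool.Agent.H466.HF

/-- the expected size in a window, up to `exp (μ ℒ)` -/
structure Near (F : ℂ → ℂ) (T ℒ Γ0 K μ W : ℝ) : Prop where
  up : ∀ z : ℂ, |z.im - T| ≤ W →
    ‖F z‖ ≤ Γ0 * Real.exp (ℒ * (|z.re| + μ) + K * (1 + z.re ^ 2 + (z.im - T) ^ 2))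

variable {g : ℝ → ℂ} {A c : ℝ} {P : ℂ → ℂ} {T ℒ Γ0 K μ0 lam δ μ W : ℝ}

/-- the upper bound in the window -/
lemma Fup2 (k : Kern g A c) (C : Loc (LL g 0) P T ℒ Γ0 K μ0) (N : Near (LL g 0) T ℒ Γ0 K μ W)
    (hlam : 0 < lam) (hs : 16 * K * lam ≤ 1) (hδ : 2 * lam * ℒ ≤ δ) {z : ℂ}
    (hz : |z.im - T| ≤ W) :
    ‖LL g lam z‖ ≤ Γ0 * Real.exp (ℒ * (|z.re| + μ) + lam * ℒ ^ 2 +
      (2 * K + 4 * K * δ ^ 2 + 2) * (1 + z.re ^ 2 + (z.im - T) ^ 2)) := by
  have hK := C.K1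
  have hℒ := C.ℒ1
  have h := heat_upper k (lam := lam) (ℒ := ℒ) (K := 2 * K) (Γ0 := Γ0) (z := z)
    (a := ℒ * (|z.re| + μ) + K * (1 + 2 * z.re ^ 2 + (z.im - T) ^ 2)) hlam (by linarith)
    (by linarith) (fun v => by
      have e1 : (z + (v : ℂ)).re = z.re + v := by simp
      have e2 : (z + (v : ℂ)).im = z.im := by simp
      refine (N.up (z + v) (by rw [e2]; exact hz)).trans ?_
      apply mul_le_mul_of_nonneg_left _ C.Γpos.le
      apply Real.exp_le_exp.mpr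
      rw [e1, e2]
      have h1 : |z.re + v| ≤ |z.re| + |v| := abs_add_le _ _
      have h2 := sq_add_le z.re v
      have h3 : ℒ * (|z.re + v| + μ) ≤ ℒ * (|z.re| + |v| + μ) := by gcongr
      have h4 : K * (1 + (z.re + v) ^ 2 + (z.im - T) ^ 2) ≤
          K * (1 + (2 * z.re ^ 2 + 2 * v ^ 2) + (z.im - T) ^ 2) := by gcongr
      nlinarith)
  refine h.trans ?_
  apply mul_le_mul_of_nonneg_left _ C.Γpos.le
  apply Real.exp_le_exp.mpr
  have h5 := lamL_sq hlam (by linarith) hδ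
  have h6 : 8 * (2 * K) * (lam * ℒ) ^ 2 ≤ 4 * K * δ ^ 2 := by nlinarith
  have h7 : 0 ≤ z.re ^ 2 + (z.im - T) ^ 2 := by positivity
  have h8 : 0 ≤ (4 * K * δ ^ 2 + 2) * (z.re ^ 2 + (z.im - T) ^ 2) := by positivity
  nlinarith [sq_nonneg z.re, sq_nonneg (z.im - T)]

/-- the bounds used below, with the small error `μ` -/
structure Fin (F : ℂ → ℂ) (T ℒ Γ1 μ0 R1 μ : ℝ) : Prop where
  Γ1pos : 0 < Γ1
  up : ∀ z : ℂ, |z.re| ≤ R1 → |z.im - T| ≤ R1 → ‖F z‖ ≤ Γ1 * Real.exp (ℒ * (|z.re| + μ))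
  low : ∀ z : ℂ, |z.re| ≤ R1 → |z.im - T| ≤ R1 → 4 + μ0 ≤ z.re →
    Γ1 * Real.exp (ℒ * (z.re - μ)) ≤ ‖F z‖

theorem fin_bounds {K μ0 δ R1 μ : ℝ} (hK : 1 ≤ K) (hδ : 0 < δ) (hμ : 0 < μ) (hR1 : 0 ≤ R1) :
    ∃ ℒ0 : ℝ, 1 ≤ ℒ0 ∧ ∀ {g : ℝ → ℂ} {A c : ℝ} {P : ℂ → ℂ} {T ℒ Γ0 lam : ℝ}, Kern g A c →
      Loc (LL g 0) P T ℒ Γ0 K μ0 → Near (LL g 0) T ℒ Γ0 K (μ / 2) R1 → ℒ0 ≤ ℒ → 0 < lam →
      2 * lam * ℒ ≤ δ →
      32 * K * lam ≤ 1 ∧ Fin (LL g lam) T ℒ (Γ0 * Real.exp (lam * ℒ ^ 2)) μ0 R1 μ := by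
  obtain ⟨ℒ1, h1, hb⟩ := bounds (K := K) (μ0 := μ0) (δ := δ) (R1 := R1) (η := μ) hK hδ hμ hR1
  set K' : ℝ := 2 * K + 4 * K * δ ^ 2 + 2 with hK'
  have hK'0 : 0 < K' := by rw [hK']; positivity
  refine ⟨max ℒ1 (2 * (K' * (1 + 2 * R1 ^ 2)) / μ), h1.trans (le_max_left _ _), ?_⟩
  intro g A c P T ℒ Γ0 lam k C N hℒ hlam hl
  obtain ⟨r1, r2⟩ := hb k C ((le_max_left _ _).trans hℒ) hlam hl
  refine ⟨r1, r2.Γ1pos, ?_, r2.low⟩
  intro z hz1 hz2
  have hΓ := C.Γpos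
  refine (Fup2 k C N hlam (by
    have := C.K1
    have : 0 < K * lam := by positivity
    linarith) hl hz2).trans ?_
  rw [mul_assoc Γ0, ← Real.exp_add]
  apply mul_le_mul_of_nonneg_left _ hΓ.le
  apply Real.exp_le_exp.mpr
  have h3 : z.re ^ 2 ≤ R1 ^ 2 := sq_le_sq' (by linarith [(abs_le.mp hz1).1]) (abs_le.mp hz1).2
  have h4 : (z.im - T) ^ 2 ≤ R1 ^ 2 := sq_le_sq' (by linarith [(abs_le.mp hz2).1]) (abs_le.mp hz2).2
  have h5 : K' * (1 + z.re ^ 2 + (z.im - T) ^ 2) ≤ K' * (1 + 2 * R1 ^ 2) := by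
    apply mul_le_mul_of_nonneg_left _ hK'0.le
    linarith
  have h6 : 2 * (K' * (1 + 2 * R1 ^ 2)) ≤ ℒ * μ := by
    rw [← div_le_iff₀ hμ]
    exact (le_max_right _ _).trans hℒ
  nlinarith

/-- a point of the expected size near `iτ` and many zeros on the segment of half length `r` -/
theorem seg_zeros {K μ0 δ1 δ ε : ℝ} (hK : 1 ≤ K) (hμ0 : 0 ≤ μ0) (hδ1 : 0 < δ1) (hδ : δ1 ≤ δ)
    (hε : 0 < ε) (hε1 : ε ≤ 1) :
    ∃ r0 : ℝ, 0 < r0 ∧ ∀ r : ℝ, 0 < r → r ≤ r0 → ∃ μ : ℝ, 0 < μ ∧ μ ≤ ε * r ∧ ∀ W1 : ℝ, 0 ≤ W1 →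
      ∃ ℒ0 : ℝ, 1 ≤ ℒ0 ∧ ∀ {g : ℝ → ℂ} {A c : ℝ} {P : ℂ → ℂ} {T ℒ Γ0 lam : ℝ}, Kern g A c →
      Loc (LL g 0) P T ℒ Γ0 K μ0 → Near (LL g 0) T ℒ Γ0 K (μ / 2) (W1 + 2 * (5 + μ0)) →
      (∀ z : ℂ, LL g 0 (-conj z) = conj (LL g 0 z)) → ℒ0 ≤ ℒ → 0 < lam → δ1 ≤ 2 * lam * ℒ →
      2 * lam * ℒ ≤ δ →
      Fin (LL g lam) T ℒ (Γ0 * Real.exp (lam * ℒ ^ 2)) μ0 (W1 + 2 * (5 + μ0)) μ ∧
      ∀ τ : ℝ, |τ - T| ≤ W1 →
        (∃ w0 : ℂ, r / 4 ≤ w0.re ∧ |w0.im| ≤ r / 4 ∧ ‖w0‖ ≤ r ∧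
          Γ0 * Real.exp (lam * ℒ ^ 2) * Real.exp (ℒ * (w0.re - ε * r)) ≤
            ‖LL g lam ((τ : ℂ) * I + w0)‖) ∧
        ∃ S : Finset ℝ, (∀ y ∈ S, τ - r < y ∧ y < τ + r ∧ LL g lam ((y : ℂ) * I) = 0) ∧
          (1 - ε) * (2 * ℒ * r / Real.pi) ≤ (S.card : ℝ) := by
  have hπ := Real.pi_pos
  have hπ3 := Real.pi_gt_three
  have hπ4 := Real.pi_lt_four
  refine ⟨min (ε * δ1 / 1400) (1 / 13), by positivity, ?_⟩
  intro r hr hr0
  have hr1 : r ≤ ε * δ1 / 1400 := hr0.trans (min_le_left _ _)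
  have hr2 : r ≤ 1 / 13 := hr0.trans (min_le_right _ _)
  set c0 : ℝ := 5 + μ0 with hc0
  set σ : ℝ := ε * r / 100 with hσ
  have hσ0 : 0 < σ := by positivity
  obtain ⟨μ1, hμ1, hbig⟩ := big_point (c0 := c0) (r := r) (σ := σ) hr (by linarith) hσ0
  set μ : ℝ := min μ1 (ε * r / 100) with hμ
  have hμ0' : 0 < μ := lt_min hμ1 (by positivity)
  have hμ1' : μ ≤ μ1 := min_le_left _ _
  have hμ2 : μ ≤ ε * r / 100 := min_le_right _ _
  have hεr : 0 < ε * r := by positivity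
  refine ⟨μ, hμ0', by linarith, ?_⟩
  intro W1 hW1
  set R1 : ℝ := W1 + 2 * c0 with hR1
  obtain ⟨ℒ1, hℒ1, hfb⟩ := fin_bounds (K := K) (μ0 := μ0) (δ := δ) (R1 := R1) (μ := μ) hK
    (lt_of_lt_of_le hδ1 hδ) hμ0' (by rw [hR1]; positivity)
  -- the constant in the bound of the half transform
  set C' : ℝ := K * (1 + W1 ^ 2) + 4 * K * δ ^ 2 + 2 * K + 2 with hC'
  have hC'0 : 0 < C' := by positivity
  refine ⟨max ℒ1 (C' / (ε * r / 200) + 700 / (ε * r)), hℒ1.trans (le_max_left _ _), ?_⟩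
  intro g A c P T ℒ Γ0 lam k C N hfe hℒ hlam hl1 hl
  have a1 : ℒ1 ≤ ℒ := (le_max_left _ _).trans hℒ
  have a2 : C' / (ε * r / 200) + 700 / (ε * r) ≤ ℒ := (le_max_right _ _).trans hℒ
  have p1 : 0 ≤ C' / (ε * r / 200) := by positivity
  have p2 : 0 ≤ 700 / (ε * r) := by positivity
  have b1 : C' ≤ ℒ * (ε * r / 200) := by
    rw [← div_le_iff₀ (by positivity)]; linarith
  have b2 : 700 ≤ ℒ * (ε * r) := by
    rw [← div_le_iff₀ (by positivity)]; linarith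
  have hℒp : 1 ≤ ℒ := C.ℒ1
  have hΓ := C.Γpos
  obtain ⟨hKl, hFin⟩ := hfb k C N a1 hlam hl
  set Γ1 : ℝ := Γ0 * Real.exp (lam * ℒ ^ 2) with hΓ1
  have hΓ1p : 0 < Γ1 := by positivity
  refine ⟨hFin, ?_⟩
  intro τ hτ
  have hFd : Differentiable ℂ (LL g lam) := k.differentiable lam
  -- the big point
  obtain ⟨w0, hw1, hw2, hw3, hw4⟩ := hbig (LL g lam) τ ℒ Γ1 hFd hΓ1p (by linarith)
    (by
      intro z h1 h2 h3
      have h4 := hFin.up z (by rw [abs_of_nonneg h1]; linarith) (by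
        have : z.im - T = (z.im - τ) + (τ - T) := by ring
        rw [this]
        refine (abs_add_le _ _).trans ?_
        linarith)
      refine h4.trans ?_
      rw [abs_of_nonneg h1]
      apply mul_le_mul_of_nonneg_left _ hΓ1p.le
      apply Real.exp_le_exp.mpr
      gcongr)
    (by
      have h4 := hFin.low ((c0 : ℂ) + (τ : ℂ) * I) (by
        have : ((c0 : ℂ) + (τ : ℂ) * I).re = c0 := by simp
        rw [this, abs_of_nonneg (by positivity)]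
        linarith [show 0 ≤ c0 by positivity]) (by
        have : ((c0 : ℂ) + (τ : ℂ) * I).im = τ := by simp
        rw [this]
        linarith [show 0 ≤ c0 by positivity]) (by
        have : ((c0 : ℂ) + (τ : ℂ) * I).re = c0 := by simp
        rw [this, hc0]
        linarith)
      have e : ((c0 : ℂ) + (τ : ℂ) * I).re = c0 := by simp
      rw [e] at h4
      refine le_trans ?_ h4
      apply mul_le_mul_of_nonneg_left _ hΓ1p.le
      apply Real.exp_le_exp.mpr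
      gcongr)
  refine ⟨⟨w0, hw1, hw2, hw3, le_trans ?_ hw4⟩, ?_⟩
  · apply mul_le_mul_of_nonneg_left _ hΓ1p.le
    apply Real.exp_le_exp.mpr
    apply mul_le_mul_of_nonneg_left _ (by linarith)
    rw [hσ]
    linarith
  -- the half transform
  have G : Gr (LL g 0) τ ℒ (Γ0 * Real.exp (ℒ * (μ / 2) + K * (1 + W1 ^ 2))) K lam := by
    refine ⟨(k.differentiable 0).continuous, by linarith, by positivity, by linarith, hlam,
      by nlinarith, fun v hv => ?_⟩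
    have e1 : ((v : ℂ) + (τ : ℂ) * I).re = v := by simp
    have e2 : ((v : ℂ) + (τ : ℂ) * I).im = τ := by simp
    have h1 := N.up ((v : ℂ) + (τ : ℂ) * I) (by
      rw [e2]
      linarith [show 0 ≤ c0 by positivity])
    rw [e1, e2, abs_of_nonneg hv] at h1
    refine h1.trans ?_
    rw [mul_assoc, ← Real.exp_add]
    apply mul_le_mul_of_nonneg_left _ hΓ.le
    apply Real.exp_le_exp.mpr
    have h2 : (τ - T) ^ 2 ≤ W1 ^ 2 := sq_le_sq' (by linarith [(abs_le.mp hτ).1]) (abs_le.mp hτ).2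
    have h3 : K * (τ - T) ^ 2 ≤ K * W1 ^ 2 := mul_le_mul_of_nonneg_left h2 (by linarith)
    nlinarith
  have hAd : Differentiable ℂ (AA (LL g 0) τ lam) := G.diff
  have hA : ∀ w : ℂ, ‖w‖ ≤ 13 * r → ‖AA (LL g 0) τ lam w‖ ≤
      Γ1 * Real.exp (ℒ * (w.re + μ / 2 + ε * r / 200) + w.im ^ 2 * (ℒ / (2 * δ1))) := by
    intro w hw
    refine (G.norm_le w).trans ?_
    rw [hΓ1, mul_assoc Γ0, mul_assoc Γ0, ← Real.exp_add, ← Real.exp_add]
    apply mul_le_mul_of_nonneg_left _ hΓ.le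
    apply Real.exp_le_exp.mpr
    have h1 : w.re ^ 2 ≤ 1 := by
      have h2 := (abs_re_le_norm w).trans hw
      have h3 : |w.re| ≤ 1 := by linarith
      rw [← sq_abs]
      nlinarith [abs_nonneg w.re]
    have h2 : 16 * K * (lam * ℒ) ^ 2 ≤ 4 * K * δ ^ 2 := by
      have h3 := lamL_sq hlam (by linarith : 0 ≤ ℒ) hl
      nlinarith
    have h3 : w.im ^ 2 / (4 * lam) ≤ w.im ^ 2 * (ℒ / (2 * δ1)) := by
      rw [div_eq_mul_inv]
      apply mul_le_mul_of_nonneg_left _ (sq_nonneg _)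
      rw [inv_eq_one_div, div_le_div_iff₀ (by positivity) (by positivity)]
      linarith
    have h4 : 2 * K * w.re ^ 2 ≤ 2 * K := by nlinarith
    nlinarith
  have hAw0 : Γ1 * Real.exp (ℒ * (w0.re - σ)) / 2 ≤ ‖AA (LL g 0) τ lam w0‖ := by
    have h1 := split k G hfe w0
    have h2 : ‖AA (LL g 0) τ lam (-conj w0)‖ ≤ Γ1 * Real.exp (ℒ * (w0.re - σ)) / 2 := by
      have h3 := hA (-conj w0) (by rw [norm_neg, RCLike.norm_conj]; linarith)
      have e1 : (-conj w0).re = -w0.re := by simp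
      have e2 : (-conj w0).im = w0.im := by simp
      rw [e1, e2] at h3
      have h4 : w0.im ^ 2 * (ℒ / (2 * δ1)) ≤ ℒ * (r / 1000) := by
        have h5 : w0.im ^ 2 ≤ (r / 4) ^ 2 := sq_le_sq' (by linarith [(abs_le.mp hw2).1])
          (abs_le.mp hw2).2
        have h6 : r ≤ δ1 / 1400 := by
          refine hr1.trans ?_
          apply div_le_div_of_nonneg_right _ (by norm_num)
          nlinarith
        calc w0.im ^ 2 * (ℒ / (2 * δ1)) ≤ (r / 4) ^ 2 * (ℒ / (2 * δ1)) := by gcongr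
          _ = ℒ * (r / 32 * (r / δ1)) := by field_simp; ring
          _ ≤ ℒ * (r / 32 * (1 / 1400)) := by
              have : r / δ1 ≤ 1 / 1400 := by
                rw [div_le_iff₀ hδ1]
                linarith
              gcongr
          _ ≤ ℒ * (r / 1000) := by
              apply mul_le_mul_of_nonneg_left _ (by linarith)
              linarith
      have h5 : Real.exp 1 ≥ 2 := by linarith [Real.add_one_le_exp (1 : ℝ)]
      have h6 : ‖AA (LL g 0) τ lam (-conj w0)‖ * Real.exp 1 ≤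
          Γ1 * Real.exp (ℒ * (w0.re - σ)) := by
        calc ‖AA (LL g 0) τ lam (-conj w0)‖ * Real.exp 1
            ≤ (Γ1 * Real.exp (ℒ * (-w0.re + μ / 2 + ε * r / 200) +
              w0.im ^ 2 * (ℒ / (2 * δ1)))) * Real.exp 1 := by gcongr
          _ = Γ1 * Real.exp (ℒ * (-w0.re + μ / 2 + ε * r / 200) +
              w0.im ^ 2 * (ℒ / (2 * δ1)) + 1) := by rw [mul_assoc, ← Real.exp_add]
          _ ≤ _ := by
              apply mul_le_mul_of_nonneg_left _ hΓ1p.le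
              apply Real.exp_le_exp.mpr
              have h7 : 1 ≤ ℒ * (ε * r / 700) := by linarith
              have h8 : -w0.re + μ / 2 + ε * r / 200 + r / 1000 + ε * r / 700 ≤ w0.re - σ := by
                rw [hσ]
                have : ε * r ≤ r := by nlinarith
                linarith
              have h9 := mul_le_mul_of_nonneg_left h8 (by linarith : (0 : ℝ) ≤ ℒ)
              linarith
      have h7 := norm_nonneg (AA (LL g 0) τ lam (-conj w0))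
      nlinarith
    have h3 : ‖LL g lam ((τ : ℂ) * I + w0)‖ ≤ ‖AA (LL g 0) τ lam w0‖ +
        ‖AA (LL g 0) τ lam (-conj w0)‖ := by
      rw [h1]
      refine (norm_add_le _ _).trans ?_
      rw [RCLike.norm_conj]
    linarith
  -- the zeros
  set E1 : ℝ := ℒ * (μ / 2 + ε * r / 200 + 85 * r ^ 2 / δ1) with hE1
  set E2 : ℝ := ℒ * σ + 1 with hE2
  have hE10 : 0 ≤ E1 := by rw [hE1]; positivity
  have hE20 : 0 ≤ E2 := by rw [hE2]; positivity
  obtain ⟨S, hS1, hS2⟩ := line_zeros (B := nf (AA (LL g 0) τ lam) ℒ Γ1) (nf_diff hAd ℒ Γ1)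
    (ℒ := ℒ) (r := r) (E1 := E1) (E2 := E2) (w0 := w0) hr hw3 (by linarith)
    (by
      intro w hw
      rw [norm_nf _ _ hΓ1p, div_mul_eq_mul_div, div_le_iff₀ hΓ1p]
      have h1 := hA w hw
      have h2 : w.im ^ 2 * (ℒ / (2 * δ1)) ≤ ℒ * (85 * r ^ 2 / δ1) := by
        have h3 := (abs_im_le_norm w).trans hw
        have h5 : w.im ^ 2 ≤ (13 * r) ^ 2 := sq_le_sq' (by linarith [(abs_le.mp h3).1])
          (abs_le.mp h3).2
        calc w.im ^ 2 * (ℒ / (2 * δ1)) ≤ (13 * r) ^ 2 * (ℒ / (2 * δ1)) := by gcongr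
          _ = ℒ * (169 / 2 * r ^ 2 / δ1) := by field_simp; ring
          _ ≤ _ := by
              apply mul_le_mul_of_nonneg_left _ (by linarith)
              apply div_le_div_of_nonneg_right _ hδ1.le
              nlinarith [sq_nonneg r]
      calc ‖AA (LL g 0) τ lam w‖ * Real.exp (-(ℒ * w.re))
          ≤ (Γ1 * Real.exp (ℒ * (w.re + μ / 2 + ε * r / 200) + w.im ^ 2 * (ℒ / (2 * δ1)))) *
            Real.exp (-(ℒ * w.re)) := by gcongr
        _ ≤ (Γ1 * Real.exp (ℒ * (w.re + μ / 2 + ε * r / 200) + ℒ * (85 * r ^ 2 / δ1))) *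
            Real.exp (-(ℒ * w.re)) := by gcongr
        _ = _ := by
            rw [mul_assoc, ← Real.exp_add, mul_comm]
            congr 2
            rw [hE1]
            ring)
    (by
      rw [norm_nf _ _ hΓ1p, div_mul_eq_mul_div, le_div_iff₀ hΓ1p]
      have h1 : Real.exp (-1) ≤ 1 / 2 := by
        rw [Real.exp_neg, inv_eq_one_div]
        apply one_div_le_one_div_of_le (by norm_num)
        linarith [Real.add_one_le_exp (1 : ℝ)]
      calc Real.exp (-E2) * Γ1 = Γ1 * Real.exp (ℒ * (w0.re - σ)) * Real.exp (-1) *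
            Real.exp (-(ℒ * w0.re)) := by
            have e : -E2 = ℒ * (w0.re - σ) + (-1 + -(ℒ * w0.re)) := by rw [hE2]; ring
            rw [e, Real.exp_add, Real.exp_add (-1)]
            ring
        _ ≤ Γ1 * Real.exp (ℒ * (w0.re - σ)) * (1 / 2) * Real.exp (-(ℒ * w0.re)) := by gcongr
        _ ≤ _ := by
            apply mul_le_mul_of_nonneg_right _ (Real.exp_pos _).le
            linarith)
  refine ⟨S.image (fun y => τ + y), ?_, ?_⟩
  · intro y hy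
    rw [Finset.mem_image] at hy
    obtain ⟨x, hx, rfl⟩ := hy
    obtain ⟨h1, h2, h3⟩ := hS1 x hx
    refine ⟨by linarith, by linarith, ?_⟩
    have h4 := split k G hfe ((x : ℂ) * I)
    have e1 : -conj ((x : ℂ) * I) = (x : ℂ) * I := by
      rw [map_mul, conj_ofReal, conj_I]
      ring
    have e2 : (τ : ℂ) * I + (x : ℂ) * I = ((τ + x : ℝ) : ℂ) * I := by push_cast; ring
    rw [e1, e2, Complex.add_conj] at h4
    have h5 : nf (AA (LL g 0) τ lam) ℒ Γ1 ((x : ℂ) * I) * cexp ((ℒ : ℂ) * ((x : ℂ) * I)) =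
        ((1 / Γ1 : ℝ) : ℂ) * AA (LL g 0) τ lam ((x : ℂ) * I) := by
      unfold nf
      have : cexp (-(ℒ : ℂ) * ((x : ℂ) * I)) * cexp ((ℒ : ℂ) * ((x : ℂ) * I)) = 1 := by
        rw [← Complex.exp_add]
        have : -(ℒ : ℂ) * ((x : ℂ) * I) + (ℒ : ℂ) * ((x : ℂ) * I) = 0 := by ring
        rw [this, Complex.exp_zero]
      linear_combination (((1 / Γ1 : ℝ) : ℂ) * AA (LL g 0) τ lam ((x : ℂ) * I)) * this
    rw [h5, re_ofReal_mul] at h3
    have h6 : (AA (LL g 0) τ lam ((x : ℂ) * I)).re = 0 := by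
      rcases mul_eq_zero.mp h3 with h7 | h7
      · exact absurd h7 (by positivity)
      · exact h7
    rw [h4, h6]
    simp
  · rw [Finset.card_image_of_injective _ (add_right_injective τ)]
    refine le_trans ?_ hS2
    have h1 : 85 * r ^ 2 / δ1 ≤ ε * r * (85 / 1400) := by
      rw [div_le_iff₀ hδ1]
      nlinarith
    have h2 : 4 * (E1 + E2) + 3 ≤ ℒ * (ε * r) * (2 / 4) := by
      have h3 : μ / 2 + ε * r / 200 + 85 * r ^ 2 / δ1 + σ ≤ ε * r * (1 / 10) := by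
        rw [hσ]
        linarith
      have h4 : E1 + E2 ≤ ℒ * (ε * r * (1 / 10)) + 1 := by
        rw [hE1, hE2]
        have := mul_le_mul_of_nonneg_left h3 (by linarith : (0 : ℝ) ≤ ℒ)
        linarith
      linarith
    have h3 : ℒ * (ε * r) * (2 / 4) ≤ ε * (2 * ℒ * r / Real.pi) := by
      have h4 : ε * (2 * ℒ * r / Real.pi) = ℒ * (ε * r) * (2 / Real.pi) := by ring
      rw [h4]
      apply mul_le_mul_of_nonneg_left _ (by positivity)
      exact div_le_div_of_nonneg_left (by norm_num) hπ hπ4.le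
    linarith

end Pool.Agent.H466.LD
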