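import Pool.Agent.H466.LD.L11
import Pool.Graph.R_seed8.TH804.DL2

/-!
# Few zeros off the line
-/

set_option autoImplicit false

open Complex MeasureTheory Filter Topology Set Metric
open scoped ComplexConjugate

namespace Pool.Agent.H466.LD

open Pool.Agent.H466.HF

lemma order_shift {F : ℂ → ℂ} (hF : Differentiable ℂ F) (C : ℂ) {b : ℂ} (hb : b ≠ 0) (u : ℂ) :
    analyticOrderNatAt (fun z => F (C + z) * b) u = analyticOrderNatAt F (C + u) := by
  have hd : Differentiable ℂ fun z => F (C + z) := by fun_prop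
  have h1 : analyticOrderNatAt (fun z => F (C + z) * (fun _ : ℂ => b) z) u =
      analyticOrderNatAt (fun z => F (C + z)) u :=
    order_mul_ne (hd.analyticAt u) analyticAt_const hb
  have h2 : analyticOrderAt (F ∘ fun z => C + z) u = analyticOrderAt F (C + u) := by
    apply analyticOrderAt_comp_of_deriv_ne_zero
    · exact (by fun_prop : Differentiable ℂ fun z : ℂ => C + z).analyticAt u
    · rw [deriv_const_add, deriv_id'']
      exact one_ne_zero
  have h3 : analyticOrderNatAt (fun z => F (C + z)) u = analyticOrderNatAt F (C + u) := by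
    unfold analyticOrderNatAt
    have : (fun z => F (C + z)) = F ∘ fun z => C + z := rfl
    rw [this, h2]
  rw [← h3, ← h1]

/-- Jensen's formula as an inequality for all zeros in a disc -/
lemma jen_all {F : ℂ → ℂ} (hF : Differentiable ℂ F) {C : ℂ} {R B b ℒ : ℝ} (hR : 0 < R)
    (hb : 0 < b) (hℒ : 0 ≤ ℒ) (hup : ∀ z : ℂ, ‖z‖ ≤ R → ‖F (C + z)‖ ≤ B * Real.exp (ℒ * |z.re|))
    (hlow : b ≤ ‖F C‖) :
    ∃ Z : Finset ℂ, (∀ u, u ∈ Z ↔ ‖u - C‖ ≤ R ∧ F u = 0) ∧
      ∑ u ∈ Z, (analyticOrderNatAt F u : ℝ) * Real.log (R / ‖u - C‖) ≤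
        Real.log (B / b) + 2 * R / Real.pi * ℒ := by
  classical
  have hB : b ≤ B := by
    have h1 := hup 0 (by simpa using hR.le)
    simp only [add_zero, zero_re, abs_zero, mul_zero, Real.exp_zero, mul_one] at h1
    exact hlow.trans h1
  have hB0 : 0 < B := by linarith
  set g : ℂ → ℂ := fun z => F (C + z) * ((1 / b : ℝ) : ℂ) with hg
  have hbc : ((1 / b : ℝ) : ℂ) ≠ 0 := by
    have : (1 / b : ℝ) ≠ 0 := by positivity
    exact_mod_cast this
  have hgd : Differentiable ℂ g := by rw [hg]; fun_prop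
  have hgn : ∀ z, ‖g z‖ = ‖F (C + z)‖ / b := by
    intro z
    simp only [hg]
    rw [norm_mul, Complex.norm_real, Real.norm_of_nonneg (by positivity)]
    ring
  have hg0 : 1 ≤ ‖g 0‖ := by
    rw [hgn, le_div_iff₀ hb, add_zero]
    linarith
  have hg0' : g 0 ≠ 0 := by
    intro h
    rw [h, norm_zero] at hg0
    linarith
  obtain ⟨Z, hZ, hJ⟩ := Pool.Agent.TH804.DL.jensen g R hR (fun z _ => hgd.analyticAt z) hg0'
  have hJle := Pool.Agent.TH804.DL.JJ_le hgd hR (M := B / b) (τ := ℒ) (by rw [le_div_iff₀ hb]; linarith) hℒ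
    (fun z hz => by
      rw [hgn, div_mul_eq_mul_div]
      exact div_le_div_of_nonneg_right (hup z hz) hb.le)
  refine ⟨Z.image (fun z => C + z), fun u => ?_, ?_⟩
  · rw [Finset.mem_image]
    constructor
    · rintro ⟨z, hz, rfl⟩
      rw [hZ] at hz
      refine ⟨by rw [add_sub_cancel_left]; exact hz.1, ?_⟩
      have h1 := Pool.Agent.TH804.DL.order_zero_iff g z (hgd.analyticAt z) hz.2
      simp only [hg] at h1
      exact (mul_eq_zero.mp h1).resolve_right hbc
    · rintro ⟨h1, h2⟩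
      refine ⟨u - C, ?_, by ring⟩
      rw [hZ]
      refine ⟨h1, ?_⟩
      have h3 : g (u - C) = 0 := by
        simp only [hg]
        rw [add_sub_cancel, h2, zero_mul]
      have := Pool.Agent.TH804.DL.order_pos g hgd hg0' h3
      omega
  · rw [Finset.sum_image (fun a _ b _ h => add_left_cancel h)]
    have h1 : ∑ z ∈ Z, (analyticOrderNatAt F (C + z) : ℝ) * Real.log (R / ‖C + z - C‖) =
        ∑ z ∈ Z, (analyticOrderNatAt g z : ℝ) * Real.log (R / ‖z‖) := by
      refine Finset.sum_congr rfl fun z _ => ?_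
      rw [add_sub_cancel_left, hg, order_shift hF C hbc]
    rw [h1]
    have h2 : 0 ≤ Real.log ‖g 0‖ := Real.log_nonneg hg0
    have e : 2 * R / Real.pi * ℒ = ℒ * (2 * R / Real.pi) := by ring
    rw [e]
    linarith

/-- collecting the zeros of consecutive segments -/
lemma collect {Q : ℝ → Prop} {T r n s : ℝ} (w : ℝ → ℝ) (W : ℕ → ℝ) (N : ℕ)
    (hW : ∀ j < N, 0 ≤ W j) (h : ∀ j < N, ∃ S : Finset ℝ, (∀ y ∈ S, 2 * (j : ℝ) * r < s * (y - T) ∧
      s * (y - T) < 2 * ((j : ℝ) + 1) * r ∧ Q y) ∧ n ≤ (S.card : ℝ))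
    (hw : ∀ y, ∀ j < N, 2 * (j : ℝ) * r < s * (y - T) → s * (y - T) < 2 * ((j : ℝ) + 1) * r →
      W j ≤ w y) (hr : 0 < r) :
    ∃ L : Finset ℝ, (∀ y ∈ L, 0 < s * (y - T) ∧ s * (y - T) < 2 * (N : ℝ) * r ∧ Q y) ∧
      ∑ j ∈ Finset.range N, n * W j ≤ ∑ y ∈ L, w y := by
  classical
  induction N with
  | zero => exact ⟨∅, by simp, by simp⟩
  | succ N ih =>
    obtain ⟨L, hL1, hL2⟩ := ih (fun j hj => hW j (by omega)) (fun j hj => h j (by omega))
      (fun y j hj => hw y j (by omega))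
    obtain ⟨S, hS1, hS2⟩ := h N (by omega)
    have hdisj : Disjoint L S := by
      rw [Finset.disjoint_left]
      intro y h1 h2
      have h3 := (hL1 y h1).2.1
      have h4 := (hS1 y h2).1
      linarith
    refine ⟨L ∪ S, ?_, ?_⟩
    · intro y hy
      have hN : (0 : ℝ) ≤ N := Nat.cast_nonneg N
      push_cast
      rcases Finset.mem_union.mp hy with h1 | h1
      · obtain ⟨a, b, c⟩ := hL1 y h1
        exact ⟨a, by nlinarith, c⟩
      · obtain ⟨a, b, c⟩ := hS1 y h1
        exact ⟨lt_of_le_of_lt (by positivity) a, b, c⟩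
    · rw [Finset.sum_range_succ, Finset.sum_union hdisj]
      refine add_le_add hL2 ?_
      have h1 : ∑ _y ∈ S, W N ≤ ∑ y ∈ S, w y :=
        Finset.sum_le_sum fun y hy => hw y N (by omega) (hS1 y hy).1 (hS1 y hy).2.1
      rw [Finset.sum_const, nsmul_eq_mul] at h1
      exact (mul_le_mul_of_nonneg_right hS2 (hW N (by omega))).trans h1

lemma log_fact (n : ℕ) : ∑ j ∈ Finset.range n, Real.log ((j : ℝ) + 2) ≤
    ((n : ℝ) + 2) * Real.log ((n : ℝ) + 2) - ((n : ℝ) + 1) := by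
  induction n with
  | zero =>
    simp only [Finset.range_zero, Finset.sum_empty, Nat.cast_zero, zero_add]
    have := Real.log_two_gt_d9
    linarith
  | succ n ih =>
    rw [Finset.sum_range_succ]
    push_cast
    have hn : (0 : ℝ) ≤ n := Nat.cast_nonneg n
    have e : (n : ℝ) + 1 + 2 = n + 3 := by ring
    rw [e]
    have h1 : 1 / ((n : ℝ) + 3) ≤ Real.log ((n + 3) / (n + 2)) := by
      have h2 := Real.one_sub_inv_le_log_of_pos (x := ((n : ℝ) + 3) / (n + 2)) (by positivity)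
      refine le_trans (le_of_eq ?_) h2
      rw [inv_div]
      field_simp
      ring
    rw [Real.log_div (by positivity) (by positivity), div_le_iff₀ (by positivity)] at h1
    linarith

/-- the sum over the segments is nearly the integral -/
lemma seg_sum {ε : ℝ} (hε : 0 < ε) (N0 : ℕ) : ∃ N : ℕ, N0 ≤ N ∧ 1 ≤ N ∧
    (1 - ε) * ((N : ℝ) + 1) ≤ ∑ j ∈ Finset.range N, Real.log (((N : ℝ) + 1) / ((j : ℝ) + 2)) := by
  obtain ⟨N1, hN1⟩ := exists_nat_ge (36 / ε ^ 2)
  refine ⟨max (max N0 1) N1, (le_max_left _ _).trans (le_max_left _ _),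
    (le_max_right _ _).trans (le_max_left _ _), ?_⟩
  set N := max (max N0 1) N1 with hN
  have hNN : (N1 : ℝ) ≤ N := by exact_mod_cast le_max_right _ _
  have hN0 : (0 : ℝ) ≤ N := Nat.cast_nonneg N
  have h1 : ∑ j ∈ Finset.range N, Real.log (((N : ℝ) + 1) / ((j : ℝ) + 2)) =
      N * Real.log ((N : ℝ) + 1) - ∑ j ∈ Finset.range N, Real.log ((j : ℝ) + 2) := by
    have h2 : ∀ j ∈ Finset.range N, Real.log (((N : ℝ) + 1) / ((j : ℝ) + 2)) =
        Real.log ((N : ℝ) + 1) - Real.log ((j : ℝ) + 2) := fun j _ =>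
      Real.log_div (by positivity) (by positivity)
    rw [Finset.sum_congr rfl h2, Finset.sum_sub_distrib, Finset.sum_const,
      Finset.card_range, nsmul_eq_mul]
  rw [h1]
  have h2 := log_fact N
  have h3 : Real.log ((N : ℝ) + 2) ≤ Real.log ((N : ℝ) + 1) + 1 / ((N : ℝ) + 1) := by
    have h4 := Real.log_le_sub_one_of_pos (x := ((N : ℝ) + 2) / (N + 1)) (by positivity)
    rw [Real.log_div (by positivity) (by positivity)] at h4
    have h5 : ((N : ℝ) + 2) / (N + 1) - 1 = 1 / ((N : ℝ) + 1) := by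
      field_simp
      ring
    linarith
  have h4 : ((N : ℝ) + 2) * (1 / ((N : ℝ) + 1)) ≤ 2 := by
    rw [mul_one_div, div_le_iff₀ (by positivity)]
    linarith
  have h5 : ((N : ℝ) + 2) * Real.log ((N : ℝ) + 2) ≤ ((N : ℝ) + 2) * Real.log ((N : ℝ) + 1) + 2 := by
    have := mul_le_mul_of_nonneg_left h3 (by positivity : (0 : ℝ) ≤ N + 2)
    rw [mul_add] at this
    linarith
  have hq : 0 < Real.sqrt ((N : ℝ) + 1) := Real.sqrt_pos.mpr (by positivity)
  have hq2 : Real.sqrt ((N : ℝ) + 1) ^ 2 = N + 1 := Real.sq_sqrt (by positivity)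
  have h6 : Real.log ((N : ℝ) + 1) ≤ 2 * (Real.sqrt ((N : ℝ) + 1) - 1) := by
    have h7 := Real.log_le_sub_one_of_pos hq
    have h8 : Real.log ((N : ℝ) + 1) = 2 * Real.log (Real.sqrt ((N : ℝ) + 1)) := by
      rw [Real.log_sqrt (by positivity)]
      ring
    rw [h8]
    linarith
  have h9 : 6 ≤ ε * Real.sqrt ((N : ℝ) + 1) := by
    have h10 : 36 ≤ ε ^ 2 * (N + 1) := by
      have := hN1.trans hNN
      rw [div_le_iff₀ (by positivity)] at this
      nlinarith [sq_nonneg ε]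
    have h11 : 6 ^ 2 ≤ (ε * Real.sqrt ((N : ℝ) + 1)) ^ 2 := by
      rw [mul_pow, hq2]
      linarith
    exact (pow_le_pow_iff_left₀ (by norm_num) (by positivity) two_ne_zero).mp h11
  have h12 : 6 * Real.sqrt ((N : ℝ) + 1) ≤ ε * ((N : ℝ) + 1) := by
    calc 6 * Real.sqrt ((N : ℝ) + 1) ≤ (ε * Real.sqrt ((N : ℝ) + 1)) * Real.sqrt ((N : ℝ) + 1) := by
          gcongr
      _ = ε * Real.sqrt ((N : ℝ) + 1) ^ 2 := by ring
      _ = _ := by rw [hq2]
  nlinarith

end Pool.Agent.H466.LD
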