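import Pool.Agent.H466.LD.L12

/-!
# Few zeros off the line, main statement
-/

set_option autoImplicit false

open Complex MeasureTheory Filter Topology Set Metric
open scoped ComplexConjugate

namespace Pool.Agent.H466.LD

open Pool.Agent.H466.HF

lemma order_ge_one {F : ℂ → ℂ} (hF : Differentiable ℂ F) {C z : ℂ} (hC : F C ≠ 0) (hz : F z = 0) :
    1 ≤ analyticOrderNatAt F z := by
  have h1 : analyticOrderAt F z ≠ ⊤ := by
    intro h
    rw [analyticOrderAt_eq_top] at h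
    have h2 : AnalyticOnNhd ℂ F Set.univ := fun z _ => hF.analyticAt z
    exact hC (h2.eqOn_zero_of_preconnected_of_eventuallyEq_zero isPreconnected_univ
      (Set.mem_univ z) h (Set.mem_univ C))
  have h2 : analyticOrderAt F z ≠ 0 := by
    intro h
    exact ((hF.analyticAt z).analyticOrderAt_eq_zero.mp h) hz
  unfold analyticOrderNatAt
  rw [Nat.one_le_iff_ne_zero]
  intro h
  rw [ENat.toNat_eq_zero] at h
  rcases h with h | h
  · exact h2 h
  · exact h1 h

theorem few_off {K μ0 δ1 δ ε Y : ℝ} (hK : 1 ≤ K) (hμ0 : 0 ≤ μ0) (hδ1 : 0 < δ1) (hδ : δ1 ≤ δ)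
    (hε : 0 < ε) (hY : 0 ≤ Y) :
    ∃ μ : ℝ, 0 < μ ∧ ∃ W : ℝ, 0 < W ∧ ∃ ℒ0 : ℝ, 1 ≤ ℒ0 ∧
      ∀ {g : ℝ → ℂ} {A c : ℝ} {P : ℂ → ℂ} {T ℒ Γ0 lam : ℝ}, Kern g A c →
      Loc (LL g 0) P T ℒ Γ0 K μ0 → Near (LL g 0) T ℒ Γ0 K μ W →
      (∀ z : ℂ, LL g 0 (-conj z) = conj (LL g 0 z)) → ℒ0 ≤ ℒ → 0 < lam → δ1 ≤ 2 * lam * ℒ →
      2 * lam * ℒ ≤ δ →
      ∀ S : Finset ℂ, (∀ z ∈ S, LL g lam z = 0 ∧ |z.re| ≤ Y ∧ |z.im - T| ≤ Y) →
        ∑ z ∈ S, ((analyticOrderNatAt (LL g lam) z : ℝ) - if z.re = 0 then 1 else 0) ≤ ε * ℒ := by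
  classical
  have hπ := Real.pi_pos
  have hπ3 := Real.pi_gt_three
  set R : ℝ := 3 * (2 * Y + 1) with hR
  have hR3 : 3 ≤ R := by rw [hR]; linarith
  set ε' : ℝ := min 1 (ε / (8 * R)) with hε'
  have hε'0 : 0 < ε' := lt_min one_pos (by positivity)
  have hε'1 : ε' ≤ 1 := min_le_left _ _
  have hε'2 : ε' * (8 * R) ≤ ε := by
    rw [← le_div_iff₀ (by positivity)]
    exact min_le_right _ _
  obtain ⟨r0, hr0, hseg⟩ := seg_zeros (K := K) (μ0 := μ0) (δ1 := δ1) (δ := δ) (ε := ε') hK hμ0 hδ1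
    hδ hε'0 hε'1
  set r1 : ℝ := min r0 1 with hr1
  have hr10 : 0 < r1 := lt_min hr0 one_pos
  obtain ⟨N, hN0, hN1, hNs⟩ := seg_sum hε'0 ⌈R / (2 * r1)⌉₊
  have hNr : (0 : ℝ) < N + 1 := by positivity
  set r : ℝ := R / (2 * ((N : ℝ) + 1)) with hr
  have hr0' : 0 < r := by positivity
  have hrr : r ≤ r1 := by
    rw [hr, div_le_iff₀ (by positivity)]
    have h1 : R / (2 * r1) ≤ N := (Nat.le_ceil _).trans (by exact_mod_cast hN0)
    rw [div_le_iff₀ (by positivity)] at h1
    nlinarith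
  have hrr0 : r ≤ r0 := hrr.trans (min_le_left _ _)
  have hrr1 : r ≤ 1 := hrr.trans (min_le_right _ _)
  have hRr : R = 2 * ((N : ℝ) + 1) * r := by
    rw [hr]
    field_simp
  obtain ⟨μ, hμ, hμr, hseg2⟩ := hseg r hr0' hrr0
  obtain ⟨ℒ0, hℒ0, hseg3⟩ := hseg2 R (by linarith)
  refine ⟨μ / 2, by positivity, R + 2 * (5 + μ0), by positivity, ℒ0, hℒ0, ?_⟩
  intro g A c P T ℒ Γ0 lam k C Nr hfe hℒ hlam hl1 hl S hS
  obtain ⟨hFin, hτ⟩ := hseg3 k C Nr hfe hℒ hlam hl1 hl
  set Γ1 : ℝ := Γ0 * Real.exp (lam * ℒ ^ 2) with hΓ1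
  have hΓ1p : 0 < Γ1 := hFin.Γ1pos
  have hℒp : 1 ≤ ℒ := C.ℒ1
  have hFd : Differentiable ℂ (LL g lam) := k.differentiable lam
  obtain ⟨⟨w0, hw1, hw2, hw3, hw4⟩, -⟩ := hτ T (by rw [sub_self, abs_zero]; linarith)
  set cc : ℂ := (T : ℂ) * I + w0 with hcc
  have hccre : cc.re = w0.re := by simp [hcc]
  have hccim : cc.im = T + w0.im := by simp [hcc]
  have hw0re : 0 < w0.re := by linarith
  have hw0re1 : w0.re ≤ r := (re_le_norm w0).trans hw3
  -- Jensen
  obtain ⟨Z, hZ, hJ⟩ := jen_all hFd (C := cc) (R := R) (B := Γ1 * Real.exp (ℒ * (w0.re + μ)))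
    (b := Γ1 * Real.exp (ℒ * (w0.re - ε' * r))) (ℒ := ℒ) (by linarith) (by positivity)
    (by linarith)
    (by
      intro z hz
      have h1 : |z.re| ≤ R := (abs_re_le_norm z).trans hz
      have h2 : |z.im| ≤ R := (abs_im_le_norm z).trans hz
      have e1 : (cc + z).re = w0.re + z.re := by rw [add_re, hccre]
      have e2 : (cc + z).im - T = w0.im + z.im := by rw [add_im, hccim]; ring
      have h3 : |w0.re + z.re| ≤ w0.re + |z.re| := by
        refine (abs_add_le _ _).trans ?_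
        rw [abs_of_pos hw0re]
      have h4 := hFin.up (cc + z) (by
        rw [e1]
        linarith) (by
        rw [e2]
        refine (abs_add_le _ _).trans ?_
        linarith)
      refine h4.trans ?_
      rw [e1, mul_assoc Γ1, ← Real.exp_add]
      apply mul_le_mul_of_nonneg_left _ hΓ1p.le
      apply Real.exp_le_exp.mpr
      nlinarith)
    hw4
  have hlogBb : Real.log (Γ1 * Real.exp (ℒ * (w0.re + μ)) / (Γ1 * Real.exp (ℒ * (w0.re - ε' * r)))) =
      ℒ * (μ + ε' * r) := by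
    rw [mul_div_mul_left _ _ hΓ1p.ne', ← Real.exp_sub, Real.log_exp]
    ring
  rw [hlogBb] at hJ
  have hFcc : LL g lam cc ≠ 0 := by
    rw [← norm_pos_iff]
    exact lt_of_lt_of_le (by positivity) hw4
  -- weights
  set wt : ℂ → ℝ := fun z => Real.log (R / ‖z - cc‖) with hwt
  have hwt0 : ∀ z ∈ Z, 0 ≤ wt z := by
    intro z hz
    have h1 := ((hZ z).mp hz).1
    exact Pool.Agent.TH804.DL.log_div_nonneg h1
  have hline : ∀ s : ℝ, (s = 1 ∨ s = -1) → ∃ L : Finset ℝ, (∀ y ∈ L, 0 < s * (y - T) ∧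
      s * (y - T) < 2 * (N : ℝ) * r ∧ LL g lam ((y : ℂ) * I) = 0) ∧
      (1 - ε') * (2 * ℒ * r / Real.pi) * ((1 - ε') * ((N : ℝ) + 1)) ≤
        ∑ y ∈ L, wt ((y : ℂ) * I) := by
    intro s hs
    have hs2 : s * s = 1 := by rcases hs with h | h <;> rw [h] <;> norm_num
    have habs : |s| = 1 := by rcases hs with h | h <;> rw [h] <;> simp
    obtain ⟨L, hL1, hL2⟩ := collect (Q := fun y => LL g lam ((y : ℂ) * I) = 0) (T := T) (r := r)
      (n := (1 - ε') * (2 * ℒ * r / Real.pi)) (s := s) (fun y => wt ((y : ℂ) * I))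
      (fun j => Real.log (((N : ℝ) + 1) / ((j : ℝ) + 2))) N
      (by
        intro j hj
        apply Real.log_nonneg
        rw [one_le_div (by positivity)]
        have : (j : ℝ) + 1 ≤ N := by exact_mod_cast hj
        linarith)
      (by
        intro j hj
        have hj' : (j : ℝ) + 1 ≤ N := by exact_mod_cast hj
        have hj0 : (0 : ℝ) ≤ j := Nat.cast_nonneg j
        have h1 : |T + s * ((2 * (j : ℝ) + 1) * r) - T| ≤ R := by
          rw [add_sub_cancel_left, abs_mul, habs, one_mul, abs_of_nonneg (by positivity), hRr]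
          nlinarith
        obtain ⟨-, S', hS1, hS2⟩ := hτ (T + s * ((2 * (j : ℝ) + 1) * r)) h1
        refine ⟨S', ?_, hS2⟩
        intro y hy
        obtain ⟨b1, b2, b3⟩ := hS1 y hy
        refine ⟨?_, ?_, b3⟩
        · rcases hs with h | h
          · rw [h] at b1 ⊢
            linarith
          · rw [h] at b2 ⊢
            linarith
        · rcases hs with h | h
          · rw [h] at b2 ⊢
            linarith
          · rw [h] at b1 ⊢
            linarith)
      (by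
        intro y j hj h1 h2
        simp only [hwt]
        have hj0 : (0 : ℝ) ≤ j := Nat.cast_nonneg j
        have e : (y : ℂ) * I - cc = ((y - T : ℝ) : ℂ) * I - w0 := by
          rw [hcc]; push_cast; ring
        have h3 : |y - T| = s * (y - T) := by
          have : 0 < s * (y - T) := lt_of_le_of_lt (by positivity) h1
          rw [← abs_of_pos this, abs_mul, habs, one_mul]
        have h4 : ‖(y : ℂ) * I - cc‖ ≤ 2 * ((j : ℝ) + 2) * r := by
          rw [e]
          refine (norm_sub_le _ _).trans ?_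
          rw [norm_mul, Complex.norm_I, mul_one, Complex.norm_real, Real.norm_eq_abs, h3]
          linarith
        have h5 : 0 < ‖(y : ℂ) * I - cc‖ := by
          have h6 := abs_re_le_norm ((y : ℂ) * I - cc)
          have h7 : ((y : ℂ) * I - cc).re = -w0.re := by simp [hccre]
          rw [h7, abs_neg, abs_of_pos hw0re] at h6
          linarith
        apply Real.log_le_log (by positivity)
        calc ((N : ℝ) + 1) / ((j : ℝ) + 2) = R / (2 * ((j : ℝ) + 2) * r) := by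
              rw [hRr]
              field_simp
          _ ≤ R / ‖(y : ℂ) * I - cc‖ :=
              div_le_div_of_nonneg_left (by linarith) h5 h4)
      hr0'
    refine ⟨L, hL1, le_trans ?_ hL2⟩
    rw [← Finset.mul_sum]
    apply mul_le_mul_of_nonneg_left hNs
    have : 0 ≤ 1 - ε' := by linarith
    positivity
  obtain ⟨L1, hL11, hL12⟩ := hline 1 (Or.inl rfl)
  obtain ⟨L2, hL21, hL22⟩ := hline (-1) (Or.inr rfl)
  have hdisj : Disjoint L1 L2 := by
    rw [Finset.disjoint_left]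
    intro y h1 h2
    have h3 := (hL11 y h1).1
    have h4 := (hL21 y h2).1
    linarith
  set L := (L1 ∪ L2).image (fun y : ℝ => (y : ℂ) * I) with hL
  have hLsum : 2 * ((1 - ε') * (2 * ℒ * r / Real.pi) * ((1 - ε') * ((N : ℝ) + 1))) ≤
      ∑ z ∈ L, wt z := by
    rw [hL, Finset.sum_image (fun a _ b _ h => by
      have h2 := mul_right_cancel₀ I_ne_zero h
      exact_mod_cast h2), Finset.sum_union hdisj]
    linarith
  have hLZ : L ⊆ Z.filter (fun z => z.re = 0) := by
    intro z hz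
    rw [hL, Finset.mem_image] at hz
    obtain ⟨y, hy, rfl⟩ := hz
    rw [Finset.mem_filter, hZ]
    have h1 : |y - T| < 2 * (N : ℝ) * r ∧ LL g lam ((y : ℂ) * I) = 0 := by
      rcases Finset.mem_union.mp hy with h | h
      · obtain ⟨b1, b2, b3⟩ := hL11 y h
        rw [one_mul] at b1 b2
        exact ⟨by rw [abs_of_pos b1]; exact b2, b3⟩
      · obtain ⟨b1, b2, b3⟩ := hL21 y h
        refine ⟨?_, b3⟩
        rw [abs_of_neg (by linarith)]
        linarith
    refine ⟨⟨?_, h1.2⟩, by simp⟩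
    have e : (y : ℂ) * I - cc = ((y - T : ℝ) : ℂ) * I - w0 := by
      rw [hcc]; push_cast; ring
    rw [e]
    refine (norm_sub_le _ _).trans ?_
    rw [norm_mul, Complex.norm_I, mul_one, Complex.norm_real, Real.norm_eq_abs, hRr]
    linarith [h1.1]
  -- the final count
  have hord : ∀ z ∈ Z, 0 ≤ (analyticOrderNatAt (LL g lam) z : ℝ) - if z.re = 0 then 1 else 0 := by
    intro z hz
    have h1 := order_ge_one hFd hFcc ((hZ z).mp hz).2
    have h2 : (1 : ℝ) ≤ (analyticOrderNatAt (LL g lam) z : ℝ) := by exact_mod_cast h1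
    split_ifs <;> linarith
  have hSZ : S ⊆ Z := by
    intro z hz
    obtain ⟨h1, h2, h3⟩ := hS z hz
    rw [hZ]
    refine ⟨?_, h1⟩
    refine (Complex.norm_le_abs_re_add_abs_im _).trans ?_
    rw [sub_re, sub_im, hccre, hccim]
    have h4 : |z.re - w0.re| ≤ Y + r := by
      refine (abs_sub _ _).trans ?_
      rw [abs_of_pos hw0re]
      linarith
    have h5 : |z.im - (T + w0.im)| ≤ Y + r / 4 := by
      have : z.im - (T + w0.im) = (z.im - T) - w0.im := by ring
      rw [this]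
      refine (abs_sub _ _).trans ?_
      linarith
    rw [hR]
    linarith
  have hw1' : ∀ z ∈ S, 1 ≤ wt z := by
    intro z hz
    obtain ⟨h1, h2, h3⟩ := hS z hz
    have hpos : 0 < ‖z - cc‖ := by
      rw [norm_pos_iff, sub_ne_zero]
      rintro rfl
      exact hFcc h1
    have hle : ‖z - cc‖ ≤ R / 3 := by
      have h6 : ‖w0‖ ≤ 1 := hw3.trans hrr1
      have e : z - cc = ((z.re : ℂ) + ((z.im - T : ℝ) : ℂ) * I) - w0 := by
        rw [hcc]
        apply Complex.ext
        · simp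
        · simp
          ring
      rw [e]
      refine (norm_sub_le _ _).trans ?_
      have h7 : ‖(z.re : ℂ) + ((z.im - T : ℝ) : ℂ) * I‖ ≤ 2 * Y := by
        refine (norm_add_le _ _).trans ?_
        rw [norm_mul, Complex.norm_I, mul_one, Complex.norm_real, Complex.norm_real,
          Real.norm_eq_abs, Real.norm_eq_abs]
        linarith
      rw [hR]
      linarith
    have h8 : (3 : ℝ) ≤ R / ‖z - cc‖ := by
      rw [le_div_iff₀ hpos]
      linarith
    have h9 : Real.exp 1 ≤ 3 := by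
      have := Real.exp_one_lt_d9
      linarith
    have h10 := Real.log_le_log (Real.exp_pos 1) (h9.trans h8)
    rwa [Real.log_exp] at h10
  have hfin1 : ∑ z ∈ S, ((analyticOrderNatAt (LL g lam) z : ℝ) - if z.re = 0 then 1 else 0) ≤
      ∑ z ∈ S, ((analyticOrderNatAt (LL g lam) z : ℝ) - if z.re = 0 then 1 else 0) * wt z := by
    refine Finset.sum_le_sum fun z hz => ?_
    have h1 := hord z (hSZ hz)
    have h2 := hw1' z hz
    nlinarith
  have hfin2 : ∑ z ∈ S, ((analyticOrderNatAt (LL g lam) z : ℝ) - if z.re = 0 then 1 else 0) * wt z ≤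
      ∑ z ∈ Z, ((analyticOrderNatAt (LL g lam) z : ℝ) - if z.re = 0 then 1 else 0) * wt z :=
    Finset.sum_le_sum_of_subset_of_nonneg hSZ fun z hz _ => mul_nonneg (hord z hz) (hwt0 z hz)
  have hfin3 : ∑ z ∈ Z, ((analyticOrderNatAt (LL g lam) z : ℝ) - if z.re = 0 then 1 else 0) * wt z =
      ∑ z ∈ Z, (analyticOrderNatAt (LL g lam) z : ℝ) * wt z -
        ∑ z ∈ Z.filter (fun z => z.re = 0), wt z := by
    rw [Finset.sum_filter, ← Finset.sum_sub_distrib]
    refine Finset.sum_congr rfl fun z _ => ?_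
    split_ifs <;> ring
  have hfin4 : ∑ z ∈ L, wt z ≤ ∑ z ∈ Z.filter (fun z => z.re = 0), wt z :=
    Finset.sum_le_sum_of_subset_of_nonneg hLZ fun z hz _ =>
      hwt0 z (Finset.mem_filter.mp hz).1
  have hV : 2 * ((1 - ε') * (2 * ℒ * r / Real.pi) * ((1 - ε') * ((N : ℝ) + 1))) =
      (1 - ε') ^ 2 * (2 * R / Real.pi * ℒ) := by
    rw [hRr]
    ring
  rw [hV] at hLsum
  have hq : 0 ≤ 2 * R / Real.pi * ℒ := by positivity
  have hq2 : 2 * R / Real.pi * ℒ ≤ R * ℒ := by
    apply mul_le_mul_of_nonneg_right _ (by linarith)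
    rw [div_le_iff₀ hπ]
    nlinarith
  have hμ2 : ℒ * (μ + ε' * r) ≤ 2 * (ε' * (R * ℒ)) := by
    have h1 : r ≤ R := by linarith
    have h2 : ε' * r ≤ ε' * R := mul_le_mul_of_nonneg_left h1 hε'0.le
    have h3 : μ + ε' * r ≤ 2 * (ε' * R) := by linarith
    calc ℒ * (μ + ε' * r) ≤ ℒ * (2 * (ε' * R)) := mul_le_mul_of_nonneg_left h3 (by linarith)
      _ = _ := by ring
  have hfin5 : (1 - (1 - ε') ^ 2) * (2 * R / Real.pi * ℒ) ≤ 2 * (ε' * (R * ℒ)) := by
    have h1 : 1 - (1 - ε') ^ 2 ≤ 2 * ε' := by nlinarith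
    calc (1 - (1 - ε') ^ 2) * (2 * R / Real.pi * ℒ) ≤ (2 * ε') * (2 * R / Real.pi * ℒ) :=
          mul_le_mul_of_nonneg_right h1 hq
      _ ≤ (2 * ε') * (R * ℒ) := mul_le_mul_of_nonneg_left hq2 (by positivity)
      _ = _ := by ring
  have hfin6 : 4 * (ε' * (R * ℒ)) ≤ ε * ℒ := by
    have h1 : ε' * R ≤ ε / 8 := by linarith
    calc 4 * (ε' * (R * ℒ)) = (4 * (ε' * R)) * ℒ := by ring
      _ ≤ ε * ℒ := by
          apply mul_le_mul_of_nonneg_right _ (by linarith)
          linarith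
  have hJ' : ∑ z ∈ Z, (analyticOrderNatAt (LL g lam) z : ℝ) * wt z ≤
      ℒ * (μ + ε' * r) + 2 * R / Real.pi * ℒ := hJ
  linarith

end Pool.Agent.H466.LD
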