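import Pool.Agent.H466.LD.L13

/-!
# No zeros far to the right
-/

set_option autoImplicit false

open Complex MeasureTheory Filter Topology Set Metric
open scoped ComplexConjugate

namespace Pool.Agent.H466.LD

open Pool.Agent.H466.HF

/-- regularity of the logarithmic derivative to the right -/
structure Reg (P : ℂ → ℂ) (M Θ : ℝ) : Prop where
  M0 : 0 ≤ M
  lip : ∀ z w : ℂ, 3 / 2 ≤ z.re → 3 / 2 ≤ w.re → ‖P z - P w‖ ≤ M * ‖z - w‖
  im : ∀ z : ℂ, 3 / 2 ≤ z.re → |(P z).im| ≤ Θ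

lemma exp_neg_le_inv {y : ℝ} (hy : 0 < y) : Real.exp (-y) ≤ 1 / y := by
  rw [Real.exp_neg, inv_eq_one_div]
  apply one_div_le_one_div_of_le hy
  linarith [Real.add_one_le_exp y]

theorem no_far {K μ0 M Θ δ1 δ : ℝ} (hK : 1 ≤ K) (hμ0 : 0 ≤ μ0) (hM : 0 ≤ M) (hδ1 : 0 < δ1)
    (hδ : δ1 ≤ δ) :
    ∃ ℒ0 : ℝ, 1 ≤ ℒ0 ∧ ∀ {g : ℝ → ℂ} {A c : ℝ} {P : ℂ → ℂ} {T ℒ Γ0 lam : ℝ}, Kern g A c →
      Loc (LL g 0) P T ℒ Γ0 K μ0 → Reg P M Θ →
      (∀ z : ℂ, LL g 0 (-conj z) = conj (LL g 0 z)) → ℒ0 ≤ ℒ → 0 < lam → δ1 ≤ 2 * lam * ℒ →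
      2 * lam * ℒ ≤ δ → ∀ x : ℝ, 4 + μ0 ≤ x → LL g lam ((x : ℂ) + (T : ℂ) * I) ≠ 0 := by
  have hδ0 : 0 < δ := lt_of_lt_of_le hδ1 hδ
  -- constants
  set C1 : ℝ := 7 * K with hC1
  set C2 : ℝ := K * (5 + μ0) with hC2
  set C3 : ℝ := C1 + C2 * (μ0 + 5 / 2) with hC3
  have hC10 : 0 ≤ C1 := by rw [hC1]; linarith
  have hC20 : 0 ≤ C2 := by rw [hC2]; positivity
  have hC30 : 0 ≤ C3 := by rw [hC3]; positivity
  set ℒ0 : ℝ := 1 + 64 * M * δ + 4 * Θ ^ 2 * δ + 200 * δ + C2 + (100 + 2 * C3) + 2400 / δ1 with hℒ0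
  have p1 : 0 ≤ 64 * M * δ := by positivity
  have p2 : 0 ≤ 4 * Θ ^ 2 * δ := by positivity
  have p3 : 0 ≤ 200 * δ := by positivity
  have p4 : 0 ≤ 2400 / δ1 := by positivity
  refine ⟨ℒ0, by rw [hℒ0]; linarith, ?_⟩
  intro g A c P T ℒ Γ0 lam k C hReg hfe hℒ hlam hl1 hl x hx hz
  have q1 : 64 * M * δ ≤ ℒ := by linarith
  have q2 : 4 * Θ ^ 2 * δ ≤ ℒ := by linarith
  have q3 : 200 * δ ≤ ℒ := by linarith
  have q4 : C2 ≤ ℒ := by linarith
  have q5 : 100 + 2 * C3 ≤ ℒ := by linarith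
  have q6 : 2400 ≤ ℒ * δ1 := by
    have : 2400 / δ1 ≤ ℒ := by linarith
    rwa [div_le_iff₀ hδ1] at this
  have hℒp : 1 ≤ ℒ := C.ℒ1
  have hℒp' : 0 < ℒ := by linarith
  have hΓ := C.Γpos
  have r1 : 128 * (lam * M) ≤ 1 := by
    have h1 : 128 * (lam * M) * ℒ ≤ 1 * ℒ := by
      calc 128 * (lam * M) * ℒ = 64 * M * (2 * lam * ℒ) := by ring
        _ ≤ 64 * M * δ := by gcongr
        _ ≤ 1 * ℒ := by linarith
    exact le_of_mul_le_mul_right h1 hℒp'
  have r2 : lam * Θ ^ 2 ≤ 1 / 8 := by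
    have h1 : lam * Θ ^ 2 * ℒ ≤ 1 / 8 * ℒ := by
      calc lam * Θ ^ 2 * ℒ = 1 / 2 * Θ ^ 2 * (2 * lam * ℒ) := by ring
        _ ≤ 1 / 2 * Θ ^ 2 * δ := by gcongr
        _ ≤ 1 / 8 * ℒ := by linarith
    exact le_of_mul_le_mul_right h1 hℒp'
  have r3 : lam ≤ 1 / 400 := by
    have h1 : lam * ℒ ≤ 1 / 400 * ℒ := by
      calc lam * ℒ = 1 / 2 * (2 * lam * ℒ) := by ring
        _ ≤ 1 / 2 * δ := by gcongr
        _ ≤ 1 / 400 * ℒ := by linarith
    exact le_of_mul_le_mul_right h1 hℒp'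
  obtain ⟨v1, hv1⟩ : ∃ v1 : ℝ, v1 = 3 / 2 := ⟨_, rfl⟩
  set f : ℝ → ℂ := fun v => LL g 0 ((v : ℂ) + (T : ℂ) * I) with hf
  set Pt : ℝ → ℂ := fun v => P ((v : ℂ) + (T : ℂ) * I) with hPt
  set B1 : ℝ := Real.exp (ℒ * μ0 + C1) with hB1
  have hre : ∀ v : ℝ, ((v : ℂ) + (T : ℂ) * I).re = v := fun v => by simp
  have him : ∀ v : ℝ, ((v : ℂ) + (T : ℂ) * I).im = T := fun v => by simp
  have hline : ∀ v : ℝ, HasDerivAt (fun v : ℝ => (v : ℂ) + (T : ℂ) * I) 1 v := fun v => by
    have := (hasDerivAt_id v).ofReal_comp.add_const ((T : ℂ) * I)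
    simpa using this
  have hlow1 : Γ0 * Real.exp (ℒ * v1 - K * (1 + v1 ^ 2)) ≤ ‖f v1‖ := by
    have h1 := C.low ((v1 : ℂ) + (T : ℂ) * I) (by rw [hre]; linarith)
    rw [hre, him, sub_self] at h1
    refine le_trans (le_of_eq ?_) h1
    norm_num
  have hfder : ∀ v : ℝ, v1 ≤ v → HasDerivAt f (f v * Pt v) v := by
    intro v hv
    have h1 := (C.der ((v : ℂ) + (T : ℂ) * I) (by rw [hre]; linarith)).comp v (hline v)
    rw [mul_one] at h1
    exact h1
  have hCore : Core f Pt v1 M Θ B1 := by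
    refine ⟨?_, hfder, fun v w hv hw => ?_, fun v hv => ?_, fun v h0 h1 => ?_, ?_, by
      rw [hv1]; norm_num, hM, (Real.exp_pos _).le⟩
    · exact (k.differentiable 0).continuous.comp (by fun_prop)
    · have h1 := hReg.lip ((v : ℂ) + (T : ℂ) * I) ((w : ℂ) + (T : ℂ) * I) (by rw [hre]; linarith)
        (by rw [hre]; linarith)
      have e2 : (v : ℂ) + (T : ℂ) * I - ((w : ℂ) + (T : ℂ) * I) = ((v - w : ℝ) : ℂ) := by
        push_cast; ring
      rw [e2, Complex.norm_real, Real.norm_eq_abs] at h1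
      exact h1
    · exact hReg.im _ (by rw [hre]; linarith)
    · have h2 := C.up ((v : ℂ) + (T : ℂ) * I)
      rw [hre, him, sub_self, abs_of_nonneg h0] at h2
      refine h2.trans ?_
      calc Γ0 * Real.exp (ℒ * (v + μ0) + K * (1 + v ^ 2 + 0 ^ 2))
          ≤ Γ0 * Real.exp ((ℒ * μ0 + C1) + (ℒ * v1 - K * (1 + v1 ^ 2))) := by
            apply mul_le_mul_of_nonneg_left _ hΓ.le
            apply Real.exp_le_exp.mpr
            have h3 : ℒ * v ≤ ℒ * v1 := by gcongr
            have h4 : v ^ 2 ≤ v1 ^ 2 := pow_le_pow_left₀ h0 h1 2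
            have h5 : K * v ^ 2 ≤ K * v1 ^ 2 := mul_le_mul_of_nonneg_left h4 (by linarith)
            have h6 : v1 ^ 2 = 9 / 4 := by rw [hv1]; norm_num
            rw [h6] at h5 ⊢
            rw [hC1]
            nlinarith
        _ = B1 * (Γ0 * Real.exp (ℒ * v1 - K * (1 + v1 ^ 2))) := by
            rw [hB1, Real.exp_add]
            ring
        _ ≤ B1 * ‖f v1‖ := by gcongr
    · rw [← norm_pos_iff]
      exact lt_of_lt_of_le (by positivity) hlow1
  -- the real part of the logarithmic derivative near the left end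
  have hP1 : ∀ v : ℝ, v1 ≤ v → v ≤ 4 + μ0 → ℒ - C2 ≤ (Pt v).re := by
    intro v h1 h2
    have h3 := C.dP ((v : ℂ) + (T : ℂ) * I) (by rw [hre]; linarith)
    rw [hre, him, sub_self, abs_zero, add_zero] at h3
    have h4 := (abs_le.mp ((abs_re_le_norm _).trans h3)).1
    rw [sub_re, ofReal_re] at h4
    have h5 : K * (1 + v) ≤ C2 := by
      rw [hC2]
      apply mul_le_mul_of_nonneg_left _ (by linarith)
      linarith
    simp only [hPt]
    linarith
  have hPv1 : 0 ≤ (Pt v1).re := by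
    have := hP1 v1 le_rfl (by rw [hv1]; linarith)
    linarith
  -- the saddle point
  obtain ⟨v0, hv0, hv0e, hv0d⟩ := hCore.saddle (lam := lam) (x := x) hlam (by linarith) (by
    have : 0 ≤ 2 * lam * (Pt v1).re := by positivity
    linarith)
  have S : Sad Pt v1 lam x v0 := ⟨hv0, hv0e⟩
  have hgap : 1 ≤ v0 - v1 := by
    have h1 : 0 ≤ 2 * lam * (Pt v1).re := by positivity
    have h2 : 5 / 2 ≤ (v0 - v1) * (1 + 2 * (lam * M)) := by
      refine le_trans ?_ hv0d
      linarith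
    have h3 : lam * M ≤ 1 / 128 := by linarith
    have h4 : 0 < v0 - v1 := by linarith
    nlinarith
  set Aa := ‖jj f lam x v0‖ with hAa
  set s := Real.sqrt (Real.pi * (4 * lam)) with hs
  have hs0 : 0 < s := sqrt_pos' hlam
  have hfne : ∀ v : ℝ, v1 ≤ v → f v ≠ 0 := by
    intro v hv
    obtain ⟨R, -, hR⟩ := hCore.rep le_rfl hv
    rw [hR]
    exact mul_ne_zero hCore.ne (Complex.exp_ne_zero _)
  have hA0 : 0 < Aa := by
    rw [hAa, norm_jj]
    exact mul_pos (norm_pos_iff.mpr (hfne v0 hv0.le)) (wt_pos _ _ _)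
  have hs16 : Real.sqrt (Real.pi * (16 * lam)) = 2 * s := by
    rw [hs, show Real.pi * (16 * lam) = 2 ^ 2 * (Real.pi * (4 * lam)) by ring,
      Real.sqrt_mul (by norm_num), Real.sqrt_sq (by norm_num)]
  have hs8 : Real.sqrt (Real.pi * (8 * lam)) ≤ 2 * s := by
    rw [← hs16]
    apply Real.sqrt_le_sqrt
    have := Real.pi_pos
    have : 0 < Real.pi * lam := by positivity
    linarith
  -- main term
  have hmain := hCore.main hlam r1 S (by rw [hv1]; norm_num)
  have hmain2 : Aa * (s / 2) ≤ ‖∫ v in Ioi v1, jj f lam x v‖ := by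
    refine le_trans (mul_le_mul_of_nonneg_left ?_ hA0.le) hmain
    have h1 : 7 / 8 ≤ Real.exp (-(lam * (Pt v0).im ^ 2)) := by
      have h2 : (Pt v0).im ^ 2 ≤ Θ ^ 2 := by
        rw [← sq_abs (Pt v0).im]
        exact pow_le_pow_left₀ (abs_nonneg _) (hCore.im v0 hv0.le) 2
      have h3 : lam * (Pt v0).im ^ 2 ≤ 1 / 8 := (mul_le_mul_of_nonneg_left h2 hlam.le).trans r2
      linarith [Real.add_one_le_exp (-(lam * (Pt v0).im ^ 2))]
    have h2 : Real.exp (-((v0 - v1) ^ 2 / (8 * lam))) ≤ 1 / 50 := by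
      have h3 : (50 : ℝ) ≤ (v0 - v1) ^ 2 / (8 * lam) := by
        rw [le_div_iff₀ (by positivity)]
        nlinarith
      have h4 := exp_neg_le_inv (y := (v0 - v1) ^ 2 / (8 * lam)) (by linarith)
      refine h4.trans ?_
      exact one_div_le_one_div_of_le (by norm_num) h3
    rw [← hs, hs16]
    have h3 : Real.exp (-((v0 - v1) ^ 2 / (8 * lam))) * Real.sqrt (Real.pi * (8 * lam)) ≤
        1 / 50 * (2 * s) := by gcongr
    have h4 : 16 * (lam * M) * (2 * s) ≤ s / 4 := by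
      have h5 : 128 * (lam * M) * s ≤ 1 * s := mul_le_mul_of_nonneg_right r1 hs0.le
      linarith
    have h5 : s * (7 / 8) ≤ s * Real.exp (-(lam * (Pt v0).im ^ 2)) := by gcongr
    linarith
  -- monotonicity of the weight
  have hwt : ∀ v u : ℝ, v ≤ u → u ≤ x → wt lam x v ≤ wt lam x u := by
    intro v u h1 h2
    unfold wt
    apply Real.exp_le_exp.mpr
    have e1 : -v ^ 2 / (4 * lam) + x * v / (2 * lam) = (-v ^ 2 + 2 * x * v) / (4 * lam) := by
      field_simp
      ring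
    have e2 : -u ^ 2 / (4 * lam) + x * u / (2 * lam) = (-u ^ 2 + 2 * x * u) / (4 * lam) := by
      field_simp
      ring
    rw [e1, e2]
    apply div_le_div_of_nonneg_right _ (by positivity)
    nlinarith
  -- the value at `v1`
  have hjv1 : ‖jj f lam x v1‖ ≤ Aa * Real.exp (-((ℒ - C2) * (μ0 + 5 / 2))) := by
    set x' : ℝ := 4 + μ0 with hx'
    have hx1 : v1 ≤ x' := by rw [hv1, hx']; linarith
    have h1 : ‖jj f lam x x'‖ ≤ Aa := by
      have h2 := norm_jj_le hCore hlam r1 S (u := x' - v0) (by linarith)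
      rw [add_sub_cancel] at h2
      refine h2.trans ?_
      have h3 : ga (8 * lam) (x' - v0) ≤ 1 := by
        unfold ga
        rw [Real.exp_le_one_iff, neg_div]
        have : 0 ≤ (x' - v0) ^ 2 / (8 * lam) := by positivity
        linarith
      calc Aa * ga (8 * lam) (x' - v0) ≤ Aa * 1 := by gcongr
        _ = Aa := mul_one _
    -- growth from `v1` to `x'`
    have h2 : ‖f v1‖ ≤ ‖f x'‖ * Real.exp (-((ℒ - C2) * (x' - v1))) := by
      -- use the derivative of the logarithm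
      have hder2 : ∀ u : ℝ, v1 ≤ u → HasDerivAt (fun u => Real.log (‖f u‖ ^ 2)) (2 * (Pt u).re) u := by
        intro u hu
        have hpos : 0 < ‖f u‖ ^ 2 := by
          have := norm_pos_iff.mpr (hfne u hu)
          positivity
        have h3 := ((hfder u hu).norm_sq).log hpos.ne'
        refine h3.congr_deriv ?_
        have e : inner ℝ (f u) (f u * Pt u) = ‖f u‖ ^ 2 * (Pt u).re := by
          rw [Complex.inner]
          have : f u * Pt u * conj (f u) = ((‖f u‖ ^ 2 : ℝ) : ℂ) * Pt u := by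
            push_cast
            rw [← Complex.conj_mul']
            ring
          rw [this, re_ofReal_mul]
        rw [e]
        rw [div_eq_iff hpos.ne']
        ring
      have hmono : MonotoneOn (fun u => Real.log (‖f u‖ ^ 2) - 2 * (ℒ - C2) * u) (Icc v1 x') := by
        apply monotoneOn_of_deriv_nonneg (convex_Icc _ _)
        · intro u hu
          exact (((hder2 u hu.1).sub ((hasDerivAt_id' u).const_mul (2 * (ℒ - C2)))).continuousAt).continuousWithinAt
        · intro u hu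
          rw [interior_Icc] at hu
          exact (((hder2 u hu.1.le).sub ((hasDerivAt_id' u).const_mul (2 * (ℒ - C2)))).differentiableAt).differentiableWithinAt
        · intro u hu
          rw [interior_Icc] at hu
          have h3 : HasDerivAt (fun u => Real.log (‖f u‖ ^ 2) - 2 * (ℒ - C2) * u)
              (2 * (Pt u).re - 2 * (ℒ - C2) * 1) u :=
            (hder2 u hu.1.le).sub ((hasDerivAt_id' u).const_mul (2 * (ℒ - C2)))
          rw [h3.deriv]
          have := hP1 u hu.1.le hu.2.le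
          linarith
      have h3 := hmono ⟨le_rfl, hx1⟩ ⟨hx1, le_rfl⟩ hx1
      simp only at h3
      have hp1 : 0 < ‖f v1‖ := norm_pos_iff.mpr (hfne v1 le_rfl)
      have hp2 : 0 < ‖f x'‖ := norm_pos_iff.mpr (hfne x' hx1)
      have h4 : Real.log ‖f v1‖ ≤ Real.log ‖f x'‖ + -((ℒ - C2) * (x' - v1)) := by
        have e1 : Real.log (‖f v1‖ ^ 2) = 2 * Real.log ‖f v1‖ := by
          rw [Real.log_pow]; push_cast; ring
        have e2 : Real.log (‖f x'‖ ^ 2) = 2 * Real.log ‖f x'‖ := by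
          rw [Real.log_pow]; push_cast; ring
        rw [e1, e2] at h3
        linarith
      have h5 := Real.exp_le_exp.mpr h4
      rwa [Real.exp_log hp1, Real.exp_add, Real.exp_log hp2] at h5
    have h3 : x' - v1 = μ0 + 5 / 2 := by rw [hx', hv1]; ring
    rw [h3] at h2
    rw [norm_jj]
    calc ‖f v1‖ * wt lam x v1
        ≤ (‖f x'‖ * Real.exp (-((ℒ - C2) * (μ0 + 5 / 2)))) * wt lam x x' := by
          apply mul_le_mul h2 (hwt v1 x' hx1 hx) (wt_pos _ _ _).le (by positivity)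
      _ = ‖jj f lam x x'‖ * Real.exp (-((ℒ - C2) * (μ0 + 5 / 2))) := by
          rw [norm_jj]
          ring
      _ ≤ _ := by gcongr
  have hs_low : 1200 / ℒ ^ 2 ≤ s ^ 2 := by
    have h1 : s ^ 2 = Real.pi * (4 * lam) := Real.sq_sqrt (by have := Real.pi_pos; positivity)
    rw [h1, div_le_iff₀ (by positivity)]
    have h2 : 3 * (4 * lam) * ℒ ^ 2 ≤ Real.pi * (4 * lam) * ℒ ^ 2 := by
      have := Real.pi_gt_three
      gcongr
    have h3 : 1200 ≤ 3 * (4 * lam) * ℒ ^ 2 := by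
      have e : 3 * (4 * lam) * ℒ ^ 2 = 6 * ((2 * lam * ℒ) * ℒ) := by ring
      rw [e]
      have h4 : δ1 * ℒ ≤ (2 * lam * ℒ) * ℒ := mul_le_mul_of_nonneg_right hl1 hℒp'.le
      linarith
    linarith
  have hsL : 1 / ℒ ≤ s := by
    have h1 : (1 / ℒ) ^ 2 ≤ s ^ 2 := by
      refine le_trans ?_ hs_low
      rw [div_pow, one_pow]
      apply div_le_div_of_nonneg_right (by norm_num) (by positivity)
    exact (pow_le_pow_iff_left₀ (by positivity) hs0.le two_ne_zero).mp h1
  have hleft : ∀ y : ℝ, y ≤ x → -x ≤ y → ∫ v in Ioc 0 v1, ‖jj f lam y v‖ ≤ Aa * (s / 16) := by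
    intro y hy _
    have hpt : ∀ v ∈ Ioc 0 v1, ‖jj f lam y v‖ ≤ Aa * (s / 32) := by
      intro v hv
      have hx15 : v1 ≤ x := by rw [hv1]; linarith
      have hwy : wt lam y v ≤ wt lam x v := by
        unfold wt
        apply Real.exp_le_exp.mpr
        have : y * v / (2 * lam) ≤ x * v / (2 * lam) := by
          apply div_le_div_of_nonneg_right _ (by positivity)
          exact mul_le_mul_of_nonneg_right hy hv.1.le
        linarith
      rw [norm_jj]
      have h1 := hCore.left v hv.1.le hv.2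
      calc ‖f v‖ * wt lam y v ≤ (B1 * ‖f v1‖) * wt lam x v1 := by
            apply mul_le_mul h1 (hwy.trans (hwt v v1 hv.2 hx15)) (wt_pos _ _ _).le (by positivity)
        _ = B1 * ‖jj f lam x v1‖ := by rw [norm_jj]; ring
        _ ≤ B1 * (Aa * Real.exp (-((ℒ - C2) * (μ0 + 5 / 2)))) := by gcongr
        _ = Aa * Real.exp (ℒ * μ0 + C1 + -((ℒ - C2) * (μ0 + 5 / 2))) := by
            rw [hB1, Real.exp_add (ℒ * μ0 + C1)]
            ring
        _ ≤ Aa * Real.exp (-(2 * ℒ)) := by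
            apply mul_le_mul_of_nonneg_left _ hA0.le
            apply Real.exp_le_exp.mpr
            have : C1 + C2 * (μ0 + 5 / 2) = C3 := by rw [hC3]
            nlinarith
        _ ≤ Aa * (s / 32) := by
            apply mul_le_mul_of_nonneg_left _ hA0.le
            have h2 : Real.exp (-(2 * ℒ)) = Real.exp (-ℒ) * Real.exp (-ℒ) := by
              rw [← Real.exp_add]; congr 1; ring
            have h3 : Real.exp (-ℒ) ≤ 1 / ℒ := exp_neg_le_inv hℒp'
            have h4 : Real.exp (-ℒ) ≤ 1 / 32 := by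
              refine h3.trans ?_
              apply one_div_le_one_div_of_le (by norm_num)
              linarith
            rw [h2]
            calc Real.exp (-ℒ) * Real.exp (-ℒ) ≤ (1 / ℒ) * (1 / 32) := by gcongr
              _ ≤ s * (1 / 32) := by gcongr
              _ = _ := by ring
    have hint : IntegrableOn (fun v => ‖jj f lam y v‖) (Ioc 0 v1) :=
      ((hCore.integrable hlam r1 y).mono_set Ioc_subset_Ioi_self).norm
    have h1 : ∫ v in Ioc 0 v1, ‖jj f lam y v‖ ≤ ∫ _v in Ioc 0 v1, Aa * (s / 32) :=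
      setIntegral_mono_on hint (integrableOn_const (by simp) enorm_ne_top) measurableSet_Ioc hpt
    refine h1.trans ?_
    rw [setIntegral_const, smul_eq_mul, measureReal_def, Real.volume_Ioc, sub_zero,
      ENNReal.toReal_ofReal (by rw [hv1]; norm_num), hv1]
    have : 0 ≤ Aa * s := by positivity
    linarith
  have hsplit : ∀ y : ℝ, JJ f lam y = (∫ v in Ioc 0 v1, jj f lam y v) + ∫ v in Ioi v1, jj f lam y v := by
    intro y
    unfold JJ
    have h := hCore.integrable hlam r1 y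
    have e : Ioi (0 : ℝ) = Ioc 0 v1 ∪ Ioi v1 := (Ioc_union_Ioi_eq_Ioi hCore.pos.le).symm
    rw [e, setIntegral_union Ioc_disjoint_Ioi_same measurableSet_Ioi
      (h.mono_set Ioc_subset_Ioi_self) (h.mono_set (Ioi_subset_Ioi hCore.pos.le))]
  have hJ1 : Aa * (s * (7 / 16)) ≤ ‖JJ f lam x‖ := by
    rw [hsplit x]
    have h1 : ‖∫ v in Ioc 0 v1, jj f lam x v‖ ≤ Aa * (s / 16) :=
      (norm_integral_le_integral_norm _).trans (hleft x le_rfl (by linarith))
    have h2 := norm_sub_norm_le (∫ v in Ioi v1, jj f lam x v) (-∫ v in Ioc 0 v1, jj f lam x v)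
    rw [norm_neg, sub_neg_eq_add, add_comm (∫ v in Ioi v1, jj f lam x v)] at h2
    linarith
  have hJ2 : ‖JJ f lam (-x)‖ ≤ Aa * (s * (3 / 16)) := by
    rw [hsplit (-x)]
    have h1 : ‖∫ v in Ioc 0 v1, jj f lam (-x) v‖ ≤ Aa * (s / 16) :=
      (norm_integral_le_integral_norm _).trans (hleft (-x) (by linarith) le_rfl)
    have h2 : ∫ v in Ioi v1, ‖jj f lam (-x) v‖ ≤ Real.exp (-(x * v1 / lam)) *
        ∫ v in Ioi v1, ‖jj f lam x v‖ := by
      rw [← integral_const_mul]
      refine setIntegral_mono_on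
        ((hCore.integrable hlam r1 (-x)).mono_set (Ioi_subset_Ioi hCore.pos.le)).norm
        (((hCore.integrable hlam r1 x).mono_set (Ioi_subset_Ioi hCore.pos.le)).norm.const_mul _)
        measurableSet_Ioi fun v hv => ?_
      have hv' : v1 < v := hv
      have e : ‖jj f lam (-x) v‖ = ‖jj f lam x v‖ * Real.exp (-(x * v / lam)) := by
        rw [norm_jj, norm_jj, mul_assoc]
        congr 1
        unfold wt
        rw [← Real.exp_add]
        congr 1
        field_simp
        ring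
      rw [e, mul_comm]
      refine mul_le_mul_of_nonneg_right (Real.exp_le_exp.mpr ?_) (norm_nonneg _)
      rw [neg_le_neg_iff]
      apply div_le_div_of_nonneg_right _ hlam.le
      exact mul_le_mul_of_nonneg_left hv'.le (by linarith)
    have h3 := hCore.upper hlam r1 S (by rw [hv1]; norm_num)
    have h4 : Real.exp (-(x * v1 / lam)) ≤ 1 / 16 := by
      have h5 : (16 : ℝ) ≤ x * v1 / lam := by
        rw [le_div_iff₀ hlam, hv1]
        nlinarith
      refine (exp_neg_le_inv (by linarith)).trans ?_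
      exact one_div_le_one_div_of_le (by norm_num) h5
    have h5 : ∫ v in Ioi v1, ‖jj f lam (-x) v‖ ≤ 1 / 16 * (Aa * (2 * s)) := by
      refine h2.trans ?_
      refine mul_le_mul h4 (h3.trans ?_) (integral_nonneg fun _ => norm_nonneg _) (by norm_num)
      gcongr
    refine (norm_add_le _ _).trans ?_
    have h6 := (norm_integral_le_integral_norm _).trans h5
    linarith
  -- the vanishing
  have h0 : ∫ v, jj f lam x v = 0 := by
    have h1 := tilt2 k hlam T (x : ℂ)
    rw [add_comm, hz, mul_zero] at h1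
    have h2 : ∀ v : ℝ, jj f lam x v = ((Real.exp (x ^ 2 / (4 * lam)) : ℝ) : ℂ) *
        (LL g 0 ((v : ℂ) + (T : ℂ) * I) * cexp (-((v : ℂ) - x) ^ 2 / (4 * lam))) := by
      intro v
      unfold jj wt
      simp only [hf]
      have e : cexp (-((v : ℂ) - x) ^ 2 / (4 * lam)) =
          ((Real.exp (-(v - x) ^ 2 / (4 * lam)) : ℝ) : ℂ) := by
        push_cast
        rfl
      rw [e, mul_left_comm, ← ofReal_mul, ← Real.exp_add]
      congr 3
      field_simp
      ring
    simp_rw [h2]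
    rw [integral_const_mul]
    have h3 : ∫ v : ℝ, LL g 0 ((v : ℂ) + (T : ℂ) * I) * cexp (-((v : ℂ) - x) ^ 2 / (4 * lam)) = 0 :=
      h1
    rw [h3, mul_zero]
  have hff : ∀ v, f (-v) = 1 * conj (f v) := by
    intro v
    simp only [hf, one_mul]
    rw [← hfe]
    congr 1
    simp only [map_add, map_mul, conj_ofReal, conj_I]
    push_cast
    ring
  rw [two_sided hCore hlam r1 hff] at h0
  have h1 : ‖JJ f lam x‖ = ‖JJ f lam (-x)‖ := by
    rw [eq_neg_of_add_eq_zero_left h0, norm_neg, one_mul, RCLike.norm_conj]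
  have h2 : 0 < Aa * s := by positivity
  linarith

end Pool.Agent.H466.LD
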