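import Pool.Agent.H466.LD.L14
import Pool.Agent.H466.TH.A9

/-!
# Local data from a gamma factor and an L-function
-/

set_option autoImplicit false

open Complex MeasureTheory Filter Topology Set Metric
open scoped ComplexConjugate

namespace Pool.Agent.H466.LD

open Pool.Agent.H466.HF

/-- global data: `F = γ Q` with `Q` of size `exp (± b)` for `Re z ≥ 1` and of polynomial growth for
`Re z ≥ 0` -/
structure Gd (F γ D : ℂ → ℂ) (C b B C2 C3 : ℝ) : Prop where
  G : GamW C γ D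
  diff : Differentiable ℂ F
  b0 : 0 < b
  B0 : 0 ≤ B
  C20 : 1 ≤ C2
  lo : ∀ z : ℂ, 1 ≤ z.re → Real.exp (-b) * ‖γ z‖ ≤ ‖F z‖
  hi : ∀ z : ℂ, 1 ≤ z.re → ‖F z‖ ≤ Real.exp b * ‖γ z‖
  up : ∀ z : ℂ, 0 ≤ z.re → ‖F z‖ ≤ C2 * (1 + |z.im|) ^ B * ‖γ z‖
  sym : ∀ z : ℂ, ‖F (-conj z)‖ = ‖F z‖
  L : ∀ T : ℝ, 1 ≤ T → |(D ((T : ℂ) * I)).re - Real.log T / 2| ≤ C3

variable {F γ D : ℂ → ℂ} {C b B C2 C3 : ℝ}

namespace Gd

lemma qdiff (H : Gd F γ D C b B C2 C3) {z : ℂ} (hz : 0 ≤ z.re) : DifferentiableAt ℂ (quo F γ) z :=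
  (H.diff z).div (H.G.der z hz).differentiableAt (H.G.ne z hz)

lemma qbounds (H : Gd F γ D C b B C2 C3) {z : ℂ} (hz : 3 / 2 ≤ z.re) :
    DifferentiableOn ℂ (quo F γ) (ball z (1 / 2)) ∧
    (∀ w ∈ ball z (1 / 2), Real.exp (-b) ≤ ‖quo F γ w‖) ∧
    (∀ w ∈ ball z (1 / 2), ‖quo F γ w‖ ≤ Real.exp b) := by
  have hw : ∀ w ∈ ball z (1 / 2), 1 ≤ w.re := by
    intro w hw
    rw [mem_ball, dist_eq_norm] at hw
    have h1 := (abs_le.mp ((Complex.abs_re_le_norm (w - z)).trans hw.le)).1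
    rw [sub_re] at h1
    linarith
  refine ⟨fun w h => ?_, fun w h => ?_, fun w h => ?_⟩
  · exact (H.qdiff (by linarith [hw w h])).differentiableWithinAt
  · have h1 := H.lo w (hw w h)
    have h2 : 0 < ‖γ w‖ := norm_pos_iff.mpr (H.G.ne w (by linarith [hw w h]))
    unfold quo
    rw [norm_div, le_div_iff₀ h2]
    exact h1
  · have h1 := H.hi w (hw w h)
    have h2 : 0 < ‖γ w‖ := norm_pos_iff.mpr (H.G.ne w (by linarith [hw w h]))
    unfold quo
    rw [norm_div, div_le_iff₀ h2]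
    exact h1

lemma lqb (H : Gd F γ D C b B C2 C3) {z : ℂ} (hz : 3 / 2 ≤ z.re) :
    ‖lq F γ z‖ ≤ 32 * b ∧ ‖deriv (lq F γ) z‖ ≤ 1024 * b := by
  obtain ⟨h1, h2, h3⟩ := H.qbounds hz
  obtain ⟨h4, h5⟩ := TH.logder_bound (by norm_num) H.b0 h1 h2 h3
  refine ⟨h4.trans (le_of_eq ?_), h5.trans (le_of_eq ?_)⟩
  · ring
  · ring

lemma Fne (H : Gd F γ D C b B C2 C3) {z : ℂ} (hz : 1 ≤ z.re) : F z ≠ 0 ∧ quo F γ z ≠ 0 := by
  have h1 := H.lo z hz
  have h2 : 0 < ‖γ z‖ := norm_pos_iff.mpr (H.G.ne z (by linarith))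
  have h3 : 0 < ‖F z‖ := lt_of_lt_of_le (by positivity) h1
  have h4 := norm_pos_iff.mp h3
  exact ⟨h4, div_ne_zero h4 (H.G.ne z (by linarith))⟩

lemma lqdiff (H : Gd F γ D C b B C2 C3) {z : ℂ} (hz : 1 ≤ z.re) : DifferentiableAt ℂ (lq F γ) z := by
  have hopen : IsOpen {w : ℂ | 0 < w.re} := isOpen_lt continuous_const continuous_re
  have h1 : DifferentiableOn ℂ (quo F γ) {w : ℂ | 0 < w.re} := fun w hw =>
    (H.qdiff (le_of_lt hw)).differentiableWithinAt
  have h2 := (h1.deriv hopen).differentiableAt (hopen.mem_nhds (show 0 < z.re by linarith))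
  exact h2.div (H.qdiff (by linarith)) (H.Fne (by linarith)).2

lemma lqlip (H : Gd F γ D C b B C2 C3) {z w : ℂ} (hz : 3 / 2 ≤ z.re) (hw : 3 / 2 ≤ w.re) :
    ‖lq F γ z - lq F γ w‖ ≤ 1024 * b * ‖z - w‖ :=
  (convex_halfSpace_re_ge (3 / 2)).norm_image_sub_le_of_norm_deriv_le (f := lq F γ)
    (fun z hz => H.lqdiff (by
      have : 3 / 2 ≤ z.re := hz
      linarith)) (fun z hz => (H.lqb hz).2)
    (show w ∈ {z : ℂ | 3 / 2 ≤ z.re} from hw) (show z ∈ {z : ℂ | 3 / 2 ≤ z.re} from hz)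

lemma der (H : Gd F γ D C b B C2 C3) {z : ℂ} (hz : 3 / 2 ≤ z.re) :
    HasDerivAt F (F z * ld F γ D z) z := by
  have h1 := (H.qdiff (z := z) (by linarith)).hasDerivAt
  have h2 := h1.mul (H.G.der z (by linarith))
  have e : (fun w => quo F γ w * γ w) =ᶠ[𝓝 z] F := by
    have hopen : IsOpen {w : ℂ | 0 < w.re} := isOpen_lt continuous_const continuous_re
    filter_upwards [hopen.mem_nhds (show 0 < z.re by linarith)] with w hw
    unfold quo
    have := H.G.ne w (le_of_lt hw)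
    field_simp
  have h3 : HasDerivAt F (deriv (quo F γ) z * γ z + quo F γ z * (γ z * D z)) z := by
    have h4 : HasDerivAt (fun w => quo F γ w * γ w)
      (deriv (quo F γ) z * γ z + quo F γ z * (γ z * D z)) z := h2
    exact h4.congr_of_eventuallyEq e.symm
  refine h3.congr_deriv ?_
  obtain ⟨h4, h5⟩ := H.Fne (z := z) (by linarith)
  have h6 := H.G.ne z (by linarith)
  unfold ld lq
  have h7 : F z = quo F γ z * γ z := by
    unfold quo
    field_simp
  rw [h7]
  field_simp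
  ring

/-- the size of the gamma factor -/
lemma gsize (H : Gd F γ D C b B C2 C3) (T : ℝ) {z : ℂ} (hz : 0 ≤ z.re) :
    ‖γ z‖ ≤ ‖γ ((T : ℂ) * I)‖ * Real.exp ((D ((T : ℂ) * I)).re * z.re +
      3 * C * (1 + z.re ^ 2 + (z.im - T) ^ 2)) ∧
    ‖γ ((T : ℂ) * I)‖ * Real.exp ((D ((T : ℂ) * I)).re * z.re -
      3 * C * (1 + z.re ^ 2 + (z.im - T) ^ 2)) ≤ ‖γ z‖ := by
  have hC := H.G.hC
  set ℒ := (D ((T : ℂ) * I)).re with hℒ
  set x := z.re with hx
  set y := z.im with hy
  have hzz : z = (x : ℂ) + (y : ℂ) * I := (re_add_im z).symm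
  -- vertical
  have v1 := gam_vert H.G (le_refl (0 : ℝ)) y T
  have v2 := gam_vert H.G (le_refl (0 : ℝ)) T y
  rw [ofReal_zero, zero_add, zero_add] at v1 v2
  rw [abs_sub_comm T y] at v2
  -- horizontal
  set f : ℝ → ℂ := fun u => γ ((u : ℂ) + (y : ℂ) * I) * ((Real.exp (-(ℒ * u)) : ℝ) : ℂ) with hf
  set d : ℝ → ℂ := fun u => D ((u : ℂ) + (y : ℂ) * I) - ℒ with hd
  have hder : ∀ u ∈ Icc (0 : ℝ) x, HasDerivAt f (f u * d u) u := by
    intro u hu
    have hline : HasDerivAt (fun u : ℝ => (u : ℂ) + (y : ℂ) * I) 1 u := by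
      have := (hasDerivAt_id u).ofReal_comp.add_const ((y : ℂ) * I)
      simpa using this
    have h2 : HasDerivAt (fun u : ℝ => γ ((u : ℂ) + (y : ℂ) * I))
        (γ ((u : ℂ) + (y : ℂ) * I) * D ((u : ℂ) + (y : ℂ) * I) * 1) u :=
      (H.G.der ((u : ℂ) + (y : ℂ) * I) (by rw [cz_re]; exact hu.1)).comp u hline
    have h3 : HasDerivAt (fun u : ℝ => ((Real.exp (-(ℒ * u)) : ℝ) : ℂ))
        ((Real.exp (-(ℒ * u)) * (-ℒ) : ℝ) : ℂ) u := by
      have h5 : HasDerivAt (fun u : ℝ => -(ℒ * u)) (-ℒ) u := by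
        have := ((hasDerivAt_id' u).const_mul ℒ).neg
        refine this.congr_deriv (by ring)
      exact h5.exp.ofReal_comp
    refine (h2.mul h3).congr_deriv ?_
    simp only [hf, hd, ofReal_mul, ofReal_neg]
    ring
  have hne : ∀ u ∈ Icc (0 : ℝ) x, f u ≠ 0 := by
    intro u hu
    refine mul_ne_zero (H.G.ne _ (by rw [cz_re]; exact hu.1)) ?_
    exact_mod_cast (Real.exp_pos _).ne'
  have hdb : ∀ u ∈ Icc (0 : ℝ) x, |(d u).re| ≤ C * (x + |y - T|) := by
    intro u hu
    have h1 := H.G.lip ((u : ℂ) + (y : ℂ) * I) ((T : ℂ) * I) (by rw [cz_re]; exact hu.1) (by simp)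
    have h2 : (d u).re = (D ((u : ℂ) + (y : ℂ) * I) - D ((T : ℂ) * I)).re := by
      simp only [hd]
      rw [sub_re, sub_re, ofReal_re]
    rw [h2]
    refine (abs_re_le_norm _).trans (h1.trans ?_)
    apply mul_le_mul_of_nonneg_left _ (by linarith)
    have e : (u : ℂ) + (y : ℂ) * I - (T : ℂ) * I = (u : ℂ) + ((y - T : ℝ) : ℂ) * I := by
      push_cast; ring
    rw [e]
    refine (norm_add_le _ _).trans ?_
    rw [norm_mul, Complex.norm_I, mul_one, Complex.norm_real, Complex.norm_real, Real.norm_eq_abs,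
      Real.norm_eq_abs, abs_of_nonneg hu.1]
    linarith [hu.2]
  have h0m : (0 : ℝ) ∈ Icc (0 : ℝ) x := ⟨le_rfl, hz⟩
  have hxm : x ∈ Icc (0 : ℝ) x := ⟨hz, le_rfl⟩
  have g1 := growth_on (convex_Icc 0 x) hder hne hdb h0m hxm
  have g2 := growth_on (convex_Icc 0 x) hder hne hdb hxm h0m
  rw [sub_zero, abs_of_nonneg hz] at g1
  rw [zero_sub, abs_neg, abs_of_nonneg hz] at g2
  have hf0 : ‖f 0‖ = ‖γ ((y : ℂ) * I)‖ := by
    simp only [hf]
    rw [mul_zero, neg_zero, Real.exp_zero, ofReal_one, mul_one, ofReal_zero, zero_add]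
  have hfx : ‖f x‖ = ‖γ z‖ * Real.exp (-(ℒ * x)) := by
    simp only [hf]
    rw [norm_mul, Complex.norm_real, Real.norm_eq_abs, abs_of_pos (Real.exp_pos _), ← hzz]
  rw [hf0, hfx] at g1 g2
  have hnum : C * (x + |y - T|) * x + C * |y - T| ≤ 3 * C * (1 + x ^ 2 + (y - T) ^ 2) := by
    have h1 : |y - T| ^ 2 = (y - T) ^ 2 := sq_abs _
    rw [← h1]
    have h2 : (x + |y - T|) * x + |y - T| ≤ 3 * (1 + x ^ 2 + |y - T| ^ 2) := by
      nlinarith [sq_nonneg (x - |y - T|), sq_nonneg (|y - T| - 1), abs_nonneg (y - T)]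
    have h3 := mul_le_mul_of_nonneg_left h2 (by linarith : (0 : ℝ) ≤ C)
    linarith
  have hee : ∀ a : ℝ, a * Real.exp (-(ℒ * x)) * Real.exp (ℒ * x) = a := by
    intro a
    rw [mul_assoc, ← Real.exp_add, neg_add_cancel, Real.exp_zero, mul_one]
  constructor
  · calc ‖γ z‖ = ‖γ z‖ * Real.exp (-(ℒ * x)) * Real.exp (ℒ * x) := (hee _).symm
      _ ≤ ((‖γ ((T : ℂ) * I)‖ * Real.exp (C * |y - T|)) * Real.exp (C * (x + |y - T|) * x)) *
          Real.exp (ℒ * x) := by
          apply mul_le_mul_of_nonneg_right _ (Real.exp_pos _).le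
          exact g1.trans (mul_le_mul_of_nonneg_right v1 (Real.exp_pos _).le)
      _ = ‖γ ((T : ℂ) * I)‖ * Real.exp (ℒ * x + (C * (x + |y - T|) * x + C * |y - T|)) := by
          rw [mul_assoc, mul_assoc, ← Real.exp_add, ← Real.exp_add]
          congr 2
          ring
      _ ≤ _ := by
          apply mul_le_mul_of_nonneg_left _ (norm_nonneg _)
          apply Real.exp_le_exp.mpr
          linarith
  · have h1 : ‖γ ((T : ℂ) * I)‖ ≤ (‖γ z‖ * Real.exp (-(ℒ * x)) *
        Real.exp (C * (x + |y - T|) * x)) * Real.exp (C * |y - T|) :=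
      v2.trans (mul_le_mul_of_nonneg_right g2 (Real.exp_pos _).le)
    calc ‖γ ((T : ℂ) * I)‖ * Real.exp (ℒ * x - 3 * C * (1 + x ^ 2 + (y - T) ^ 2))
        ≤ ((‖γ z‖ * Real.exp (-(ℒ * x)) * Real.exp (C * (x + |y - T|) * x)) *
          Real.exp (C * |y - T|)) * Real.exp (ℒ * x - 3 * C * (1 + x ^ 2 + (y - T) ^ 2)) := by
          gcongr
      _ = ‖γ z‖ * Real.exp ((C * (x + |y - T|) * x + C * |y - T|) -
          3 * C * (1 + x ^ 2 + (y - T) ^ 2)) := by
          rw [mul_assoc, mul_assoc, mul_assoc, ← Real.exp_add, ← Real.exp_add, ← Real.exp_add]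
          congr 2
          ring
      _ ≤ ‖γ z‖ * 1 := by
          apply mul_le_mul_of_nonneg_left _ (norm_nonneg _)
          rw [Real.exp_le_one_iff]
          linarith
      _ = ‖γ z‖ := mul_one _

/-- a bound of the quotient gives a bound of the function on both sides -/
lemma fromQ (H : Gd F γ D C b B C2 C3) {T q : ℝ} {z : ℂ}
    (hq : ∀ w : ℂ, 0 ≤ w.re → w.re = |z.re| → w.im = z.im → ‖F w‖ ≤ Real.exp q * ‖γ w‖) :
    ‖F z‖ ≤ ‖γ ((T : ℂ) * I)‖ * Real.exp (q + (D ((T : ℂ) * I)).re * |z.re| +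
      3 * C * (1 + z.re ^ 2 + (z.im - T) ^ 2)) := by
  have key : ∀ w : ℂ, 0 ≤ w.re → w.re = |z.re| → w.im = z.im → ‖F w‖ ≤
      ‖γ ((T : ℂ) * I)‖ * Real.exp (q + (D ((T : ℂ) * I)).re * |z.re| +
      3 * C * (1 + z.re ^ 2 + (z.im - T) ^ 2)) := by
    intro w h1 h2 h3
    have h4 := (H.gsize T h1).1
    rw [h2, h3, sq_abs] at h4
    refine (hq w h1 h2 h3).trans ?_
    calc Real.exp q * ‖γ w‖ ≤ Real.exp q * (‖γ ((T : ℂ) * I)‖ *
          Real.exp ((D ((T : ℂ) * I)).re * |z.re| +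
          3 * C * (1 + z.re ^ 2 + (z.im - T) ^ 2))) := by gcongr
      _ = _ := by
          rw [mul_left_comm, ← Real.exp_add]
          congr 2
          ring
  rcases le_total 0 z.re with h | h
  · exact key z h (abs_of_nonneg h).symm rfl
  · have h1 := key (-conj z) (by simp; exact h) (by simp [abs_of_nonpos h]) (by simp)
    rwa [H.sym] at h1

/-- the local data -/
theorem loc (H : Gd F γ D C b B C2 C3) : ∃ K : ℝ, 1 ≤ K ∧ ∃ T0 : ℝ, 1 ≤ T0 ∧ ∀ T : ℝ, T0 ≤ T →
    Loc F (ld F γ D) T (D ((T : ℂ) * I)).re ‖γ ((T : ℂ) * I)‖ K (2 * B) := by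
  have hC := H.G.hC
  have hb := H.b0
  have hB := H.B0
  have hC2 := H.C20
  have hlC2 : 0 ≤ Real.log C2 := Real.log_nonneg hC2
  have hC3 : 0 ≤ C3 := (abs_nonneg _).trans (H.L 1 le_rfl)
  set K : ℝ := 1 + Real.log C2 + B * (3 + 2 * C3) + 4 * C + 33 * b with hK
  have hK1 : 1 ≤ K := by
    rw [hK]
    have : 0 ≤ B * (3 + 2 * C3) := by positivity
    linarith
  refine ⟨K, hK1, Real.exp (2 * (1 + C3)), Real.one_le_exp (by positivity), ?_⟩
  intro T hT
  have hT1 : 1 ≤ T := (Real.one_le_exp (by positivity)).trans hT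
  have hlogT : 2 * (1 + C3) ≤ Real.log T := by
    rw [Real.le_log_iff_exp_le (by linarith)]
    exact hT
  set ℒ := (D ((T : ℂ) * I)).re with hℒ
  have hL := abs_le.mp (H.L T hT1)
  rw [← hℒ] at hL
  have hℒ1 : 1 ≤ ℒ := by linarith [hL.1]
  have hsq : ∀ z : ℂ, 0 ≤ z.re ^ 2 + (z.im - T) ^ 2 := fun z => by positivity
  refine ⟨norm_pos_iff.mpr (H.G.ne _ (by simp)), hK1, by positivity, hℒ1, ?_, ?_, ?_, ?_, ?_⟩
  · intro z
    have h1 := H.fromQ (T := T) (z := z) (q := Real.log C2 + B * (1 + 2 * C3 + 2 * ℒ + |z.im - T|))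
      (by
        intro w h1 h2 h3
        refine (H.up w h1).trans ?_
        apply mul_le_mul_of_nonneg_right _ (norm_nonneg _)
        rw [Real.exp_add, Real.exp_log (by linarith)]
        apply mul_le_mul_of_nonneg_left _ (by linarith)
        rw [h3]
        have h4 : 1 + |z.im| ≤ (1 + T) * (1 + |z.im - T|) := by
          have h5 : |z.im| ≤ |z.im - T| + T := by
            have := abs_add_le (z.im - T) T
            rw [sub_add_cancel] at this
            rwa [abs_of_pos (by linarith : (0 : ℝ) < T)] at this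
          nlinarith [abs_nonneg (z.im - T)]
        have h6 : 0 < 1 + |z.im| := by positivity
        rw [Real.rpow_def_of_pos h6]
        apply Real.exp_le_exp.mpr
        rw [mul_comm]
        apply mul_le_mul_of_nonneg_left _ hB
        have h7 := Real.log_le_log h6 h4
        rw [Real.log_mul (by positivity) (by positivity)] at h7
        have h8 : Real.log (1 + |z.im - T|) ≤ |z.im - T| := by
          have := Real.log_le_sub_one_of_pos (x := 1 + |z.im - T|) (by positivity)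
          linarith
        have h9 : Real.log (1 + T) ≤ 1 + Real.log T := by
          have h10 : 1 + T ≤ 2 * T := by linarith
          have h11 := Real.log_le_log (by linarith) h10
          rw [Real.log_mul (by norm_num) (by linarith)] at h11
          have h12 : Real.log 2 ≤ 1 := by
            have := Real.log_le_sub_one_of_pos (show (0 : ℝ) < 2 by norm_num)
            linarith
          linarith
        linarith [hL.1])
    refine h1.trans ?_
    apply mul_le_mul_of_nonneg_left _ (norm_nonneg _)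
    apply Real.exp_le_exp.mpr
    rw [← hℒ]
    have h2 : |z.im - T| ≤ 1 + (z.im - T) ^ 2 := by
      rw [← sq_abs]
      nlinarith [sq_nonneg (|z.im - T| - 1 / 2), abs_nonneg (z.im - T)]
    have h3 : B * |z.im - T| ≤ B * (1 + (z.im - T) ^ 2) := mul_le_mul_of_nonneg_left h2 hB
    have h4 : Real.log C2 + B * (1 + 2 * C3) + B * (1 + (z.im - T) ^ 2) +
        3 * C * (1 + z.re ^ 2 + (z.im - T) ^ 2) ≤ K * (1 + z.re ^ 2 + (z.im - T) ^ 2) := by
      set u := z.re ^ 2 with hu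
      set v := (z.im - T) ^ 2 with hv
      have hu0 : 0 ≤ u := by positivity
      have hv0 : 0 ≤ v := by positivity
      rw [hK]
      have h5 : 0 ≤ Real.log C2 * (u + v) := by positivity
      have h6 : 0 ≤ B * (2 * C3) * (u + v) := by positivity
      have h7 : 0 ≤ b * (1 + u + v) := by positivity
      have h8 : 0 ≤ C * (1 + u + v) := by positivity
      have h9 : 0 ≤ B * u := by positivity
      have h10 : 0 ≤ B * v := by positivity
      nlinarith
    nlinarith
  · intro z hz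
    have h1 := H.hi z (by linarith)
    have h2 := (H.gsize T (z := z) (by linarith)).1
    calc ‖F z‖ ≤ Real.exp b * ‖γ z‖ := h1
      _ ≤ Real.exp b * (‖γ ((T : ℂ) * I)‖ * Real.exp (ℒ * z.re +
          3 * C * (1 + z.re ^ 2 + (z.im - T) ^ 2))) := by gcongr
      _ = ‖γ ((T : ℂ) * I)‖ * Real.exp (b + (ℒ * z.re +
          3 * C * (1 + z.re ^ 2 + (z.im - T) ^ 2))) := by
          rw [mul_left_comm, ← Real.exp_add]
      _ ≤ _ := by
          apply mul_le_mul_of_nonneg_left _ (norm_nonneg _)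
          apply Real.exp_le_exp.mpr
          have h3 : b + 3 * C * (1 + z.re ^ 2 + (z.im - T) ^ 2) ≤
              (b + 3 * C) * (1 + z.re ^ 2 + (z.im - T) ^ 2) := by nlinarith [hsq z]
          have h4 : (b + 3 * C) * (1 + z.re ^ 2 + (z.im - T) ^ 2) ≤
              K * (1 + z.re ^ 2 + (z.im - T) ^ 2) := by
            apply mul_le_mul_of_nonneg_right _ (by linarith [hsq z])
            rw [hK]
            have : 0 ≤ B * (3 + 2 * C3) := by positivity
            linarith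
          linarith
  · intro z hz
    exact H.der hz
  · intro z hz
    unfold ld
    have h1 := H.G.lip z ((T : ℂ) * I) (by linarith) (by simp)
    have h2 := (H.lqb hz).1
    have h3 := H.G.im ((T : ℂ) * I) (by simp)
    have h4 : ‖D ((T : ℂ) * I) - (ℒ : ℂ)‖ ≤ C := by
      have e : D ((T : ℂ) * I) - (ℒ : ℂ) = ((D ((T : ℂ) * I)).im : ℂ) * I := by
        apply Complex.ext
        · simp [hℒ]
        · simp
      rw [e, norm_mul, Complex.norm_I, mul_one, Complex.norm_real, Real.norm_eq_abs]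
      exact h3
    have h5 : ‖z - (T : ℂ) * I‖ ≤ z.re + |z.im - T| := by
      refine (Complex.norm_le_abs_re_add_abs_im _).trans ?_
      simp only [sub_re, sub_im, mul_re, mul_im, ofReal_re, ofReal_im, I_re, I_im, mul_zero, mul_one,
        zero_mul, sub_zero, add_zero]
      rw [abs_of_nonneg (by linarith)]
    have e : D z + lq F γ z - (ℒ : ℂ) = (D z - D ((T : ℂ) * I)) + (D ((T : ℂ) * I) - (ℒ : ℂ)) +
        lq F γ z := by ring
    rw [e]
    refine (norm_add_le _ _).trans ((add_le_add (norm_add_le _ _) le_rfl).trans ?_)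
    have h6 : C * ‖z - (T : ℂ) * I‖ ≤ C * (z.re + |z.im - T|) :=
      mul_le_mul_of_nonneg_left h5 (by linarith)
    have h7 : 0 ≤ z.re + |z.im - T| := by
      have := abs_nonneg (z.im - T)
      linarith
    have h8 : C * (z.re + |z.im - T|) + C + 32 * b ≤ (C + 32 * b) * (1 + z.re + |z.im - T|) := by
      nlinarith
    have h9 : (C + 32 * b) * (1 + z.re + |z.im - T|) ≤ K * (1 + z.re + |z.im - T|) := by
      apply mul_le_mul_of_nonneg_right _ (by linarith)
      rw [hK]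
      have : 0 ≤ B * (3 + 2 * C3) := by positivity
      linarith
    linarith
  · intro z hz
    have h1 := H.lo z (by linarith)
    have h2 := (H.gsize T (z := z) (by linarith)).2
    refine le_trans ?_ h1
    calc ‖γ ((T : ℂ) * I)‖ * Real.exp (ℒ * z.re - K * (1 + z.re ^ 2 + (z.im - T) ^ 2))
        ≤ ‖γ ((T : ℂ) * I)‖ * Real.exp (-b + (ℒ * z.re -
          3 * C * (1 + z.re ^ 2 + (z.im - T) ^ 2))) := by
          apply mul_le_mul_of_nonneg_left _ (norm_nonneg _)
          apply Real.exp_le_exp.mpr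
          have h3 : b + 3 * C * (1 + z.re ^ 2 + (z.im - T) ^ 2) ≤
              (b + 3 * C) * (1 + z.re ^ 2 + (z.im - T) ^ 2) := by nlinarith [hsq z]
          have h4 : (b + 3 * C) * (1 + z.re ^ 2 + (z.im - T) ^ 2) ≤
              K * (1 + z.re ^ 2 + (z.im - T) ^ 2) := by
            apply mul_le_mul_of_nonneg_right _ (by linarith [hsq z])
            rw [hK]
            have : 0 ≤ B * (3 + 2 * C3) := by positivity
            linarith
          linarith
      _ = Real.exp (-b) * (‖γ ((T : ℂ) * I)‖ * Real.exp (ℒ * z.re -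
          3 * C * (1 + z.re ^ 2 + (z.im - T) ^ 2))) := by
          rw [mul_left_comm, ← Real.exp_add]
      _ ≤ _ := by gcongr

lemma reg (H : Gd F γ D C b B C2 C3) : Reg (ld F γ D) (C + 1024 * b) (C + 32 * b) := by
  have hC := H.G.hC
  have hb := H.b0
  refine ⟨by positivity, fun z w hz hw => ?_, fun z hz => ?_⟩
  · unfold ld
    have h1 := H.G.lip z w (by linarith) (by linarith)
    have h2 := H.lqlip hz hw
    have e : D z + lq F γ z - (D w + lq F γ w) = (D z - D w) + (lq F γ z - lq F γ w) := by ring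
    rw [e, add_mul]
    exact (norm_add_le _ _).trans (add_le_add h1 h2)
  · unfold ld
    rw [add_im]
    refine (abs_add_le _ _).trans (add_le_add (H.G.im z (by linarith)) ?_)
    exact (abs_im_le_norm _).trans (H.lqb hz).1

end Gd

end Pool.Agent.H466.LD
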