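import Pool.Agent.H466.LD.L15

/-!
# Many zeros on the line
-/

set_option autoImplicit false

open Complex MeasureTheory Filter Topology Set Metric
open scoped ComplexConjugate

namespace Pool.Agent.H466.LD

open Pool.Agent.H466.HF

theorem line_many {K μ0 δ1 δ ε h : ℝ} (hK : 1 ≤ K) (hμ0 : 0 ≤ μ0) (hδ1 : 0 < δ1) (hδ : δ1 ≤ δ)
    (hε : 0 < ε) (hε1 : ε ≤ 1) (hh : 0 < h) :
    ∃ μ : ℝ, 0 < μ ∧ ∃ W : ℝ, 0 < W ∧ ∃ ℒ0 : ℝ, 1 ≤ ℒ0 ∧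
      ∀ {g : ℝ → ℂ} {A c : ℝ} {P : ℂ → ℂ} {T ℒ Γ0 lam : ℝ}, Kern g A c →
      Loc (LL g 0) P T ℒ Γ0 K μ0 → Near (LL g 0) T ℒ Γ0 K μ W →
      (∀ z : ℂ, LL g 0 (-conj z) = conj (LL g 0 z)) → ℒ0 ≤ ℒ → 0 < lam → δ1 ≤ 2 * lam * ℒ →
      2 * lam * ℒ ≤ δ →
      ∃ S : Finset ℝ, (∀ y ∈ S, T < y ∧ y < T + h ∧ LL g lam ((y : ℂ) * I) = 0) ∧
        (1 - ε) * (h * ℒ / Real.pi) ≤ (S.card : ℝ) := by
  obtain ⟨r0, hr0, hseg⟩ := seg_zeros (K := K) (μ0 := μ0) (δ1 := δ1) (δ := δ) (ε := ε) hK hμ0 hδ1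
    hδ hε hε1
  obtain ⟨N, hN⟩ := exists_nat_ge (h / (2 * r0) + 1)
  have hNp : (0 : ℝ) < N := lt_of_lt_of_le (by positivity) hN
  set r : ℝ := h / (2 * N) with hr
  have hr0' : 0 < r := by positivity
  have hrr0 : r ≤ r0 := by
    rw [hr, div_le_iff₀ (by positivity)]
    have h1 : h / (2 * r0) ≤ N := by linarith
    rw [div_le_iff₀ (by positivity)] at h1
    linarith
  have hNr : 2 * (N : ℝ) * r = h := by
    rw [hr]
    field_simp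
  obtain ⟨μ, hμ, hμr, hseg2⟩ := hseg r hr0' hrr0
  obtain ⟨ℒ0, hℒ0, hseg3⟩ := hseg2 h hh.le
  refine ⟨μ / 2, by positivity, h + 2 * (5 + μ0), by positivity, ℒ0, hℒ0, ?_⟩
  intro g A c P T ℒ Γ0 lam k C Nr hfe hℒ hlam hl1 hl
  obtain ⟨hFin, hτ⟩ := hseg3 k C Nr hfe hℒ hlam hl1 hl
  obtain ⟨L, hL1, hL2⟩ := collect (Q := fun y => LL g lam ((y : ℂ) * I) = 0) (T := T) (r := r)
    (n := (1 - ε) * (2 * ℒ * r / Real.pi)) (s := 1) (fun _ => 1) (fun _ => 1) N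
    (fun _ _ => zero_le_one)
    (by
      intro j hj
      have hj' : (j : ℝ) + 1 ≤ N := by exact_mod_cast hj
      have hj0 : (0 : ℝ) ≤ j := Nat.cast_nonneg j
      have h1 : |T + (2 * (j : ℝ) + 1) * r - T| ≤ h := by
        rw [add_sub_cancel_left, abs_of_nonneg (by positivity), ← hNr]
        nlinarith
      obtain ⟨-, S', hS1, hS2⟩ := hτ (T + (2 * (j : ℝ) + 1) * r) h1
      refine ⟨S', ?_, hS2⟩
      intro y hy
      obtain ⟨b1, b2, b3⟩ := hS1 y hy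
      refine ⟨by linarith, by linarith, b3⟩)
    (fun _ _ _ _ _ => le_rfl) hr0'
  refine ⟨L, ?_, ?_⟩
  · intro y hy
    obtain ⟨b1, b2, b3⟩ := hL1 y hy
    rw [one_mul] at b1 b2
    rw [hNr] at b2
    exact ⟨by linarith, by linarith, b3⟩
  · rw [Finset.sum_const, Finset.sum_const, Finset.card_range, nsmul_eq_mul, nsmul_eq_mul,
      mul_one, mul_one] at hL2
    refine le_trans (le_of_eq ?_) hL2
    rw [← hNr]
    ring

end Pool.Agent.H466.LD
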