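import Pool.Agent.H466.LD.L16
import Pool.Graph.R_seed8.Helper242.KK.Kernel
import Pool.Graph.R_seed8.H448R2.GC.X2

/-!
# The kernel of the Riemann xi function
-/

set_option autoImplicit false

open Complex MeasureTheory Filter Topology Set Metric
open scoped ComplexConjugate

namespace Pool.Agent.H466.LD

open Pool.Agent.H466.HF Pool.Agent.Helper242.KK

/-- the kernel of the Riemann xi function -/
noncomputable def gk (u : ℝ) : ℂ := ((Ph u : ℝ) : ℂ)

/-- the Riemann xi function -/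
noncomputable def xi (s : ℂ) : ℂ := (s * (s - 1) * completedRiemannZeta₀ s + 1) / 2

lemma xi_diff : Differentiable ℂ xi := by
  unfold xi
  have := differentiable_completedZeta₀
  fun_prop

lemma xi_eq {s : ℂ} (h0 : s ≠ 0) (h1 : s ≠ 1) :
    xi s = 1 / 2 * s * (s - 1) * completedRiemannZeta s := by
  unfold xi
  rw [completedRiemannZeta_eq]
  have h2 : (1 : ℂ) - s ≠ 0 := sub_ne_zero.mpr (Ne.symm h1)
  field_simp
  ring

lemma gk_kern : ∃ A : ℝ, Kern gk A 1 := by
  obtain ⟨A, hA, hb⟩ := Ph_upper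
  refine ⟨A, ?_, one_pos, hA.le, fun u => ?_⟩
  · unfold gk
    exact Complex.continuous_ofReal.comp continuous_Ph
  · unfold gk
    rw [Complex.norm_real, Real.norm_eq_abs]
    refine (hb u).trans ?_
    apply mul_le_mul_of_nonneg_left _ hA.le
    apply Real.exp_le_exp.mpr
    set x := |u| with hx
    have h1 : Real.exp (2 * x) = Real.exp x * Real.exp x := by
      rw [← Real.exp_add]; ring_nf
    have h2 := Real.add_one_le_exp (2 * x)
    have h3 := Real.pi_gt_three
    have h4 : 0 < Real.exp (2 * x) := Real.exp_pos _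
    have h5 : 3 * Real.exp (2 * x) ≤ Real.pi * Real.exp (2 * x) := by gcongr
    nlinarith [sq_nonneg (Real.exp x - 1)]

lemma LL_gk_FT (z : ℂ) : LL gk 0 z = FT Ph (-I * z) := by
  unfold LL FT gk
  refine integral_congr_ae (Eventually.of_forall fun u => ?_)
  simp only
  congr 2
  have hI : I * I = -1 := I_mul_I
  push_cast
  linear_combination (z * u) * hI

lemma LL_gk_xi (z : ℂ) : LL gk 0 z = xi (1 / 2 + z) := by
  obtain ⟨A, k⟩ := gk_kern
  have h1 : Continuous (LL gk 0) := (k.differentiable 0).continuous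
  have h2 : Continuous fun z : ℂ => xi (1 / 2 + z) := xi_diff.continuous.comp (by fun_prop)
  have hfin : ({-1 / 2, 1 / 2} : Set ℂ).Finite := by simp
  have hd : Dense (Set.univ \ ({-1 / 2, 1 / 2} : Set ℂ)) := dense_univ.sdiff_finite hfin
  have := Continuous.ext_on hd h1 h2 (by
    intro w hw
    have hw' : w ∉ ({-1 / 2, 1 / 2} : Set ℂ) := hw.2
    simp only [mem_insert_iff, mem_singleton_iff, not_or] at hw'
    have e0 : (1 / 2 : ℂ) + w ≠ 0 := by
      intro h
      apply hw'.1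
      linear_combination h
    have e1 : (1 / 2 : ℂ) + w ≠ 1 := by
      intro h
      apply hw'.2
      linear_combination h
    simp only
    rw [LL_gk_FT, FT_Ph (1 / 2 + w) (-I * w) (by
      have hI : I * I = -1 := I_mul_I
      linear_combination w * hI) e0 e1, xi_eq e0 e1])
  exact congrFun this z

lemma LL_gk_fe (z : ℂ) : LL gk 0 (-conj z) = conj (LL gk 0 z) := by
  unfold LL
  rw [← integral_conj,
    ← integral_neg_eq_self (fun u : ℝ => conj (gk u * cexp (((0 : ℝ) : ℂ) * (u : ℂ) ^ 2 + z * u)))]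
  refine integral_congr_ae (Eventually.of_forall fun u => ?_)
  simp only [gk]
  rw [map_mul, conj_ofReal, Ph_even, ← Complex.exp_conj]
  congr 2
  simp

/-- the gamma factor -/
noncomputable def gz (z : ℂ) : ℂ := (z + 3 / 2) * (Real.pi * gamE Real.pi (z / 2 + 1 / 4))

/-- its logarithmic derivative -/
noncomputable def Dz (z : ℂ) : ℂ := 1 / (z + 3 / 2) + 1 / 2 * DE Real.pi (z / 2 + 1 / 4)

lemma re_aux {z : ℂ} (hz : 0 ≤ z.re) : 0 ≤ (z / 2 + 1 / 4).re := by
  have : (z / 2 + 1 / 4).re = z.re / 2 + 1 / 4 := by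
    simp
  rw [this]
  linarith

lemma den_norm {z : ℂ} (hz : 0 ≤ z.re) : 3 / 2 ≤ ‖z + 3 / 2‖ := by
  have h1 := re_le_norm (z + 3 / 2)
  have h2 : (z + 3 / 2).re = z.re + 3 / 2 := by simp
  rw [h2] at h1
  linarith

lemma den_ne {z : ℂ} (hz : 0 ≤ z.re) : z + 3 / 2 ≠ 0 := by
  rw [← norm_pos_iff]
  linarith [den_norm hz]

lemma gz_gamW : GamW 12 gz Dz := by
  have G := gamW_E Real.pi_pos
  refine ⟨by norm_num, fun z hz => ?_, fun z hz => ?_, fun z w hz hw => ?_, fun z hz => ?_⟩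
  · have h1 := G.der _ (re_aux hz)
    have h2 : HasDerivAt (fun z : ℂ => z / 2 + 1 / 4) (1 / 2) z :=
      ((hasDerivAt_id z).div_const 2).add_const _
    have h3 := (h1.comp z h2).const_mul (Real.pi : ℂ)
    have h4 : HasDerivAt (fun z : ℂ => z + 3 / 2) 1 z := (hasDerivAt_id z).add_const _
    have h5 := h4.mul h3
    refine h5.congr_deriv ?_
    have e : (z + 3 / 2) * (1 / (z + 3 / 2)) = 1 := mul_one_div_cancel (den_ne hz)
    unfold gz Dz
    simp only [Function.comp_apply]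
    linear_combination (-(Real.pi * gamE Real.pi (z / 2 + 1 / 4))) * e
  · unfold gz
    refine mul_ne_zero (den_ne hz) (mul_ne_zero ?_ (G.ne _ (re_aux hz)))
    exact_mod_cast Real.pi_pos.ne'
  · unfold Dz
    have h1 := G.lip _ _ (re_aux hz) (re_aux hw)
    have e1 : z / 2 + 1 / 4 - (w / 2 + 1 / 4) = (z - w) / 2 := by ring
    rw [e1, norm_div, Complex.norm_ofNat] at h1
    have h2 : ‖1 / (z + 3 / 2) - 1 / (w + 3 / 2)‖ ≤ ‖z - w‖ := by
      have e2 : 1 / (z + 3 / 2) - 1 / (w + 3 / 2) = (w - z) / ((z + 3 / 2) * (w + 3 / 2)) := by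
        rw [div_sub_div _ _ (den_ne hz) (den_ne hw)]
        congr 1
        ring
      have hz' := den_norm hz
      have hw' := den_norm hw
      rw [e2, norm_div, norm_mul, norm_sub_rev]
      rw [div_le_iff₀ (by nlinarith)]
      have h3 : 1 ≤ ‖z + 3 / 2‖ * ‖w + 3 / 2‖ := by nlinarith
      nlinarith [norm_nonneg (z - w)]
    have e3 : 1 / (z + 3 / 2) + 1 / 2 * DE Real.pi (z / 2 + 1 / 4) -
        (1 / (w + 3 / 2) + 1 / 2 * DE Real.pi (w / 2 + 1 / 4)) =
        (1 / (z + 3 / 2) - 1 / (w + 3 / 2)) +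
        1 / 2 * (DE Real.pi (z / 2 + 1 / 4) - DE Real.pi (w / 2 + 1 / 4)) := by ring
    rw [e3]
    refine (norm_add_le _ _).trans ?_
    rw [norm_mul]
    have e4 : ‖(1 / 2 : ℂ)‖ = 1 / 2 := by norm_num
    rw [e4]
    linarith [norm_nonneg (z - w)]
  · unfold Dz
    have h1 := G.im _ (re_aux hz)
    have h2 : ‖1 / (z + 3 / 2)‖ ≤ 1 := by
      rw [norm_div, norm_one, div_le_one (by linarith [den_norm hz])]
      linarith [den_norm hz]
    have h3 : (1 / (z + 3 / 2) + 1 / 2 * DE Real.pi (z / 2 + 1 / 4)).im =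
        (1 / (z + 3 / 2)).im + 1 / 2 * (DE Real.pi (z / 2 + 1 / 4)).im := by
      rw [add_im]
      congr 1
      have : (1 / 2 : ℂ) = ((1 / 2 : ℝ) : ℂ) := by push_cast; ring
      rw [this, im_ofReal_mul]
    rw [h3]
    have h4 := (abs_im_le_norm (1 / (z + 3 / 2))).trans h2
    have h5 := abs_le.mp h1
    have h6 := abs_le.mp h4
    rw [abs_le]
    constructor <;> linarith [h5.1, h5.2, h6.1, h6.2]

lemma Dz_re {T : ℝ} (hT : 1 ≤ T) : |(Dz ((T : ℂ) * I)).re - Real.log T / 2| ≤ 9 := by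
  have G := gamW_E Real.pi_pos
  have h1 := DE_re (κ := Real.pi) (T / 2)
  have h2 := G.lip ((T : ℂ) * I / 2 + 1 / 4) (((T / 2 : ℝ) : ℂ) * I)
    (re_aux (by simp)) (by simp)
  have e1 : (T : ℂ) * I / 2 + 1 / 4 - ((T / 2 : ℝ) : ℂ) * I = 1 / 4 := by push_cast; ring
  have e2 : ‖(1 / 4 : ℂ)‖ = 1 / 4 := by norm_num
  rw [e1, e2] at h2
  have h3 := (abs_re_le_norm _).trans h2
  rw [sub_re] at h3
  have h4 : ‖1 / ((T : ℂ) * I + 3 / 2)‖ ≤ 1 := by
    have := den_norm (z := (T : ℂ) * I) (by simp)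
    rw [norm_div, norm_one, div_le_one (by linarith)]
    linarith
  have h5 := (abs_re_le_norm _).trans h4
  have e3 : (Dz ((T : ℂ) * I)).re = (1 / ((T : ℂ) * I + 3 / 2)).re +
      1 / 2 * (DE Real.pi ((T : ℂ) * I / 2 + 1 / 4)).re := by
    unfold Dz
    rw [add_re]
    congr 1
    have : (1 / 2 : ℂ) = ((1 / 2 : ℝ) : ℂ) := by push_cast; ring
    rw [this, re_ofReal_mul]
  rw [e3]
  have e4 : |T / 2| = T / 2 := abs_of_pos (by linarith)
  rw [e4] at h1
  have hpi := Real.pi_gt_three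
  have hpi4 := Real.pi_lt_four
  have l1 : 0 ≤ Real.log Real.pi := Real.log_nonneg (by linarith)
  have l2 : Real.log Real.pi ≤ 3 := by
    have := Real.log_le_sub_one_of_pos Real.pi_pos
    linarith
  have l3 : Real.log T - 1 ≤ Real.log (1 + T / 2) := by
    have h6 := Real.log_le_log (by linarith : 0 < T / 2) (by linarith : T / 2 ≤ 1 + T / 2)
    rw [Real.log_div (by linarith) (by norm_num)] at h6
    have := Real.log_le_sub_one_of_pos (show (0 : ℝ) < 2 by norm_num)
    linarith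
  have l4 : Real.log (1 + T / 2) ≤ Real.log T + 1 := by
    have h6 := Real.log_le_log (by linarith : 0 < 1 + T / 2) (by linarith : 1 + T / 2 ≤ 2 * T)
    rw [Real.log_mul (by norm_num) (by linarith)] at h6
    have := Real.log_le_sub_one_of_pos (show (0 : ℝ) < 2 by norm_num)
    linarith
  have a1 := abs_le.mp h1
  have a2 := abs_le.mp h3
  have a3 := abs_le.mp h5
  rw [abs_le]
  constructor <;> linarith [a1.1, a1.2, a2.1, a2.2, a3.1, a3.2]

end Pool.Agent.H466.LD
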