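import Pool.Agent.H466.LD.L18
import Pool.Graph.R_pool_sql_team_seeded_35f281b4.K7.H52.SP.Poly

/-!
# Local bounds of the zeta function give the local data
-/

set_option autoImplicit false

open Complex MeasureTheory Filter Topology Set Metric
open scoped ComplexConjugate

namespace Pool.Agent.H466.LD

open Pool.Agent.H466.HF Pool.Agent.K7.H52.SP

lemma Loc.mono {F P : ℂ → ℂ} {T ℒ Γ0 K K' μ0 : ℝ} (C : Loc F P T ℒ Γ0 K μ0) (h : K ≤ K') :
    Loc F P T ℒ Γ0 K' μ0 := by
  have hΓ := C.Γpos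
  refine ⟨hΓ, C.K1.trans h, C.μpos, C.ℒ1, fun z => (C.up z).trans ?_,
    fun z hz => (C.right z hz).trans ?_, C.der, fun z hz => (C.dP z hz).trans ?_,
    fun z hz => le_trans ?_ (C.low z hz)⟩
  · gcongr
  · gcongr
  · apply mul_le_mul_of_nonneg_right h
    have := abs_nonneg (z.im - T)
    linarith
  · gcongr

lemma zeta_diff_im {s : ℂ} (hs : 0 < s.im) : DifferentiableAt ℂ riemannZeta s := by
  apply differentiableAt_riemannZeta
  rintro rfl
  simp at hs

/-- a bound on the critical line near the height `T` gives a bound to the right of the line -/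
lemma small_strip' {ε W : ℝ} (hε : 0 < ε) (hW : 0 ≤ W) : ∃ R : ℝ, W ≤ R ∧ ∃ T0 : ℝ, 3 ≤ T0 ∧
    ∀ T : ℝ, T0 ≤ T →
      (∀ y : ℝ, |y - T| ≤ R → ‖riemannZeta (1 / 2 + y * I)‖ ≤ Real.exp (ε / 2 * Real.log T)) →
      ∀ s : ℂ, 1 / 2 ≤ s.re → |s.im - T| ≤ W → ‖riemannZeta s‖ ≤ Real.exp (ε * Real.log T) := by
  obtain ⟨B, hB, hgr'⟩ := growth 3
  obtain ⟨W0, hW0, hltl⟩ := ltl (a := 1 / 2) (b := 2) (α := ε / 2) (β := ε / 2) (B := B)
    (ε := ε / 2) (by norm_num) hB (by positivity)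
  obtain ⟨T₁, hT₁, hgr⟩ := hgr' (W + W0)
  obtain ⟨M, hM0, hM⟩ := H448R2.GC.X1.zeta_bdd
  obtain ⟨T₂, hT₂, hab⟩ := absorb M (show 0 < ε / 2 by positivity)
  refine ⟨W + W0, by linarith, T₁ + T₂ + (W + W0) + 2, by linarith, ?_⟩
  intro T hT hline s hs1 hs2
  have hL0 : 0 < Real.log T := Real.log_pos (by linarith)
  have hab' := hab T (by linarith)
  rcases le_total s.re 2 with h | h
  · have hin : ∀ w : ℂ, |w.im - s.im| ≤ W0 → |w.im - T| ≤ W + W0 := by
      intro w hw
      have : w.im - T = (w.im - s.im) + (s.im - T) := by ring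
      rw [this]
      refine (abs_add_le _ _).trans ?_
      linarith
    have h3 := hltl (Real.log T) hL0.le riemannZeta s.im
      (fun w _ _ hw => zeta_diff_im (by
        have := (abs_le.mp (hin w hw)).1
        linarith))
      (fun w hw1 _ hw => hgr T (by linarith) w (by linarith) (hin w hw))
      (fun w hw1 hw => by
        have e : w = 1 / 2 + (w.im : ℂ) * I := by
          apply Complex.ext
          · simp [hw1]
          · simp
        rw [e]
        exact hline w.im (hin w hw))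
      (fun w hw1 _ => (hM w (by linarith)).trans hab')
      s hs1 h rfl
    refine h3.trans (le_of_eq ?_)
    congr 2
    ring
  · refine (hM s (by linarith)).trans (hab'.trans ?_)
    apply Real.exp_le_exp.mpr
    nlinarith

/-- the ratio at the points to the right of the line -/
lemma ratio_le {z : ℂ} (hz : 0 ≤ z.re) : ‖(1 / 2 + z) - 1‖ ≤ ‖z + 3 / 2‖ := by
  have e1 : (1 / 2 + z) - 1 = z - 1 / 2 := by ring
  rw [e1, ← sq_le_sq₀ (norm_nonneg _) (norm_nonneg _), ← Complex.normSq_eq_norm_sq,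
    ← Complex.normSq_eq_norm_sq, Complex.normSq_apply, Complex.normSq_apply]
  simp
  nlinarith

lemma near_of_small {μ W : ℝ} (hμ : 0 < μ) (hW : 0 ≤ W) : ∃ R : ℝ, 0 < R ∧ ∃ T0 : ℝ, 3 ≤ T0 ∧
    ∀ T : ℝ, T0 ≤ T →
      (∀ y : ℝ, |y - T| ≤ R → ‖riemannZeta (1 / 2 + y * I)‖ ≤ Real.exp (μ / 8 * Real.log T)) →
      ∀ K : ℝ, 36 ≤ K →
      Near (LL gk 0) T (Dz ((T : ℂ) * I)).re ‖gz ((T : ℂ) * I)‖ K μ W := by
  obtain ⟨b, B, C2, H⟩ := gd_xi
  obtain ⟨R, hR, T0, hT0, h⟩ := small_strip' (ε := μ / 4) (W := W) (by positivity) hW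
  refine ⟨R + 1, by linarith, T0 + W + 3 + Real.exp 36, by
    have := Real.exp_pos 36
    linarith, ?_⟩
  intro T hT hline K hK
  have he := Real.exp_pos 36
  have hs := h T (by linarith) (fun y hy => by
    have := hline y (by linarith)
    refine this.trans (le_of_eq ?_)
    congr 1
    ring)
  have hlog : 36 ≤ Real.log T := by
    rw [Real.le_log_iff_exp_le (by linarith)]
    linarith
  have hD := abs_le.mp (Dz_re (T := T) (by linarith))
  refine ⟨fun z hz => ?_⟩
  have h1 := H.fromQ (T := T) (z := z) (q := μ / 4 * Real.log T) (by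
    intro w h1 h2 h3
    rw [xi_norm h1, mul_comm]
    apply mul_le_mul_of_nonneg_right _ (norm_nonneg _)
    have h4 := den_norm h1
    have him : (1 / 2 + w : ℂ).im = z.im := by simp [h3]
    have hne : (1 / 2 + w : ℂ) ≠ 1 := by
      intro h5
      have := congrArg im h5
      rw [him] at this
      simp at this
      have h6 := (abs_le.mp hz).1
      linarith
    have h6 := hs (1 / 2 + w) (by
      have : (1 / 2 + w : ℂ).re = 1 / 2 + w.re := by simp
      rw [this]
      linarith) (by rw [him]; exact hz)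
    rw [Z1_ne hne, norm_mul, div_le_iff₀ (by linarith)]
    have h7 := ratio_le h1
    calc ‖(1 / 2 + w) - 1‖ * ‖riemannZeta (1 / 2 + w)‖
        ≤ ‖w + 3 / 2‖ * Real.exp (μ / 4 * Real.log T) := by gcongr
      _ = _ := mul_comm _ _)
  refine h1.trans ?_
  apply mul_le_mul_of_nonneg_left _ (norm_nonneg _)
  apply Real.exp_le_exp.mpr
  have h2 : 0 ≤ 1 + z.re ^ 2 + (z.im - T) ^ 2 := by positivity
  have h3 : 3 * 12 * (1 + z.re ^ 2 + (z.im - T) ^ 2) ≤ K * (1 + z.re ^ 2 + (z.im - T) ^ 2) := by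
    apply mul_le_mul_of_nonneg_right _ h2
    linarith
  have h4 : μ / 4 * Real.log T ≤ (Dz ((T : ℂ) * I)).re * μ := by
    have h5 : Real.log T / 4 ≤ (Dz ((T : ℂ) * I)).re := by linarith [hD.1]
    nlinarith
  linarith

end Pool.Agent.H466.LD
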