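import Pool.Agent.H466.LD.L1

/-!
# Local data at a height, and bounds of the heat flow to the right
-/

set_option autoImplicit false

open Complex MeasureTheory Filter Topology Set
open scoped ComplexConjugate

namespace Pool.Agent.H466.LD

open Pool.Agent.H466.HF

/-- data at the height `T`; the function is of size `Γ0 exp (ℒ |Re z|)` near `iT` to the right -/
structure Loc (F P : ℂ → ℂ) (T ℒ Γ0 K μ0 : ℝ) : Prop where
  Γpos : 0 < Γ0
  K1 : 1 ≤ K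
  μpos : 0 ≤ μ0
  ℒ1 : 1 ≤ ℒ
  up : ∀ z : ℂ, ‖F z‖ ≤ Γ0 * Real.exp (ℒ * (|z.re| + μ0) + K * (1 + z.re ^ 2 + (z.im - T) ^ 2))
  right : ∀ z : ℂ, 3 / 2 ≤ z.re →
    ‖F z‖ ≤ Γ0 * Real.exp (ℒ * z.re + K * (1 + z.re ^ 2 + (z.im - T) ^ 2))
  der : ∀ z : ℂ, 3 / 2 ≤ z.re → HasDerivAt F (F z * P z) z
  dP : ∀ z : ℂ, 3 / 2 ≤ z.re → ‖P z - ℒ‖ ≤ K * (1 + z.re + |z.im - T|)
  low : ∀ z : ℂ, 3 / 2 ≤ z.re →
    Γ0 * Real.exp (ℒ * z.re - K * (1 + z.re ^ 2 + (z.im - T) ^ 2)) ≤ ‖F z‖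

lemma growth_on {f d : ℝ → ℂ} {C : ℝ} {s : Set ℝ} (hs : Convex ℝ s)
    (hf : ∀ u ∈ s, HasDerivAt f (f u * d u) u)
    (hne : ∀ u ∈ s, f u ≠ 0) (hd : ∀ u ∈ s, |(d u).re| ≤ C) {a b : ℝ} (ha : a ∈ s) (hb : b ∈ s) :
    ‖f b‖ ≤ ‖f a‖ * Real.exp (C * |b - a|) := by
  have hpos : ∀ u ∈ s, 0 < ‖f u‖ ^ 2 := fun u hu => by
    have := norm_pos_iff.mpr (hne u hu)
    positivity
  have h1 : ∀ u ∈ s, HasDerivAt (fun u => Real.log (‖f u‖ ^ 2)) (2 * (d u).re) u := by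
    intro u hu
    have h2 := (hf u hu).norm_sq
    have h3 := h2.log (hpos u hu).ne'
    refine h3.congr_deriv ?_
    have e : inner ℝ (f u) (f u * d u) = ‖f u‖ ^ 2 * (d u).re := by
      rw [Complex.inner]
      have : f u * d u * conj (f u) = ((‖f u‖ ^ 2 : ℝ) : ℂ) * d u := by
        push_cast
        rw [← Complex.conj_mul']
        ring
      rw [this, re_ofReal_mul]
    rw [e]
    have h4 := (hpos u hu).ne'
    rw [div_eq_iff h4]
    ring
  have h2 := hs.norm_image_sub_le_of_norm_hasDerivWithin_le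
    (f := fun u => Real.log (‖f u‖ ^ 2)) (f' := fun u => 2 * (d u).re) (C := 2 * C)
    (fun u hu => (h1 u hu).hasDerivWithinAt) (fun u hu => by
      rw [Real.norm_eq_abs, abs_mul, abs_two]
      linarith [hd u hu]) ha hb
  simp only [Real.norm_eq_abs] at h2
  have h3 := (abs_le.mp h2).2
  have h4 : Real.log (‖f b‖ ^ 2) ≤ Real.log (‖f a‖ ^ 2) + 2 * C * |b - a| := by linarith
  have h5 : ‖f b‖ ^ 2 ≤ (‖f a‖ * Real.exp (C * |b - a|)) ^ 2 := by
    rw [← Real.exp_log (hpos b hb)]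
    refine (Real.exp_le_exp.mpr h4).trans (le_of_eq ?_)
    rw [Real.exp_add, Real.exp_log (hpos a ha), mul_pow, ← Real.exp_nat_mul]
    congr 2
    push_cast
    ring
  exact (pow_le_pow_iff_left₀ (norm_nonneg _) (by positivity) two_ne_zero).mp h5

variable {g : ℝ → ℂ} {A c : ℝ} {P : ℂ → ℂ} {T ℒ Γ0 K μ0 lam δ : ℝ}

lemma sq_add_le (x v : ℝ) : (x + v) ^ 2 ≤ 2 * x ^ 2 + 2 * v ^ 2 := by nlinarith [sq_nonneg (x - v)]

lemma lamL_sq (hlam : 0 < lam) (hℒ : 0 ≤ ℒ) (hδ : 2 * lam * ℒ ≤ δ) :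
    (lam * ℒ) ^ 2 ≤ δ ^ 2 / 4 := by
  have h1 : 0 ≤ lam * ℒ := by positivity
  nlinarith

/-- general upper bound -/
lemma Fup (k : Kern g A c) (C : Loc (LL g 0) P T ℒ Γ0 K μ0) (hlam : 0 < lam)
    (hs : 16 * K * lam ≤ 1) (hδ : 2 * lam * ℒ ≤ δ) (z : ℂ) :
    ‖LL g lam z‖ ≤ Γ0 * Real.exp (ℒ * (|z.re| + μ0) + lam * ℒ ^ 2 +
      (2 * K + 4 * K * δ ^ 2 + 2) * (1 + z.re ^ 2 + (z.im - T) ^ 2)) := by
  have hK := C.K1
  have hℒ := C.ℒ1
  have h := heat_upper k (lam := lam) (ℒ := ℒ) (K := 2 * K) (Γ0 := Γ0) (z := z)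
    (a := ℒ * (|z.re| + μ0) + K * (1 + 2 * z.re ^ 2 + (z.im - T) ^ 2)) hlam (by linarith)
    (by linarith) (fun v => by
      refine (C.up (z + v)).trans ?_
      apply mul_le_mul_of_nonneg_left _ C.Γpos.le
      apply Real.exp_le_exp.mpr
      have e1 : (z + (v : ℂ)).re = z.re + v := by simp
      have e2 : (z + (v : ℂ)).im = z.im := by simp
      rw [e1, e2]
      have h1 : |z.re + v| ≤ |z.re| + |v| := abs_add_le _ _
      have h2 := sq_add_le z.re v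
      have h3 : ℒ * (|z.re + v| + μ0) ≤ ℒ * (|z.re| + |v| + μ0) := by gcongr
      have h4 : K * (1 + (z.re + v) ^ 2 + (z.im - T) ^ 2) ≤
          K * (1 + (2 * z.re ^ 2 + 2 * v ^ 2) + (z.im - T) ^ 2) := by gcongr
      nlinarith)
  refine h.trans ?_
  apply mul_le_mul_of_nonneg_left _ C.Γpos.le
  apply Real.exp_le_exp.mpr
  have h5 := lamL_sq hlam (by linarith) hδ
  have h6 : 8 * (2 * K) * (lam * ℒ) ^ 2 ≤ 4 * K * δ ^ 2 := by nlinarith
  have h7 : 0 ≤ z.re ^ 2 + (z.im - T) ^ 2 := by positivity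
  have h8 : 0 ≤ (4 * K * δ ^ 2 + 2) * (z.re ^ 2 + (z.im - T) ^ 2) := by positivity
  nlinarith [sq_nonneg z.re, sq_nonneg (z.im - T)]

/-- upper bound to the right -/
lemma Fright (k : Kern g A c) (C : Loc (LL g 0) P T ℒ Γ0 K μ0) (hlam : 0 < lam)
    (hs : 16 * K * lam ≤ 1) (hδ : 2 * lam * ℒ ≤ δ) {z : ℂ} (hz : 3 / 2 + μ0 ≤ z.re) :
    ‖LL g lam z‖ ≤ Γ0 * Real.exp (ℒ * z.re + lam * ℒ ^ 2 +
      (2 * K + 4 * K * δ ^ 2 + 2) * (1 + z.re ^ 2 + (z.im - T) ^ 2)) := by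
  have hK := C.K1
  have hℒ := C.ℒ1
  have hμ := C.μpos
  have h := heat_upper k (lam := lam) (ℒ := ℒ) (K := 2 * K) (Γ0 := Γ0) (z := z)
    (a := ℒ * z.re + K * (1 + 2 * z.re ^ 2 + (z.im - T) ^ 2)) hlam (by linarith)
    (by linarith) (fun v => by
      have e1 : (z + (v : ℂ)).re = z.re + v := by simp
      have e2 : (z + (v : ℂ)).im = z.im := by simp
      have h2 := sq_add_le z.re v
      have h4 : K * (1 + (z.re + v) ^ 2 + (z.im - T) ^ 2) ≤
          K * (1 + (2 * z.re ^ 2 + 2 * v ^ 2) + (z.im - T) ^ 2) := by gcongr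
      rcases le_or_gt (3 / 2) (z.re + v) with h5 | h5
      · refine (C.right (z + v) (by rw [e1]; exact h5)).trans ?_
        apply mul_le_mul_of_nonneg_left _ C.Γpos.le
        apply Real.exp_le_exp.mpr
        rw [e1, e2]
        have h3 : ℒ * (z.re + v) ≤ ℒ * (z.re + |v|) := by
          gcongr
          exact le_abs_self v
        nlinarith
      · refine (C.up (z + v)).trans ?_
        apply mul_le_mul_of_nonneg_left _ C.Γpos.le
        apply Real.exp_le_exp.mpr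
        rw [e1, e2]
        have h3 : |z.re + v| + μ0 ≤ z.re + |v| := by
          rcases le_total 0 (z.re + v) with h6 | h6
          · rw [abs_of_nonneg h6]
            have := abs_nonneg v
            linarith
          · rw [abs_of_nonpos h6]
            have := neg_abs_le v
            linarith
        have h7 : ℒ * (|z.re + v| + μ0) ≤ ℒ * (z.re + |v|) := by gcongr
        nlinarith)
  refine h.trans ?_
  apply mul_le_mul_of_nonneg_left _ C.Γpos.le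
  apply Real.exp_le_exp.mpr
  have h5 := lamL_sq hlam (by linarith) hδ
  have h6 : 8 * (2 * K) * (lam * ℒ) ^ 2 ≤ 4 * K * δ ^ 2 := by nlinarith
  have h7 : 0 ≤ z.re ^ 2 + (z.im - T) ^ 2 := by positivity
  have h8 : 0 ≤ (4 * K * δ ^ 2 + 2) * (z.re ^ 2 + (z.im - T) ^ 2) := by positivity
  nlinarith [sq_nonneg z.re, sq_nonneg (z.im - T)]

end Pool.Agent.H466.LD
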