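import Pool.Agent.H466.LD.L19

/-!
# The local theorems for the Riemann xi function
-/

set_option autoImplicit false

open Complex MeasureTheory Filter Topology Set Metric
open scoped ComplexConjugate

namespace Pool.Agent.H466.LD

open Pool.Agent.H466.HF Pool.Agent.K7.H52.SP

lemma order_ge_two {F : ℂ → ℂ} (hF : Differentiable ℂ F) {C z : ℂ} (hC : F C ≠ 0) (hz : F z = 0)
    (hd : deriv F z = 0) : 2 ≤ analyticOrderNatAt F z := by
  have h1 : analyticOrderAt F z ≠ ⊤ := by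
    intro h
    rw [analyticOrderAt_eq_top] at h
    have h2 : AnalyticOnNhd ℂ F Set.univ := fun z _ => hF.analyticAt z
    exact hC (h2.eqOn_zero_of_preconnected_of_eventuallyEq_zero isPreconnected_univ
      (Set.mem_univ z) h (Set.mem_univ C))
  have h3 := (hF.analyticAt z).analyticOrderAt_deriv_add_one
  rw [hz] at h3
  simp only [sub_zero] at h3
  have h4 : analyticOrderAt (deriv F) z ≠ 0 := by
    intro h
    exact ((hF.analyticAt z).deriv.analyticOrderAt_eq_zero.mp h) hd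
  have h5 : 1 ≤ analyticOrderAt (deriv F) z := ENat.one_le_iff_ne_zero.mpr h4
  have h6 : (2 : ℕ∞) ≤ analyticOrderAt F z := by
    rw [← h3]
    calc (2 : ℕ∞) = 1 + 1 := by norm_num
      _ ≤ _ := by gcongr
  unfold analyticOrderNatAt
  obtain ⟨n, hn⟩ := ENat.ne_top_iff_exists.mp h1
  rw [← hn] at h6 ⊢
  rw [ENat.toNat_coe]
  exact_mod_cast h6

/-- all the data of the xi function at large heights -/
lemma all_data : ∃ (A K μ0 M Θ : ℝ) (P : ℂ → ℂ) (T0 : ℝ), 36 ≤ K ∧ 0 ≤ μ0 ∧ 0 ≤ M ∧ 3 ≤ T0 ∧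
    Kern gk A 1 ∧ Reg P M Θ ∧
    ∀ T : ℝ, T0 ≤ T → Loc (LL gk 0) P T (Dz ((T : ℂ) * I)).re ‖gz ((T : ℂ) * I)‖ K μ0 := by
  obtain ⟨A, k⟩ := gk_kern
  obtain ⟨b, B, C2, H⟩ := gd_xi
  obtain ⟨K, hK, T0, hT0, hloc⟩ := H.loc
  have hb := H.b0
  refine ⟨A, max K 36, 2 * B, 12 + 1024 * b, 12 + 32 * b, ld (LL gk 0) gz Dz, max T0 3,
    le_max_right _ _, by linarith [H.B0], by linarith, le_max_right _ _, k, H.reg, ?_⟩
  intro T hT
  exact (hloc T ((le_max_left _ _).trans hT)).mono (le_max_left _ _)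

/-- **a large value of zeta forces many zeros of the heat flow off the line** -/
theorem law_z {κ δ : ℝ} (hδ : 0 < δ) (hκ : δ < 4 * κ) :
    ∃ η : ℝ, 0 < η ∧ ∃ R : ℝ, 0 < R ∧ ∃ T0 : ℝ, 3 ≤ T0 ∧ ∀ T : ℝ, T0 ≤ T →
      T ^ κ ≤ ‖riemannZeta (1 / 2 + T * I)‖ → ∀ lam : ℝ, 0 < lam → lam * Real.log T ≤ δ →
      ∃ S : Finset ℂ, (∀ z ∈ S, LL gk lam z = 0 ∧ η ≤ z.re ∧ |z.im - T| ≤ R) ∧
        η * Real.log T ≤ ∑ z ∈ S, (analyticOrderNatAt (LL gk lam) z : ℝ) := by
  obtain ⟨A, K, μ0, M, Θ, P, T1, hK, hμ0, hM, hT1, k, hReg, hloc⟩ := all_data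
  set ε : ℝ := (4 * κ - δ) / 8 with hε
  have hε0 : 0 < ε := by rw [hε]; linarith
  obtain ⟨η0, hη0, R1, hR1, ℒ0, hℒ0, hfg⟩ := few_growth (K := K) (μ0 := μ0) (δ := 2 * δ) (ε := ε)
    (by linarith) hμ0 (by linarith) hε0
  set X : ℝ := 36 + 4 * ℒ0 + (90 * δ + 3) / ε with hX
  have hX36 : 36 ≤ X := by rw [hX]; linarith [show 0 ≤ (90 * δ + 3) / ε by positivity]
  refine ⟨η0 / 4, by positivity, R1, hR1, T1 + Real.exp X, by linarith [Real.exp_pos X], ?_⟩
  intro T hT hbig lam hlam hl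
  have hTX : Real.exp X ≤ T := by linarith
  have hT1' : T1 ≤ T := by linarith [Real.exp_pos X]
  have hTpos : 0 < T := by linarith
  set L := Real.log T with hL
  have hLX : X ≤ L := by
    rw [hL, Real.le_log_iff_exp_le hTpos]
    exact hTX
  have q0 : 0 ≤ (90 * δ + 3) / ε := by positivity
  have q1 : 36 ≤ L := by linarith
  have q2 : 4 * ℒ0 ≤ L := by linarith
  have q3 : 90 * δ + 3 ≤ ε * L := by
    have : (90 * δ + 3) / ε ≤ L := by linarith
    rw [div_le_iff₀ hε0] at this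
    linarith
  have hD := abs_le.mp (Dz_re (T := T) (by linarith))
  set ℒ := (Dz ((T : ℂ) * I)).re with hℒ
  rw [← hL] at hD
  have hℒ1 : L / 4 ≤ ℒ := by linarith [hD.1]
  have hℒ2 : ℒ ≤ L := by linarith [hD.2]
  have hC := hloc T hT1'
  have hne : ¬ ∀ S : Finset ℂ, (∀ z ∈ S, LL gk lam z = 0 ∧ η0 ≤ z.re ∧ |z.im - T| ≤ R1) →
        ∑ z ∈ S, (analyticOrderNatAt (LL gk lam) z : ℝ) ≤ η0 * ℒ := by
    intro hcon
    have h1 := hfg k hC LL_gk_fe (by linarith) hlam (by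
      rw [← hℒ]
      nlinarith) hcon
    rw [xi_norm (by simp)] at h1
    have hne1 : (1 / 2 + (T : ℂ) * I : ℂ) ≠ 1 := by
      intro h
      have := congrArg im h
      simp at this
      linarith
    have hg : 0 < ‖gz ((T : ℂ) * I)‖ := hC.Γpos
    have h2 : ‖Z1 (1 / 2 + (T : ℂ) * I)‖ / ‖(T : ℂ) * I + 3 / 2‖ ≤
        Real.exp (lam * ℒ ^ 2 + ε * ℒ) := le_of_mul_le_mul_left h1 hg
    have h3 := den_norm (z := (T : ℂ) * I) (by simp)
    rw [Z1_ne hne1, norm_mul, div_le_iff₀ (by linarith)] at h2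
    have h4 : ‖(T : ℂ) * I + 3 / 2‖ ≤ 5 * ‖(1 / 2 + (T : ℂ) * I) - 1‖ := by
      have e1 : (1 / 2 + (T : ℂ) * I) - 1 = (T : ℂ) * I - 1 / 2 := by ring
      rw [e1]
      have h5 : ‖(T : ℂ) * I + 3 / 2‖ ≤ ‖(T : ℂ) * I - 1 / 2‖ + 2 := by
        have : (T : ℂ) * I + 3 / 2 = ((T : ℂ) * I - 1 / 2) + 2 := by ring
        rw [this]
        refine (norm_add_le _ _).trans ?_
        simp
      have h6 : 1 / 2 ≤ ‖(T : ℂ) * I - 1 / 2‖ := by
        have h7 := abs_im_le_norm ((T : ℂ) * I - 1 / 2)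
        have h8 : ((T : ℂ) * I - 1 / 2).im = T := by simp
        rw [h8, abs_of_pos hTpos] at h7
        linarith
      linarith
    have h5 : 0 < ‖(1 / 2 + (T : ℂ) * I) - 1‖ := by
      have := h3.trans h4
      linarith
    have h6 : ‖riemannZeta (1 / 2 + (T : ℂ) * I)‖ ≤ 5 * Real.exp (lam * ℒ ^ 2 + ε * ℒ) := by
      have h7 : ‖(1 / 2 + (T : ℂ) * I) - 1‖ * ‖riemannZeta (1 / 2 + (T : ℂ) * I)‖ ≤
          ‖(1 / 2 + (T : ℂ) * I) - 1‖ * (5 * Real.exp (lam * ℒ ^ 2 + ε * ℒ)) := by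
        refine h2.trans ?_
        calc Real.exp (lam * ℒ ^ 2 + ε * ℒ) * ‖(T : ℂ) * I + 3 / 2‖
            ≤ Real.exp (lam * ℒ ^ 2 + ε * ℒ) * (5 * ‖(1 / 2 + (T : ℂ) * I) - 1‖) := by gcongr
          _ = _ := by ring
      exact le_of_mul_le_mul_left h7 h5
    have h7 : (5 : ℝ) ≤ Real.exp 2 := by
      have h8 : Real.exp 2 = Real.exp 1 * Real.exp 1 := by rw [← Real.exp_add]; norm_num
      have h9 := Real.exp_one_gt_d9
      rw [h8]
      nlinarith
    have h8 : ‖riemannZeta (1 / 2 + (T : ℂ) * I)‖ ≤ Real.exp (2 + (lam * ℒ ^ 2 + ε * ℒ)) := by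
      rw [Real.exp_add]
      refine h6.trans ?_
      gcongr
    have h9 : Real.exp (κ * L) ≤ Real.exp (2 + (lam * ℒ ^ 2 + ε * ℒ)) := by
      refine le_trans (le_of_eq ?_) (hbig.trans h8)
      rw [hL, exp_mul_log hTpos]
    rw [Real.exp_le_exp] at h9
    have h10 : lam * ℒ ^ 2 ≤ δ / 4 * L + 90 * δ := by
      have e1 : ℒ ^ 2 ≤ (L / 2 + 9) ^ 2 := pow_le_pow_left₀ (by linarith) (by linarith [hD.2]) 2
      have e2 : lam * ℒ ^ 2 ≤ lam * (L / 2 + 9) ^ 2 := mul_le_mul_of_nonneg_left e1 hlam.le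
      have e3 : lam * (L / 2 + 9) ^ 2 = (lam * L) * (L / 4 + 9) + 81 * lam := by ring
      have e4 : (lam * L) * (L / 4 + 9) ≤ δ * (L / 4 + 9) := by gcongr
      have e5 : 81 * lam ≤ 81 * δ := by
        have : lam ≤ lam * L := by nlinarith
        linarith
      rw [e3] at e2
      linarith
    have h11 : ε * ℒ ≤ ε * L := by gcongr
    have h12 : κ * L = (δ / 4 + 2 * ε) * L := by rw [hε]; ring
    rw [h12] at h9
    nlinarith
  push Not at hne
  obtain ⟨S, hS1, hS2⟩ := hne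
  refine ⟨S, fun z hz => ⟨(hS1 z hz).1, ?_, (hS1 z hz).2.2⟩, ?_⟩
  · linarith [(hS1 z hz).2.1]
  · refine le_trans ?_ hS2.le
    have := mul_le_mul_of_nonneg_left hℒ1 hη0.le
    linarith

/-- **the local theorem**: small values of zeta near `T` imply that nearly all zeros of the heat
flow near `T` are on the line -/
theorem few_z {δ1 δ ε Y : ℝ} (hδ1 : 0 < δ1) (hδ : δ1 ≤ δ) (hε : 0 < ε) (hY : 0 ≤ Y) :
    ∃ η : ℝ, 0 < η ∧ ∃ R : ℝ, 0 < R ∧ ∃ T0 : ℝ, 3 ≤ T0 ∧ ∀ T : ℝ, T0 ≤ T →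
      (∀ y : ℝ, |y - T| ≤ R → ‖riemannZeta (1 / 2 + y * I)‖ ≤ Real.exp (η * Real.log T)) →
      ∀ lam : ℝ, 0 < lam → δ1 ≤ lam * Real.log T → lam * Real.log T ≤ δ →
      ∀ S : Finset ℂ, (∀ z ∈ S, LL gk lam z = 0 ∧ |z.im - T| ≤ Y) →
        ∑ z ∈ S, ((analyticOrderNatAt (LL gk lam) z : ℝ) - if z.re = 0 then 1 else 0) ≤
          ε * Real.log T := by
  obtain ⟨A, K, μ0, M, Θ, P, T1, hK, hμ0, hM, hT1, k, hReg, hloc⟩ := all_data
  obtain ⟨μ, hμ, W, hW, ℒ0, hℒ0, hoff⟩ := few_off (K := K) (μ0 := μ0) (δ1 := δ1 / 2) (δ := 2 * δ)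
    (ε := ε) (Y := max Y (4 + μ0)) (by linarith) hμ0 (by linarith) (by linarith) hε
    (hY.trans (le_max_left _ _))
  obtain ⟨ℒ1, hℒ1, hfar⟩ := no_far (K := K) (μ0 := μ0) (M := M) (Θ := Θ) (δ1 := δ1 / 2)
    (δ := 2 * δ) (by linarith) hμ0 hM (by linarith) (by linarith)
  obtain ⟨R, hR, T2, hT2, hnear⟩ := near_of_small hμ hW.le
  set X : ℝ := 76 + 4 * ℒ0 + 4 * ℒ1 with hX
  refine ⟨μ / 8, by positivity, R, hR, 2 * T1 + T2 + 2 * Y + Real.exp X, by
    linarith [Real.exp_pos X], ?_⟩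
  intro T hT hsm lam hlam hl1 hl2 S hS
  have hTX : Real.exp X ≤ T := by linarith
  have hTpos : 0 < T := by linarith [Real.exp_pos X]
  set L := Real.log T with hL
  have hLX : X ≤ L := by
    rw [hL, Real.le_log_iff_exp_le hTpos]
    exact hTX
  -- sizes at nearby heights
  have hsize : ∀ T' : ℝ, |T' - T| ≤ Y → T1 ≤ T' ∧ L / 4 ≤ (Dz ((T' : ℂ) * I)).re ∧
      δ1 / 2 ≤ 2 * lam * (Dz ((T' : ℂ) * I)).re ∧ 2 * lam * (Dz ((T' : ℂ) * I)).re ≤ 2 * δ := by
    intro T' hT'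
    have h0 := abs_le.mp hT'
    have h1 : T / 2 ≤ T' := by linarith [Real.exp_pos X]
    have h2 : T' ≤ 2 * T := by linarith [Real.exp_pos X]
    have h3 : 1 ≤ T' := by linarith [Real.exp_pos X]
    have hl2' : Real.log 2 ≤ 1 := by
      have := Real.log_le_sub_one_of_pos (show (0 : ℝ) < 2 by norm_num)
      linarith
    have h4 : L - 1 ≤ Real.log T' := by
      have := Real.log_le_log (by linarith) h1
      rw [Real.log_div (by linarith) (by norm_num)] at this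
      linarith
    have h5 : Real.log T' ≤ L + 1 := by
      have := Real.log_le_log (by linarith) h2
      rw [Real.log_mul (by norm_num) (by linarith)] at this
      linarith
    have hD := abs_le.mp (Dz_re (T := T') h3)
    refine ⟨by linarith [Real.exp_pos X], by linarith [hD.1], ?_, ?_⟩
    · have h6 : L / 2 ≤ 2 * (Dz ((T' : ℂ) * I)).re := by linarith [hD.1]
      have h7 := mul_le_mul_of_nonneg_left h6 hlam.le
      linarith
    · have h6 : 2 * (Dz ((T' : ℂ) * I)).re ≤ 2 * L := by linarith [hD.2]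
      have h7 := mul_le_mul_of_nonneg_left h6 hlam.le
      linarith
  obtain ⟨s1, s2, s3, s4⟩ := hsize T (by rw [sub_self, abs_zero]; exact hY)
  have hfew := hoff k (hloc T s1) (hnear T (by linarith [Real.exp_pos X]) hsm K hK) LL_gk_fe
    (by linarith) hlam s3 s4 S (by
      intro z hz
      obtain ⟨h1, h2⟩ := hS z hz
      refine ⟨h1, ?_, h2.trans (le_max_left _ _)⟩
      obtain ⟨t1, t2, t3, t4⟩ := hsize z.im h2
      by_contra hcon
      push Not at hcon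
      have hbig : 4 + μ0 < |z.re| := (le_max_right _ _).trans_lt hcon
      have hno := hfar k (hloc z.im t1) hReg LL_gk_fe (by linarith) hlam t3 t4 |z.re| hbig.le
      apply hno
      rcases abs_cases z.re with ⟨h3, _⟩ | ⟨h3, _⟩
      · rw [h3]
        rw [re_add_im]
        exact h1
      · rw [h3]
        have e : ((-z.re : ℝ) : ℂ) + (z.im : ℂ) * I = -conj z := by
          apply Complex.ext
          · simp
          · simp
        rw [e]
        have h4 := LL_fe2 k hlam (ε := 1) (fun z => by rw [one_mul]; exact LL_gk_fe z) z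
        rw [h4, h1]
        simp)
  refine hfew.trans ?_
  apply mul_le_mul_of_nonneg_left _ hε.le
  have hD := abs_le.mp (Dz_re (T := T) (by linarith [Real.exp_pos X]))
  linarith [hD.2]

/-- **many simple zeros on the line** -/
theorem many_z {δ1 δ ε h : ℝ} (hδ1 : 0 < δ1) (hδ : δ1 ≤ δ) (hε : 0 < ε) (hh : 0 < h) :
    ∃ η : ℝ, 0 < η ∧ ∃ R : ℝ, 0 < R ∧ ∃ T0 : ℝ, 3 ≤ T0 ∧ ∀ T : ℝ, T0 ≤ T →
      (∀ y : ℝ, |y - T| ≤ R → ‖riemannZeta (1 / 2 + y * I)‖ ≤ Real.exp (η * Real.log T)) →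
      ∀ lam : ℝ, 0 < lam → δ1 ≤ lam * Real.log T → lam * Real.log T ≤ δ →
      ∃ S : Finset ℝ, (∀ y ∈ S, T < y ∧ y < T + h ∧ LL gk lam ((y : ℂ) * I) = 0 ∧
        deriv (LL gk lam) ((y : ℂ) * I) ≠ 0) ∧
        (1 - ε) * (h * Real.log T / (2 * Real.pi)) ≤ (S.card : ℝ) := by
  classical
  have hπ := Real.pi_pos
  have hπ3 := Real.pi_gt_three
  have hπ4 := Real.pi_lt_four
  obtain ⟨A, K, μ0, M, Θ, P, T1, hK, hμ0, hM, hT1, k, hReg, hloc⟩ := all_data
  set e1 : ℝ := min 1 (ε / 4) with he1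
  have he10 : 0 < e1 := lt_min one_pos (by positivity)
  have he11 : e1 ≤ 1 := min_le_left _ _
  have he12 : e1 ≤ ε / 4 := min_le_right _ _
  obtain ⟨μ, hμ, W, hW, ℒ0, hℒ0, hmany⟩ := line_many (K := K) (μ0 := μ0) (δ1 := δ1 / 2)
    (δ := 2 * δ) (ε := e1) (h := h) (by linarith) hμ0 (by linarith) (by linarith) he10 he11 hh
  obtain ⟨ℒ1, hℒ1, hfar⟩ := no_far (K := K) (μ0 := μ0) (M := M) (Θ := Θ) (δ1 := δ1 / 2)
    (δ := 2 * δ) (by linarith) hμ0 hM (by linarith) (by linarith)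
  obtain ⟨μ', hμ', W', hW', ℒ0', hℒ0', hoff⟩ := few_off (K := K) (μ0 := μ0) (δ1 := δ1 / 2)
    (δ := 2 * δ) (ε := ε * h / 16) (Y := h) (by linarith) hμ0 (by linarith) (by linarith)
    (by positivity) hh.le
  obtain ⟨R, hR, T2, hT2, hnear⟩ := near_of_small hμ hW.le
  obtain ⟨R', hR', T2', hT2', hnear'⟩ := near_of_small hμ' hW'.le
  set X : ℝ := 36 + 4 * ℒ0 + 4 * ℒ0' + 4 * ℒ1 + 72 / ε with hX
  have q0 : 0 ≤ 72 / ε := by positivity
  refine ⟨min (μ / 8) (μ' / 8), lt_min (by positivity) (by positivity), R + R', by linarith,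
    T1 + T2 + T2' + Real.exp X, by linarith [Real.exp_pos X], ?_⟩
  intro T hT hsm lam hlam hl1 hl2
  have hTX : Real.exp X ≤ T := by linarith
  have hTpos : 0 < T := by linarith [Real.exp_pos X]
  set L := Real.log T with hL
  have hLX : X ≤ L := by
    rw [hL, Real.le_log_iff_exp_le hTpos]
    exact hTX
  have hL0 : 0 ≤ L := by linarith
  have q1 : 72 ≤ ε * L := by
    have : 72 / ε ≤ L := by linarith
    rw [div_le_iff₀ hε] at this
    linarith
  have hD := abs_le.mp (Dz_re (T := T) (by linarith [Real.exp_pos X]))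
  set ℒ := (Dz ((T : ℂ) * I)).re with hℒ
  rw [← hL] at hD
  have g3 : δ1 / 2 ≤ 2 * lam * ℒ := by
    have h6 : L / 2 ≤ 2 * ℒ := by linarith [hD.1]
    have h7 := mul_le_mul_of_nonneg_left h6 hlam.le
    linarith
  have g4 : 2 * lam * ℒ ≤ 2 * δ := by
    have h6 : 2 * ℒ ≤ 2 * L := by linarith [hD.2]
    have h7 := mul_le_mul_of_nonneg_left h6 hlam.le
    linarith
  have hT1' : T1 ≤ T := by linarith [Real.exp_pos X]
  obtain ⟨S, hS1, hS2⟩ := hmany k (hloc T hT1') (hnear T (by linarith [Real.exp_pos X])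
    (fun y hy => (hsm y (by linarith)).trans (Real.exp_le_exp.mpr
      (mul_le_mul_of_nonneg_right (min_le_left _ _) hL0))) K hK) LL_gk_fe
    (by linarith [hD.1]) hlam g3 g4
  have hoff' := hoff k (hloc T hT1') (hnear' T (by linarith [Real.exp_pos X])
    (fun y hy => (hsm y (by linarith)).trans (Real.exp_le_exp.mpr
      (mul_le_mul_of_nonneg_right (min_le_right _ _) hL0))) K hK) LL_gk_fe
    (by linarith [hD.1]) hlam g3 g4
  -- the multiple zeros
  set F := LL gk lam with hF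
  have hFd : Differentiable ℂ F := k.differentiable lam
  obtain ⟨C, hC⟩ : ∃ C : ℂ, F C ≠ 0 :=
    ⟨_, hfar k (hloc T hT1') hReg LL_gk_fe (by linarith [hD.1]) hlam g3 g4 (4 + μ0) le_rfl⟩
  set Sm := S.filter (fun y : ℝ => deriv F ((y : ℂ) * I) = 0) with hSm
  set Ss := S.filter (fun y : ℝ => ¬ deriv F ((y : ℂ) * I) = 0) with hSs
  have hcard : Sm.card + Ss.card = S.card :=
    Finset.card_filter_add_card_filter_not (fun y : ℝ => deriv F ((y : ℂ) * I) = 0)
  have hord1 : ∀ y ∈ S, 1 ≤ analyticOrderNatAt F ((y : ℂ) * I) := fun y hy =>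
    order_ge_one hFd hC (hS1 y hy).2.2
  have hord2 : ∀ y ∈ Sm, 2 ≤ analyticOrderNatAt F ((y : ℂ) * I) := fun y hy =>
    order_ge_two hFd hC (hS1 y (Finset.mem_filter.mp hy).1).2.2 (Finset.mem_filter.mp hy).2
  have hsum := hoff' (S.image (fun y : ℝ => (y : ℂ) * I)) (by
    intro z hz
    obtain ⟨y, hy, rfl⟩ := Finset.mem_image.mp hz
    obtain ⟨b1, b2, b3⟩ := hS1 y hy
    refine ⟨b3, ?_, ?_⟩
    · simp only [mul_re, ofReal_re, I_re, mul_zero, ofReal_im, I_im, mul_one, sub_self, abs_zero]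
      exact hh.le
    · have : ((y : ℂ) * I).im = y := by simp
      rw [this, abs_le]
      constructor <;> linarith)
  rw [Finset.sum_image (fun a _ b _ h => by
    have h2 := mul_right_cancel₀ I_ne_zero h
    exact_mod_cast h2)] at hsum
  have hmul : (Sm.card : ℝ) ≤ ε * h / 16 * ℒ := by
    refine le_trans ?_ hsum
    calc (Sm.card : ℝ) = ∑ _y ∈ Sm, (1 : ℝ) := by rw [Finset.sum_const, nsmul_eq_mul, mul_one]
      _ ≤ ∑ y ∈ Sm, ((analyticOrderNatAt F ((y : ℂ) * I) : ℝ) -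
          if ((y : ℂ) * I).re = 0 then 1 else 0) := by
          refine Finset.sum_le_sum fun y hy => ?_
          have h1 : (2 : ℝ) ≤ (analyticOrderNatAt F ((y : ℂ) * I) : ℝ) := by
            exact_mod_cast hord2 y hy
          have h2 : ((y : ℂ) * I).re = 0 := by simp
          rw [if_pos h2]
          linarith
      _ ≤ _ := by
          refine Finset.sum_le_sum_of_subset_of_nonneg (Finset.filter_subset _ _) fun y hy _ => ?_
          have h1 : (1 : ℝ) ≤ (analyticOrderNatAt F ((y : ℂ) * I) : ℝ) := by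
            exact_mod_cast hord1 y hy
          have h2 : ((y : ℂ) * I).re = 0 := by simp
          rw [if_pos h2]
          linarith
  refine ⟨Ss, ?_, ?_⟩
  · intro y hy
    obtain ⟨h1, h2⟩ := Finset.mem_filter.mp hy
    obtain ⟨b1, b2, b3⟩ := hS1 y h1
    exact ⟨b1, b2, b3, h2⟩
  · have hc : (Sm.card : ℝ) + (Ss.card : ℝ) = (S.card : ℝ) := by exact_mod_cast hcard
    have h1 : ε * h / 16 * ℒ ≤ ε / 2 * (h * L / (2 * Real.pi)) := by
      have h2 : ε * h / 16 * ℒ ≤ ε * h / 16 * L := by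
        apply mul_le_mul_of_nonneg_left _ (by positivity)
        linarith [hD.2]
      refine h2.trans ?_
      have h3 : ε / 2 * (h * L / (2 * Real.pi)) = ε * h * L * (1 / (4 * Real.pi)) := by
        ring
      rw [h3]
      have h4 : (1 : ℝ) / 16 ≤ 1 / (4 * Real.pi) := by
        apply one_div_le_one_div_of_le (by positivity)
        linarith
      have h5 : 0 ≤ ε * h * L := by positivity
      nlinarith
    have h2 : (1 - ε / 4) * (1 - e1) * (h * L / (2 * Real.pi)) ≤ (1 - e1) * (h * ℒ / Real.pi) := by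
      have h3 : (1 - ε / 4) * (L / 2) ≤ ℒ := by linarith [hD.1]
      have h4 : (1 - ε / 4) * (1 - e1) * (h * L / (2 * Real.pi)) =
          (1 - e1) * (h / Real.pi) * ((1 - ε / 4) * (L / 2)) := by
        field_simp
      have h5 : (1 - e1) * (h * ℒ / Real.pi) = (1 - e1) * (h / Real.pi) * ℒ := by ring
      rw [h4, h5]
      apply mul_le_mul_of_nonneg_left h3
      have : 0 ≤ 1 - e1 := by linarith
      positivity
    have h3 : (1 - ε / 2) * (h * L / (2 * Real.pi)) ≤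
        (1 - ε / 4) * (1 - e1) * (h * L / (2 * Real.pi)) := by
      apply mul_le_mul_of_nonneg_right _ (by positivity)
      rcases le_total ε 4 with h4 | h4
      · nlinarith
      · have : e1 = 1 := by
          rw [he1]
          exact min_eq_left (by linarith)
        rw [this]
        linarith
    linarith

end Pool.Agent.H466.LD
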