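import Pool.Agent.H466.LD.L2

/-!
# The size of the heat flow to the right: lower bound
-/

set_option autoImplicit false

open Complex MeasureTheory Filter Topology Set
open scoped ComplexConjugate

namespace Pool.Agent.H466.LD

open Pool.Agent.H466.HF

variable {g : ℝ → ℂ} {A c : ℝ} {P : ℂ → ℂ} {T ℒ Γ0 K μ0 lam δ : ℝ}

lemma abs_mul_exp_le {lam : ℝ} (hlam : 0 < lam) (u : ℝ) :
    |u| * Real.exp (-(u ^ 2 / (8 * lam))) ≤ 4 * Real.sqrt lam * Real.exp (-u ^ 2 / (16 * lam)) := by
  have hs : 0 < Real.sqrt lam := Real.sqrt_pos.mpr hlam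
  have hs2 : Real.sqrt lam ^ 2 = lam := Real.sq_sqrt hlam.le
  have h1 : Real.exp (-(u ^ 2 / (8 * lam))) =
      Real.exp (-u ^ 2 / (16 * lam)) * Real.exp (-(u ^ 2 / (16 * lam))) := by
    rw [← Real.exp_add]
    congr 1
    field_simp
    ring
  have h2 : |u| * Real.exp (-(u ^ 2 / (16 * lam))) ≤ 4 * Real.sqrt lam := by
    rw [Real.exp_neg, ← div_eq_mul_inv, div_le_iff₀ (Real.exp_pos _)]
    have h3 := Real.add_one_le_exp (u ^ 2 / (16 * lam))
    have h4 : |u| ≤ 4 * Real.sqrt lam * (u ^ 2 / (16 * lam) + 1) := by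
      have h5 : u ^ 2 / (16 * lam) = (|u| / (4 * Real.sqrt lam)) ^ 2 := by
        rw [div_pow, mul_pow, hs2, sq_abs]
        norm_num
      rw [h5]
      set t := |u| / (4 * Real.sqrt lam) with ht
      have h6 : |u| = t * (4 * Real.sqrt lam) := by
        rw [ht]
        field_simp
      rw [h6]
      have : t ≤ t ^ 2 + 1 := by nlinarith [sq_nonneg (t - 1 / 2)]
      nlinarith
    refine h4.trans ?_
    gcongr
  rw [h1, mul_left_comm]
  calc Real.exp (-u ^ 2 / (16 * lam)) * (|u| * Real.exp (-(u ^ 2 / (16 * lam))))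
      ≤ Real.exp (-u ^ 2 / (16 * lam)) * (4 * Real.sqrt lam) := by gcongr
    _ = _ := by ring

lemma mexp (M : ℝ) {a b c d : ℝ} (h : a + b = c + d) :
    (M * Real.exp a) * Real.exp b = M * Real.exp c * Real.exp d := by
  rw [mul_assoc, mul_assoc, ← Real.exp_add, ← Real.exp_add, h]

lemma mexp3 (M : ℝ) {a b c d e : ℝ} (h : a + b = c + (d + e)) :
    (M * Real.exp a) * Real.exp b = M * Real.exp c * (Real.exp d * Real.exp e) := by
  rw [mul_assoc, mul_assoc, ← Real.exp_add, ← Real.exp_add, ← Real.exp_add, h]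

/-- pointwise comparison with the exponential function -/
lemma compare (C : Loc (LL g 0) P T ℒ Γ0 K μ0) (hlam : 0 < lam)
    (hδ : 2 * lam * ℒ ≤ δ) {z : ℂ} (hz : 4 + μ0 ≤ z.re) {H : ℝ}
    (hH : (z.re + δ + 1) ^ 2 + (z.im - T) ^ 2 + 1 ≤ H) (v : ℝ) :
    ‖LL g 0 (z + v) - LL g 0 (z + ((2 * lam * ℒ : ℝ) : ℂ)) *
      ((Real.exp (ℒ * (v - 2 * lam * ℒ)) : ℝ) : ℂ)‖ ≤
      ‖LL g 0 (z + ((2 * lam * ℒ : ℝ) : ℂ))‖ * Real.exp (-(ℒ * (2 * lam * ℒ))) *
        (Real.exp (4 * (K * H)) * (|v - 2 * lam * ℒ| * Real.exp (ℒ * v + 2 * K * v ^ 2)) +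
        Real.exp (4 * (K * H) - ℒ) * Real.exp (ℒ * |v| + 2 * K * v ^ 2)) := by
  set v0 : ℝ := 2 * lam * ℒ with hv0
  have hK := C.K1
  have hℒ := C.ℒ1
  have hμ := C.μpos
  have hΓ := C.Γpos
  have hv0p : 0 ≤ v0 := by positivity
  set x := z.re with hx
  set M0 := ‖LL g 0 (z + (v0 : ℂ))‖ with hM0
  have hre : ∀ u : ℝ, (z + (u : ℂ)).re = x + u := fun u => by simp [hx]
  have him : ∀ u : ℝ, (z + (u : ℂ)).im = z.im := fun u => by simp
  have hx4 : 4 ≤ x := by linarith
  have hH1 : 1 ≤ H := by nlinarith [sq_nonneg (x + δ + 1), sq_nonneg (z.im - T)]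
  have hKH : 1 ≤ K * H := by nlinarith
  have hlow : Γ0 * Real.exp (ℒ * (x + v0) - K * H) ≤ M0 := by
    refine le_trans ?_ (C.low (z + (v0 : ℂ)) (by rw [hre]; linarith))
    apply mul_le_mul_of_nonneg_left _ hΓ.le
    apply Real.exp_le_exp.mpr
    rw [hre, him]
    have : K * (1 + (x + v0) ^ 2 + (z.im - T) ^ 2) ≤ K * H := by
      apply mul_le_mul_of_nonneg_left _ (by linarith)
      nlinarith
    linarith
  have hM0p : 0 < M0 := lt_of_lt_of_le (by positivity) hlow
  have hΓM : Γ0 ≤ M0 * Real.exp (-(ℒ * (x + v0)) + K * H) := by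
    have h1 : Γ0 = Γ0 * Real.exp (ℒ * (x + v0) - K * H) * Real.exp (-(ℒ * (x + v0)) + K * H) := by
      rw [mul_assoc, ← Real.exp_add]
      have : ℒ * (x + v0) - K * H + (-(ℒ * (x + v0)) + K * H) = 0 := by ring
      rw [this, Real.exp_zero, mul_one]
    calc Γ0 = Γ0 * Real.exp (ℒ * (x + v0) - K * H) * Real.exp (-(ℒ * (x + v0)) + K * H) := h1
      _ ≤ _ := by gcongr
  have hnorm : ∀ u : ℝ, ‖LL g 0 (z + (v0 : ℂ)) * ((Real.exp (ℒ * (u - v0)) : ℝ) : ℂ)‖ =
      M0 * Real.exp (ℒ * (u - v0)) := fun u => by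
    rw [norm_mul, Complex.norm_real, Real.norm_eq_abs, abs_of_pos (Real.exp_pos _)]
  have h2e : 2 ≤ Real.exp (K * H) := by
    have := Real.add_one_le_exp (K * H)
    linarith
  have h3KH : K * (1 + 2 * x ^ 2 + (z.im - T) ^ 2) ≤ 2 * (K * H) := by
    have : K * (1 + 2 * x ^ 2 + (z.im - T) ^ 2) ≤ K * (2 * H) := by
      apply mul_le_mul_of_nonneg_left _ (by linarith)
      nlinarith [sq_nonneg (z.im - T)]
    linarith
  rcases le_or_gt |v - v0| 1 with h1 | h1
  · -- near the saddle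
    have hv := abs_le.mp h1
    have hs : Convex ℝ (Icc (v0 - 1) (v0 + 1)) := convex_Icc _ _
    set f : ℝ → ℂ := fun u => LL g 0 (z + (u : ℂ)) * ((Real.exp (-(ℒ * (u - v0))) : ℝ) : ℂ) with hf
    set d : ℝ → ℂ := fun u => P (z + (u : ℂ)) - ℒ with hd
    set κ : ℝ := 2 * (K * H) with hκ
    have hder : ∀ u ∈ Icc (v0 - 1) (v0 + 1), HasDerivAt f (f u * d u) u := by
      intro u hu
      have hline : HasDerivAt (fun u : ℝ => z + (u : ℂ)) 1 u := by
        have := (hasDerivAt_id u).ofReal_comp.const_add z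
        simpa using this
      have h2' := (C.der (z + (u : ℂ)) (by rw [hre]; linarith [hu.1])).comp u hline
      have h2 : HasDerivAt (fun u : ℝ => LL g 0 (z + (u : ℂ)))
          (LL g 0 (z + (u : ℂ)) * P (z + (u : ℂ)) * 1) u := h2'
      have h3 : HasDerivAt (fun u : ℝ => ((Real.exp (-(ℒ * (u - v0))) : ℝ) : ℂ))
          ((Real.exp (-(ℒ * (u - v0))) * (-ℒ) : ℝ) : ℂ) u := by
        have h4 : HasDerivAt (fun u : ℝ => Real.exp (-(ℒ * (u - v0))))
            (Real.exp (-(ℒ * (u - v0))) * (-ℒ)) u := by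
          have h5 : HasDerivAt (fun u : ℝ => -(ℒ * (u - v0))) (-ℒ) u := by
            have := ((hasDerivAt_id' u).sub_const v0).const_mul (-ℒ)
            refine (this.congr_deriv (by ring)).congr_of_eventuallyEq
              (Eventually.of_forall fun w => ?_)
            simp only
            ring
          exact h5.exp
        exact h4.ofReal_comp
      have h6 := h2.mul h3
      refine h6.congr_deriv ?_
      simp only [hf, hd, ofReal_mul, ofReal_neg]
      ring
    have hdb : ∀ u ∈ Icc (v0 - 1) (v0 + 1), ‖d u‖ ≤ κ := by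
      intro u hu
      have h2 := C.dP (z + (u : ℂ)) (by rw [hre]; linarith [hu.1])
      rw [hre, him] at h2
      refine h2.trans ?_
      rw [hκ]
      have h3 : 1 + (x + u) + |z.im - T| ≤ 2 * H := by
        have h4 : |z.im - T| ≤ (z.im - T) ^ 2 + 1 := by
          rw [← sq_abs]
          nlinarith [sq_nonneg (|z.im - T| - 1 / 2)]
        have h5 := hu.2
        nlinarith [sq_nonneg (x + δ + 1 - 1)]
      nlinarith
    have hne : ∀ u ∈ Icc (v0 - 1) (v0 + 1), f u ≠ 0 := by
      intro u hu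
      have h2 := C.low (z + (u : ℂ)) (by rw [hre]; linarith [hu.1])
      have h3 : 0 < ‖LL g 0 (z + (u : ℂ))‖ := lt_of_lt_of_le (by positivity) h2
      refine mul_ne_zero (norm_pos_iff.mp h3) ?_
      exact_mod_cast (Real.exp_pos _).ne'
    have hv0mem : v0 ∈ Icc (v0 - 1) (v0 + 1) := ⟨by linarith, by linarith⟩
    have hvmem : v ∈ Icc (v0 - 1) (v0 + 1) := ⟨by linarith, by linarith⟩
    have hf0 : f v0 = LL g 0 (z + (v0 : ℂ)) := by
      simp only [hf]
      rw [sub_self, mul_zero, neg_zero, Real.exp_zero, ofReal_one, mul_one]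
    have hfb : ∀ u ∈ Icc (v0 - 1) (v0 + 1), ‖f u‖ ≤ M0 * Real.exp κ := by
      intro u hu
      have h2 := growth_on hs hder hne (C := κ) (fun w hw => (abs_re_le_norm _).trans (hdb w hw))
        hv0mem hu
      rw [hf0] at h2
      refine h2.trans ?_
      apply mul_le_mul_of_nonneg_left _ hM0p.le
      apply Real.exp_le_exp.mpr
      have h3 : |u - v0| ≤ 1 := abs_le.mpr ⟨by linarith [hu.1], by linarith [hu.2]⟩
      have : 0 ≤ κ := by rw [hκ]; linarith
      nlinarith [abs_nonneg (u - v0)]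
    have h7 := hs.norm_image_sub_le_of_norm_hasDerivWithin_le
      (f := f) (f' := fun u => f u * d u) (C := M0 * Real.exp κ * κ)
      (fun u hu => (hder u hu).hasDerivWithinAt) (fun u hu => by
        rw [norm_mul]
        exact mul_le_mul (hfb u hu) (hdb u hu) (norm_nonneg _) (by positivity)) hv0mem hvmem
    have h8 : LL g 0 (z + v) - LL g 0 (z + (v0 : ℂ)) * ((Real.exp (ℒ * (v - v0)) : ℝ) : ℂ) =
        (f v - f v0) * ((Real.exp (ℒ * (v - v0)) : ℝ) : ℂ) := by
      rw [hf0, sub_mul]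
      congr 1
      simp only [hf]
      rw [mul_assoc, ← ofReal_mul, ← Real.exp_add]
      have : -(ℒ * (v - v0)) + ℒ * (v - v0) = 0 := by ring
      rw [this, Real.exp_zero, ofReal_one, mul_one]
    rw [h8, norm_mul, Complex.norm_real, Real.norm_eq_abs, abs_of_pos (Real.exp_pos _)]
    rw [Real.norm_eq_abs] at h7
    have h9 : Real.exp κ * κ ≤ Real.exp (4 * (K * H)) := by
      have h10 : κ ≤ Real.exp κ := by linarith [Real.add_one_le_exp κ]
      calc Real.exp κ * κ ≤ Real.exp κ * Real.exp κ := by gcongr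
        _ = _ := by rw [← Real.exp_add]; congr 1; rw [hκ]; ring
    have h11 : Real.exp (ℒ * (v - v0)) = Real.exp (-(ℒ * v0)) * Real.exp (ℒ * v) := by
      rw [← Real.exp_add]; congr 1; ring
    have h12 : Real.exp (ℒ * v) ≤ Real.exp (ℒ * v + 2 * K * v ^ 2) := by
      apply Real.exp_le_exp.mpr
      have : 0 ≤ 2 * K * v ^ 2 := by positivity
      linarith
    calc ‖f v - f v0‖ * Real.exp (ℒ * (v - v0))
        ≤ (M0 * Real.exp κ * κ * |v - v0|) * Real.exp (ℒ * (v - v0)) := by gcongr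
      _ = M0 * Real.exp (-(ℒ * v0)) * ((Real.exp κ * κ) * (|v - v0| * Real.exp (ℒ * v))) := by
          rw [h11]; ring
      _ ≤ M0 * Real.exp (-(ℒ * v0)) * (Real.exp (4 * (K * H)) *
          (|v - v0| * Real.exp (ℒ * v + 2 * K * v ^ 2))) := by gcongr
      _ ≤ _ := by
          apply mul_le_mul_of_nonneg_left _ (by positivity)
          have : 0 ≤ Real.exp (4 * (K * H) - ℒ) * Real.exp (ℒ * |v| + 2 * K * v ^ 2) := by positivity
          linarith
  · -- away from the saddle
    refine (norm_sub_le _ _).trans ?_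
    rw [hnorm]
    have h11 : Real.exp (ℒ * (v - v0)) = Real.exp (-(ℒ * v0)) * Real.exp (ℒ * v) := by
      rw [← Real.exp_add]; congr 1; ring
    have h12 : Real.exp (ℒ * v) ≤ Real.exp (ℒ * v + 2 * K * v ^ 2) := by
      apply Real.exp_le_exp.mpr
      have : 0 ≤ 2 * K * v ^ 2 := by positivity
      linarith
    have h13 : K * (1 + (x + v) ^ 2 + (z.im - T) ^ 2) ≤ 2 * (K * H) + 2 * K * v ^ 2 := by
      have h14 := sq_add_le x v
      have h15 : K * (1 + (x + v) ^ 2 + (z.im - T) ^ 2) ≤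
          K * (1 + (2 * x ^ 2 + 2 * v ^ 2) + (z.im - T) ^ 2) := by gcongr
      nlinarith
    rcases le_or_gt (3 / 2) (x + v) with h2 | h2
    · have h3 := C.right (z + (v : ℂ)) (by rw [hre]; exact h2)
      rw [hre, him] at h3
      have h4 : ‖LL g 0 (z + v)‖ ≤ M0 * Real.exp (-(ℒ * v0)) *
          (Real.exp (3 * (K * H)) * Real.exp (ℒ * v + 2 * K * v ^ 2)) := by
        calc ‖LL g 0 (z + v)‖ ≤ Γ0 * Real.exp (ℒ * (x + v) +
              K * (1 + (x + v) ^ 2 + (z.im - T) ^ 2)) := h3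
          _ ≤ (M0 * Real.exp (-(ℒ * (x + v0)) + K * H)) * Real.exp (ℒ * (x + v) +
              (2 * (K * H) + 2 * K * v ^ 2)) := by gcongr
          _ = _ := mexp3 M0 (by ring)
      have h5 : M0 * Real.exp (ℒ * (v - v0)) ≤ M0 * Real.exp (-(ℒ * v0)) *
          Real.exp (ℒ * v + 2 * K * v ^ 2) := by
        rw [h11, ← mul_assoc]
        gcongr
      have h6 : Real.exp (3 * (K * H)) + 1 ≤ Real.exp (4 * (K * H)) := by
        have h7 : Real.exp (4 * (K * H)) = Real.exp (3 * (K * H)) * Real.exp (K * H) := by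
          rw [← Real.exp_add]; congr 1; ring
        rw [h7]
        have h8 : 1 ≤ Real.exp (3 * (K * H)) := Real.one_le_exp (by linarith)
        nlinarith
      calc ‖LL g 0 (z + v)‖ + M0 * Real.exp (ℒ * (v - v0))
          ≤ M0 * Real.exp (-(ℒ * v0)) *
            ((Real.exp (3 * (K * H)) + 1) * (1 * Real.exp (ℒ * v + 2 * K * v ^ 2))) := by
            have := add_le_add h4 h5
            refine this.trans (le_of_eq ?_)
            ring
        _ ≤ M0 * Real.exp (-(ℒ * v0)) * (Real.exp (4 * (K * H)) *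
            (|v - v0| * Real.exp (ℒ * v + 2 * K * v ^ 2))) := by gcongr
        _ ≤ _ := by
            apply mul_le_mul_of_nonneg_left _ (by positivity)
            have : 0 ≤ Real.exp (4 * (K * H) - ℒ) * Real.exp (ℒ * |v| + 2 * K * v ^ 2) := by
              positivity
            linarith
    · have h3 := C.up (z + (v : ℂ))
      rw [hre, him] at h3
      have habs : |x + v| + μ0 ≤ |v| - x - 1 + 2 * x := by
        rcases le_total 0 (x + v) with h6 | h6
        · rw [abs_of_nonneg h6]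
          have : v < 0 := by linarith
          rw [abs_of_neg this]
          linarith
        · rw [abs_of_nonpos h6]
          have := neg_abs_le v
          linarith
      have habs2 : |x + v| + μ0 ≤ |v| + x - 1 := by linarith
      have habs3 : |x + v| + μ0 - x ≤ |v| - 1 := by linarith
      have h4 : ‖LL g 0 (z + v)‖ ≤ M0 * Real.exp (-(ℒ * v0)) *
          (Real.exp (4 * (K * H) - ℒ) * Real.exp (ℒ * |v| + 2 * K * v ^ 2)) := by
        calc ‖LL g 0 (z + v)‖ ≤ Γ0 * Real.exp (ℒ * (|x + v| + μ0) +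
              K * (1 + (x + v) ^ 2 + (z.im - T) ^ 2)) := h3
          _ ≤ (M0 * Real.exp (-(ℒ * (x + v0)) + K * H)) * Real.exp (ℒ * (|x + v| + μ0) +
              (2 * (K * H) + 2 * K * v ^ 2)) := by gcongr
          _ = M0 * Real.exp (-(ℒ * v0)) * Real.exp (ℒ * (|x + v| + μ0 - x) +
              (3 * (K * H) + 2 * K * v ^ 2)) := mexp M0 (by ring)
          _ ≤ M0 * Real.exp (-(ℒ * v0)) * Real.exp (ℒ * (|v| - 1) +
              (4 * (K * H) + 2 * K * v ^ 2)) := by
              apply mul_le_mul_of_nonneg_left _ (by positivity)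
              apply Real.exp_le_exp.mpr
              have : ℒ * (|x + v| + μ0 - x) ≤ ℒ * (|v| - 1) := by gcongr
              linarith
          _ = _ := by
              rw [← Real.exp_add]
              congr 2
              ring
      have h5 : M0 * Real.exp (ℒ * (v - v0)) ≤ M0 * Real.exp (-(ℒ * v0)) *
          (Real.exp (4 * (K * H)) * (|v - v0| * Real.exp (ℒ * v + 2 * K * v ^ 2))) := by
        rw [h11, ← mul_assoc]
        apply mul_le_mul_of_nonneg_left _ (by positivity)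
        have h8 : 1 ≤ Real.exp (4 * (K * H)) := Real.one_le_exp (by linarith)
        calc Real.exp (ℒ * v) ≤ 1 * (1 * Real.exp (ℒ * v + 2 * K * v ^ 2)) := by linarith
          _ ≤ _ := by gcongr
      rw [mul_add]
      linarith

end Pool.Agent.H466.LD
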