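import Pool.Agent.H466.LD.L3

/-!
# The size of the heat flow to the right: lower bound, second part
-/

set_option autoImplicit false

open Complex MeasureTheory Filter Topology Set
open scoped ComplexConjugate

namespace Pool.Agent.H466.LD

open Pool.Agent.H466.HF

variable {g : ℝ → ℂ} {A c : ℝ} {P : ℂ → ℂ} {T ℒ Γ0 K μ0 lam δ : ℝ}

/-- lower bound to the right -/
lemma Flow (k : Kern g A c) (C : Loc (LL g 0) P T ℒ Γ0 K μ0) (hlam : 0 < lam)
    (hδ : 2 * lam * ℒ ≤ δ) {z : ℂ} (hz : 4 + μ0 ≤ z.re) {H : ℝ}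
    (hH : (z.re + δ + 1) ^ 2 + (z.im - T) ^ 2 + 1 ≤ H) (h1 : 32 * K * lam ≤ 1)
    (h2 : 32 * Real.exp (8 * (K * H)) * Real.sqrt lam ≤ 1) (h3 : 8 * (K * H) + 4 ≤ ℒ) :
    Γ0 * Real.exp (ℒ * z.re + lam * ℒ ^ 2 - K * H) / 2 ≤ ‖LL g lam z‖ := by
  have hK := C.K1
  have hℒ := C.ℒ1
  have hμ := C.μpos
  have hΓ := C.Γpos
  have hS := sqrt_pos' hlam
  set S := Real.sqrt (Real.pi * (4 * lam)) with hSd
  set v0 : ℝ := 2 * lam * ℒ with hv0
  have hv0p : 0 ≤ v0 := by positivity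
  have hδ0 : 0 ≤ δ := hv0p.trans hδ
  set M0 := ‖LL g 0 (z + (v0 : ℂ))‖ with hM0
  have hre : ∀ u : ℝ, (z + (u : ℂ)).re = z.re + u := fun u => by simp
  have him : ∀ u : ℝ, (z + (u : ℂ)).im = z.im := fun u => by simp
  have hx4 : 4 ≤ z.re := by linarith
  have hH1 : 1 ≤ H := by nlinarith [sq_nonneg (z.re + δ + 1), sq_nonneg (z.im - T)]
  have hKH : 1 ≤ K * H := by nlinarith
  have hlow : Γ0 * Real.exp (ℒ * (z.re + v0) - K * H) ≤ M0 := by
    refine le_trans ?_ (C.low (z + (v0 : ℂ)) (by rw [hre]; linarith))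
    apply mul_le_mul_of_nonneg_left _ hΓ.le
    apply Real.exp_le_exp.mpr
    rw [hre, him]
    have : K * (1 + (z.re + v0) ^ 2 + (z.im - T) ^ 2) ≤ K * H := by
      apply mul_le_mul_of_nonneg_left _ (by linarith)
      nlinarith
    linarith
  have hM0p : 0 < M0 := lt_of_lt_of_le (by positivity) hlow
  set f : ℝ → ℂ := fun v => LL g 0 (z + v) * (Real.exp (-v ^ 2 / (4 * lam)) : ℂ) with hf
  set h : ℝ → ℂ := fun v => LL g 0 (z + (v0 : ℂ)) * ((Real.exp (ℒ * (v - v0)) : ℝ) : ℂ) *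
    (Real.exp (-v ^ 2 / (4 * lam)) : ℂ) with hh
  -- integrability of the integrand
  have hcont : Continuous fun v : ℝ => LL g 0 (z + v) :=
    (k.differentiable 0).continuous.comp (by fun_prop)
  have hfi : Integrable f := by
    obtain ⟨i1, -⟩ := gauss_norm (ℒ := ℒ) (K := 2 * K) hlam (by linarith) (by linarith)
    refine (i1.const_mul (Γ0 * Real.exp (ℒ * (|z.re| + μ0) +
      K * (1 + 2 * z.re ^ 2 + (z.im - T) ^ 2)))).mono'
      (Continuous.aestronglyMeasurable (by fun_prop)) (Eventually.of_forall fun v => ?_)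
    simp only [hf]
    rw [norm_mul, Complex.norm_real, Real.norm_eq_abs, abs_of_pos (Real.exp_pos _), ← mul_assoc]
    apply mul_le_mul_of_nonneg_right _ (Real.exp_pos _).le
    refine (C.up (z + v)).trans ?_
    rw [mul_assoc, ← Real.exp_add]
    apply mul_le_mul_of_nonneg_left _ hΓ.le
    apply Real.exp_le_exp.mpr
    rw [hre, him]
    have h4 : |z.re + v| ≤ |z.re| + |v| := abs_add_le _ _
    have h5 := sq_add_le z.re v
    have h6 : ℒ * (|z.re + v| + μ0) ≤ ℒ * (|z.re| + |v| + μ0) := by gcongr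
    have h7 : K * (1 + (z.re + v) ^ 2 + (z.im - T) ^ 2) ≤
        K * (1 + (2 * z.re ^ 2 + 2 * v ^ 2) + (z.im - T) ^ 2) := by gcongr
    nlinarith
  obtain ⟨j1, j2⟩ := gauss_shift (a := ℒ) (b := 1 / (4 * lam)) (by positivity)
  have he : ∀ v : ℝ, h v = (LL g 0 (z + (v0 : ℂ)) * ((Real.exp (-(ℒ * v0)) : ℝ) : ℂ)) *
      ((Real.exp (ℒ * v - 1 / (4 * lam) * v ^ 2) : ℝ) : ℂ) := by
    intro v
    simp only [hh]
    rw [mul_assoc, mul_assoc, ← ofReal_mul, ← ofReal_mul, ← Real.exp_add, ← Real.exp_add]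
    congr 3
    field_simp
    ring
  have hhi : Integrable h := by
    have : h = fun v : ℝ => (LL g 0 (z + (v0 : ℂ)) * ((Real.exp (-(ℒ * v0)) : ℝ) : ℂ)) *
      ((Real.exp (ℒ * v - 1 / (4 * lam) * v ^ 2) : ℝ) : ℂ) := funext he
    rw [this]
    exact j1.ofReal.const_mul _
  have hhint : ∫ v, h v = (LL g 0 (z + (v0 : ℂ)) * ((Real.exp (-(ℒ * v0)) : ℝ) : ℂ)) *
      ((S * Real.exp (lam * ℒ ^ 2) : ℝ) : ℂ) := by
    simp_rw [he]
    rw [integral_const_mul, integral_complex_ofReal, j2]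
    congr 3
    · rw [hSd]
      congr 1
      field_simp
    · congr 1
      field_simp
  have hfint : ∫ v, f v = (S : ℂ) * LL g lam z := k.heat_eq hlam z
  -- the bound of the difference
  set E1 := Real.exp (4 * (K * H)) with hE1
  set E2 := Real.exp (4 * (K * H) - ℒ) with hE2
  set R := M0 * Real.exp (-(ℒ * v0)) with hR
  have hRp : 0 < R := by positivity
  obtain ⟨i1, i2⟩ := gauss_norm (ℒ := ℒ) (K := 2 * K) hlam (by linarith) (by linarith)
  have g1 : Integrable (fun v : ℝ => ga (16 * lam) (v - v0)) :=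
    (ga_integrable (k := 16 * lam) (by positivity)).comp_sub_right v0
  have g2 : ∫ v : ℝ, ga (16 * lam) (v - v0) = 2 * S := by
    rw [integral_sub_right_eq_self (fun v : ℝ => ga (16 * lam) v), ga_integral (by positivity), hSd]
    rw [show Real.pi * (16 * lam) = (2 : ℝ) ^ 2 * (Real.pi * (4 * lam)) by ring,
      Real.sqrt_mul (by norm_num), Real.sqrt_sq (by norm_num)]
  have hbd : ∀ v : ℝ, ‖f v - h v‖ ≤
      R * (E1 * Real.exp (lam * ℒ ^ 2 + 4 * K * δ ^ 2) * (4 * Real.sqrt lam)) * ga (16 * lam) (v - v0) +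
      R * E2 * (Real.exp (ℒ * |v| + 2 * K * v ^ 2) * Real.exp (-v ^ 2 / (4 * lam))) := by
    intro v
    have h4 := compare C hlam hδ hz hH v
    have h5 : f v - h v = (LL g 0 (z + v) - LL g 0 (z + (v0 : ℂ)) *
        ((Real.exp (ℒ * (v - v0)) : ℝ) : ℂ)) * (Real.exp (-v ^ 2 / (4 * lam)) : ℂ) := by
      simp only [hf, hh]
      ring
    rw [h5, norm_mul, Complex.norm_real, Real.norm_eq_abs, abs_of_pos (Real.exp_pos _)]
    refine (mul_le_mul_of_nonneg_right h4 (Real.exp_pos _).le).trans ?_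
    have h6 : |v - v0| * Real.exp (ℒ * v + 2 * K * v ^ 2) * Real.exp (-v ^ 2 / (4 * lam)) ≤
        Real.exp (lam * ℒ ^ 2 + 4 * K * δ ^ 2) * (4 * Real.sqrt lam) * ga (16 * lam) (v - v0) := by
      have h7 : Real.exp (ℒ * v + 2 * K * v ^ 2) * Real.exp (-v ^ 2 / (4 * lam)) ≤
          Real.exp (lam * ℒ ^ 2 + 4 * K * δ ^ 2) * Real.exp (-((v - v0) ^ 2 / (8 * lam))) := by
        rw [← Real.exp_add, ← Real.exp_add]
        apply Real.exp_le_exp.mpr
        have h8 : ℒ * v + -v ^ 2 / (4 * lam) = lam * ℒ ^ 2 - (v - v0) ^ 2 / (4 * lam) := by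
          rw [hv0]
          field_simp
          ring
        have h9 : 2 * K * v ^ 2 ≤ 4 * K * (v - v0) ^ 2 + 4 * K * δ ^ 2 := by
          have h10 := sq_add_le (v - v0) v0
          rw [sub_add_cancel] at h10
          have h11 : v0 ^ 2 ≤ δ ^ 2 := pow_le_pow_left₀ hv0p hδ 2
          nlinarith
        have h12 : 4 * K * (v - v0) ^ 2 ≤ (v - v0) ^ 2 / (8 * lam) := by
          rw [le_div_iff₀ (by positivity)]
          nlinarith [sq_nonneg (v - v0)]
        have h13 : (v - v0) ^ 2 / (4 * lam) = (v - v0) ^ 2 / (8 * lam) + (v - v0) ^ 2 / (8 * lam) := by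
          field_simp
          ring
        linarith
      have h14 := abs_mul_exp_le hlam (v - v0)
      calc |v - v0| * Real.exp (ℒ * v + 2 * K * v ^ 2) * Real.exp (-v ^ 2 / (4 * lam))
          = |v - v0| * (Real.exp (ℒ * v + 2 * K * v ^ 2) * Real.exp (-v ^ 2 / (4 * lam))) := by ring
        _ ≤ |v - v0| * (Real.exp (lam * ℒ ^ 2 + 4 * K * δ ^ 2) *
            Real.exp (-((v - v0) ^ 2 / (8 * lam)))) := by gcongr
        _ = Real.exp (lam * ℒ ^ 2 + 4 * K * δ ^ 2) *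
            (|v - v0| * Real.exp (-((v - v0) ^ 2 / (8 * lam)))) := by ring
        _ ≤ Real.exp (lam * ℒ ^ 2 + 4 * K * δ ^ 2) *
            (4 * Real.sqrt lam * Real.exp (-(v - v0) ^ 2 / (16 * lam))) := by gcongr
        _ = _ := by unfold ga; ring
    calc R * (E1 * (|v - v0| * Real.exp (ℒ * v + 2 * K * v ^ 2)) +
          E2 * Real.exp (ℒ * |v| + 2 * K * v ^ 2)) * Real.exp (-v ^ 2 / (4 * lam))
        = R * E1 * (|v - v0| * Real.exp (ℒ * v + 2 * K * v ^ 2) * Real.exp (-v ^ 2 / (4 * lam))) +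
          R * E2 * (Real.exp (ℒ * |v| + 2 * K * v ^ 2) * Real.exp (-v ^ 2 / (4 * lam))) := by ring
      _ ≤ R * E1 * (Real.exp (lam * ℒ ^ 2 + 4 * K * δ ^ 2) * (4 * Real.sqrt lam) *
            ga (16 * lam) (v - v0)) +
          R * E2 * (Real.exp (ℒ * |v| + 2 * K * v ^ 2) * Real.exp (-v ^ 2 / (4 * lam))) := by
          gcongr
      _ = _ := by ring
  have hmain : ‖(∫ v, f v) - ∫ v, h v‖ ≤
      R * (E1 * Real.exp (lam * ℒ ^ 2 + 4 * K * δ ^ 2) * (4 * Real.sqrt lam)) * (2 * S) +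
      R * E2 * (S * Real.exp (lam * ℒ ^ 2 + 8 * (2 * K) * (lam * ℒ) ^ 2 + 2)) := by
    rw [← integral_sub hfi hhi]
    refine (norm_integral_le_of_norm_le ((g1.const_mul _).add (i1.const_mul _))
      (Eventually.of_forall hbd)).trans ?_
    have e5 : ∫ v : ℝ, ((fun v : ℝ => R * (E1 * Real.exp (lam * ℒ ^ 2 + 4 * K * δ ^ 2) *
        (4 * Real.sqrt lam)) * ga (16 * lam) (v - v0)) +
        fun v : ℝ => R * E2 * (Real.exp (ℒ * |v| + 2 * K * v ^ 2) *
          Real.exp (-v ^ 2 / (4 * lam)))) v =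
        (∫ v : ℝ, R * (E1 * Real.exp (lam * ℒ ^ 2 + 4 * K * δ ^ 2) *
        (4 * Real.sqrt lam)) * ga (16 * lam) (v - v0)) +
        ∫ v : ℝ, R * E2 * (Real.exp (ℒ * |v| + 2 * K * v ^ 2) *
          Real.exp (-v ^ 2 / (4 * lam))) := integral_add (g1.const_mul _) (i1.const_mul _)
    rw [e5, integral_const_mul, integral_const_mul, g2]
    have : 0 ≤ R * E2 := by positivity
    gcongr
  -- numbers
  have hδH : 4 * K * δ ^ 2 ≤ 4 * (K * H) := by
    have : K * δ ^ 2 ≤ K * H := by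
      apply mul_le_mul_of_nonneg_left _ (by linarith)
      nlinarith [sq_nonneg (z.im - T)]
    linarith
  have hlam2 : 8 * (2 * K) * (lam * ℒ) ^ 2 ≤ 4 * (K * H) := by
    have h4 := lamL_sq hlam (by linarith) hδ
    have h5 : 8 * (2 * K) * (lam * ℒ) ^ 2 ≤ 8 * (2 * K) * (δ ^ 2 / 4) := by gcongr
    linarith
  have hA : R * (E1 * Real.exp (lam * ℒ ^ 2 + 4 * K * δ ^ 2) * (4 * Real.sqrt lam)) * (2 * S) ≤
      R * (S * Real.exp (lam * ℒ ^ 2)) / 4 := by
    have h4 : E1 * Real.exp (lam * ℒ ^ 2 + 4 * K * δ ^ 2) ≤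
        Real.exp (lam * ℒ ^ 2) * Real.exp (8 * (K * H)) := by
      rw [hE1, ← Real.exp_add, ← Real.exp_add]
      apply Real.exp_le_exp.mpr
      linarith
    calc R * (E1 * Real.exp (lam * ℒ ^ 2 + 4 * K * δ ^ 2) * (4 * Real.sqrt lam)) * (2 * S)
        ≤ R * ((Real.exp (lam * ℒ ^ 2) * Real.exp (8 * (K * H))) * (4 * Real.sqrt lam)) * (2 * S) := by
          gcongr
      _ = R * (S * Real.exp (lam * ℒ ^ 2)) / 4 * (32 * Real.exp (8 * (K * H)) * Real.sqrt lam) := by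
          ring
      _ ≤ R * (S * Real.exp (lam * ℒ ^ 2)) / 4 * 1 := by gcongr
      _ = _ := by ring
  have hB : R * E2 * (S * Real.exp (lam * ℒ ^ 2 + 8 * (2 * K) * (lam * ℒ) ^ 2 + 2)) ≤
      R * (S * Real.exp (lam * ℒ ^ 2)) / 4 := by
    have h4 : E2 * Real.exp (lam * ℒ ^ 2 + 8 * (2 * K) * (lam * ℒ) ^ 2 + 2) ≤
        Real.exp (lam * ℒ ^ 2) * Real.exp (-2) := by
      rw [hE2, ← Real.exp_add, ← Real.exp_add]
      apply Real.exp_le_exp.mpr
      linarith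
    have h5 : Real.exp (-2) ≤ 1 / 4 := by
      rw [Real.exp_neg, inv_eq_one_div]
      apply one_div_le_one_div_of_le (by norm_num)
      have h7 : (2 : ℝ) ≤ Real.exp 1 := by linarith [Real.add_one_le_exp (1 : ℝ)]
      have h8 : Real.exp 2 = Real.exp 1 * Real.exp 1 := by
        rw [← Real.exp_add]
        norm_num
      rw [h8]
      nlinarith
    calc R * E2 * (S * Real.exp (lam * ℒ ^ 2 + 8 * (2 * K) * (lam * ℒ) ^ 2 + 2))
        = R * S * (E2 * Real.exp (lam * ℒ ^ 2 + 8 * (2 * K) * (lam * ℒ) ^ 2 + 2)) := by ring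
      _ ≤ R * S * (Real.exp (lam * ℒ ^ 2) * (1 / 4)) := by
          apply mul_le_mul_of_nonneg_left _ (by positivity)
          exact h4.trans (mul_le_mul_of_nonneg_left h5 (Real.exp_pos _).le)
      _ = _ := by ring
  have hnh : ‖∫ v, h v‖ = R * (S * Real.exp (lam * ℒ ^ 2)) := by
    rw [hhint, norm_mul, norm_mul, Complex.norm_real, Complex.norm_real, Real.norm_eq_abs,
      Real.norm_eq_abs, abs_of_pos (Real.exp_pos _), abs_of_pos (by positivity)]
  have hfin : R * (S * Real.exp (lam * ℒ ^ 2)) / 2 ≤ S * ‖LL g lam z‖ := by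
    have h4 : ‖∫ v, f v‖ = S * ‖LL g lam z‖ := by
      rw [hfint, norm_mul, Complex.norm_real, Real.norm_eq_abs, abs_of_pos hS]
    have h5 : ‖∫ v, h v‖ - ‖∫ v, f v‖ ≤ ‖(∫ v, f v) - ∫ v, h v‖ := by
      rw [norm_sub_rev]
      exact norm_sub_norm_le _ _
    rw [← h4]
    rw [hnh] at h5
    linarith
  have h6 : Γ0 * Real.exp (ℒ * z.re + lam * ℒ ^ 2 - K * H) ≤ R * Real.exp (lam * ℒ ^ 2) := by
    calc Γ0 * Real.exp (ℒ * z.re + lam * ℒ ^ 2 - K * H)
        = Γ0 * Real.exp (ℒ * (z.re + v0) - K * H) * Real.exp (-(ℒ * v0)) *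
          Real.exp (lam * ℒ ^ 2) := by
          rw [mul_assoc, mul_assoc, ← Real.exp_add, ← Real.exp_add]
          congr 2
          ring
      _ ≤ M0 * Real.exp (-(ℒ * v0)) * Real.exp (lam * ℒ ^ 2) := by gcongr
  have h7 : S * (R * Real.exp (lam * ℒ ^ 2) / 2) ≤ S * ‖LL g lam z‖ := by
    refine le_trans (le_of_eq ?_) hfin
    ring
  have h8 := le_of_mul_le_mul_left h7 hS
  linarith

end Pool.Agent.H466.LD
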