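import Pool.Agent.H466.LD.L4

/-!
# Uniform bounds for the heat flow near a height
-/

set_option autoImplicit false

open Complex MeasureTheory Filter Topology Set
open scoped ComplexConjugate

namespace Pool.Agent.H466.LD

open Pool.Agent.H466.HF

/-- the conclusions about the size of the heat flow near the height `T` -/
structure Sz (F : ℂ → ℂ) (T ℒ Γ1 μ0 R1 η : ℝ) : Prop where
  Γ1pos : 0 < Γ1
  up : ∀ z : ℂ, |z.re| ≤ R1 → |z.im - T| ≤ R1 → ‖F z‖ ≤ Γ1 * Real.exp (ℒ * (|z.re| + μ0 + η))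
  right : ∀ z : ℂ, |z.re| ≤ R1 → |z.im - T| ≤ R1 → 4 + μ0 ≤ z.re →
    ‖F z‖ ≤ Γ1 * Real.exp (ℒ * (z.re + η))
  low : ∀ z : ℂ, |z.re| ≤ R1 → |z.im - T| ≤ R1 → 4 + μ0 ≤ z.re →
    Γ1 * Real.exp (ℒ * (z.re - η)) ≤ ‖F z‖

theorem bounds {K μ0 δ R1 η : ℝ} (hK : 1 ≤ K) (hδ : 0 < δ) (hη : 0 < η) (hR1 : 0 ≤ R1) :
    ∃ ℒ0 : ℝ, 1 ≤ ℒ0 ∧ ∀ {g : ℝ → ℂ} {A c : ℝ} {P : ℂ → ℂ} {T ℒ Γ0 lam : ℝ}, Kern g A c →
      Loc (LL g 0) P T ℒ Γ0 K μ0 → ℒ0 ≤ ℒ → 0 < lam → 2 * lam * ℒ ≤ δ →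
      32 * K * lam ≤ 1 ∧ Sz (LL g lam) T ℒ (Γ0 * Real.exp (lam * ℒ ^ 2)) μ0 R1 η := by
  set H : ℝ := (R1 + δ + 1) ^ 2 + R1 ^ 2 + 1 with hH
  set K' : ℝ := 2 * K + 4 * K * δ ^ 2 + 2 with hK'
  have hH0 : 1 ≤ H := by rw [hH]; nlinarith [sq_nonneg (R1 + δ + 1), sq_nonneg R1]
  have hK'0 : 0 < K' := by rw [hK']; positivity
  set ℒ0 : ℝ := 1 + 16 * K * δ + 1024 * Real.exp (16 * (K * H)) * δ + (8 * (K * H) + 4) +
    K' * (1 + 2 * R1 ^ 2) / η + (K * H + 1) / η with hℒ0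
  have p1 : 0 ≤ 16 * K * δ := by positivity
  have p2 : 0 ≤ 1024 * Real.exp (16 * (K * H)) * δ := by positivity
  have p3 : 0 ≤ 8 * (K * H) + 4 := by positivity
  have p4 : 0 ≤ K' * (1 + 2 * R1 ^ 2) / η := by positivity
  have p5 : 0 ≤ (K * H + 1) / η := by positivity
  refine ⟨ℒ0, by rw [hℒ0]; linarith, ?_⟩
  intro g A c P T ℒ Γ0 lam k C hℒ hlam hl
  have q1 : 16 * K * δ ≤ ℒ := by linarith
  have q2 : 1024 * Real.exp (16 * (K * H)) * δ ≤ ℒ := by linarith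
  have q3 : 8 * (K * H) + 4 ≤ ℒ := by linarith
  have q4 : K' * (1 + 2 * R1 ^ 2) ≤ ℒ * η := by
    rw [← div_le_iff₀ hη]; linarith
  have q5 : K * H + 1 ≤ ℒ * η := by
    rw [← div_le_iff₀ hη]; linarith
  have hℒp : 1 ≤ ℒ := C.ℒ1
  have hΓ := C.Γpos
  have r1 : 32 * K * lam ≤ 1 := by
    have h1 : 32 * K * lam * ℒ ≤ 1 * ℒ := by
      calc 32 * K * lam * ℒ = 16 * K * (2 * lam * ℒ) := by ring
        _ ≤ 16 * K * δ := by gcongr
        _ ≤ 1 * ℒ := by linarith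
    exact le_of_mul_le_mul_right h1 (by linarith)
  have r2 : 32 * Real.exp (8 * (K * H)) * Real.sqrt lam ≤ 1 := by
    have h1 : (32 * Real.exp (8 * (K * H)) * Real.sqrt lam) ^ 2 ≤ 1 := by
      rw [mul_pow, mul_pow, Real.sq_sqrt hlam.le, ← Real.exp_nat_mul]
      have e : ((2 : ℕ) : ℝ) * (8 * (K * H)) = 16 * (K * H) := by push_cast; ring
      rw [e]
      have h2 : 32 ^ 2 * Real.exp (16 * (K * H)) * lam * ℒ ≤ 1 * ℒ := by
        calc 32 ^ 2 * Real.exp (16 * (K * H)) * lam * ℒ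
            = 512 * Real.exp (16 * (K * H)) * (2 * lam * ℒ) := by ring
          _ ≤ 512 * Real.exp (16 * (K * H)) * δ := by gcongr
          _ ≤ 1 * ℒ := by linarith
      exact le_of_mul_le_mul_right h2 (by linarith)
    have h3 : 0 ≤ 32 * Real.exp (8 * (K * H)) * Real.sqrt lam := by positivity
    nlinarith
  refine ⟨r1, ⟨by positivity, ?_, ?_, ?_⟩⟩
  · intro z h1 h2
    refine (Fup k C hlam (by linarith) hl z).trans ?_
    rw [mul_assoc Γ0, ← Real.exp_add]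
    apply mul_le_mul_of_nonneg_left _ hΓ.le
    apply Real.exp_le_exp.mpr
    have h3 : z.re ^ 2 ≤ R1 ^ 2 := sq_le_sq' (by linarith [(abs_le.mp h1).1]) (abs_le.mp h1).2
    have h4 : (z.im - T) ^ 2 ≤ R1 ^ 2 := sq_le_sq' (by linarith [(abs_le.mp h2).1]) (abs_le.mp h2).2
    have h5 : K' * (1 + z.re ^ 2 + (z.im - T) ^ 2) ≤ K' * (1 + 2 * R1 ^ 2) := by
      apply mul_le_mul_of_nonneg_left _ hK'0.le
      linarith
    nlinarith
  · intro z h1 h2 h0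
    refine (Fright k C hlam (by linarith) hl (z := z) (by linarith)).trans ?_
    rw [mul_assoc Γ0, ← Real.exp_add]
    apply mul_le_mul_of_nonneg_left _ hΓ.le
    apply Real.exp_le_exp.mpr
    have h3 : z.re ^ 2 ≤ R1 ^ 2 := sq_le_sq' (by linarith [(abs_le.mp h1).1]) (abs_le.mp h1).2
    have h4 : (z.im - T) ^ 2 ≤ R1 ^ 2 := sq_le_sq' (by linarith [(abs_le.mp h2).1]) (abs_le.mp h2).2
    have h5 : K' * (1 + z.re ^ 2 + (z.im - T) ^ 2) ≤ K' * (1 + 2 * R1 ^ 2) := by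
      apply mul_le_mul_of_nonneg_left _ hK'0.le
      linarith
    nlinarith
  · intro z h1 h2 h0
    have h3 : z.re ≤ R1 := (abs_le.mp h1).2
    have h4 : (z.im - T) ^ 2 ≤ R1 ^ 2 := sq_le_sq' (by linarith [(abs_le.mp h2).1]) (abs_le.mp h2).2
    have hμ := C.μpos
    have h5 := Flow k C hlam hl h0 (H := H) (by
      rw [hH]
      have : (z.re + δ + 1) ^ 2 ≤ (R1 + δ + 1) ^ 2 := by
        apply pow_le_pow_left₀ (by linarith)
        linarith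
      linarith) r1 r2 q3
    refine le_trans ?_ h5
    have h6 : Real.exp 1 ≥ 2 := by linarith [Real.add_one_le_exp (1 : ℝ)]
    have h7 : Γ0 * Real.exp (lam * ℒ ^ 2) * Real.exp (ℒ * (z.re - η)) * Real.exp 1 ≤
        Γ0 * Real.exp (ℒ * z.re + lam * ℒ ^ 2 - K * H) := by
      rw [mul_assoc, mul_assoc, ← Real.exp_add, ← Real.exp_add]
      apply mul_le_mul_of_nonneg_left _ hΓ.le
      apply Real.exp_le_exp.mpr
      nlinarith
    have h8 : 0 ≤ Γ0 * Real.exp (lam * ℒ ^ 2) * Real.exp (ℒ * (z.re - η)) := by positivity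
    rw [le_div_iff₀ (by norm_num)]
    refine le_trans ?_ h7
    apply mul_le_mul_of_nonneg_left _ h8
    linarith

lemma order_mul_ne {F E : ℂ → ℂ} {z : ℂ} (hF : AnalyticAt ℂ F z) (hE : AnalyticAt ℂ E z)
    (h : E z ≠ 0) : analyticOrderNatAt (fun w => F w * E w) z = analyticOrderNatAt F z := by
  have h1 : analyticOrderAt (F * E) z = analyticOrderAt F z + analyticOrderAt E z :=
    analyticOrderAt_mul hF hE
  rw [hE.analyticOrderAt_eq_zero.mpr h, add_zero] at h1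
  unfold analyticOrderNatAt
  have h2 : (fun w => F w * E w) = F * E := rfl
  rw [h2, h1]

/-- the normalised function -/
noncomputable def nf (F : ℂ → ℂ) (ℒ Γ1 : ℝ) (z : ℂ) : ℂ :=
  F z * (cexp (-(ℒ : ℂ) * z) * ((1 / Γ1 : ℝ) : ℂ))

lemma norm_nf (F : ℂ → ℂ) (ℒ : ℝ) {Γ1 : ℝ} (h : 0 < Γ1) (z : ℂ) :
    ‖nf F ℒ Γ1 z‖ = ‖F z‖ / Γ1 * Real.exp (-(ℒ * z.re)) := by
  unfold nf
  rw [norm_mul, norm_mul, Complex.norm_exp, Complex.norm_real, Real.norm_eq_abs,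
    abs_of_pos (by positivity)]
  have : (-(ℒ : ℂ) * z).re = -(ℒ * z.re) := by simp
  rw [this]
  ring

lemma nf_diff {F : ℂ → ℂ} (hF : Differentiable ℂ F) (ℒ Γ1 : ℝ) : Differentiable ℂ (nf F ℒ Γ1) := by
  unfold nf
  fun_prop

lemma nf_order {F : ℂ → ℂ} (hF : Differentiable ℂ F) (ℒ : ℝ) {Γ1 : ℝ} (h : 0 < Γ1) (z : ℂ) :
    analyticOrderNatAt (nf F ℒ Γ1) z = analyticOrderNatAt F z := by
  have hd : Differentiable ℂ fun z : ℂ => cexp (-(ℒ : ℂ) * z) * ((1 / Γ1 : ℝ) : ℂ) := by fun_prop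
  refine order_mul_ne (hF.analyticAt z) (hd.analyticAt z) ?_
  refine mul_ne_zero (Complex.exp_ne_zero _) ?_
  have : (1 / Γ1 : ℝ) ≠ 0 := by positivity
  exact_mod_cast this

lemma nf_zero {F : ℂ → ℂ} (ℒ : ℝ) {Γ1 : ℝ} (h : 0 < Γ1) (z : ℂ) : nf F ℒ Γ1 z = 0 ↔ F z = 0 := by
  unfold nf
  have h1 : cexp (-(ℒ : ℂ) * z) * ((1 / Γ1 : ℝ) : ℂ) ≠ 0 := by
    refine mul_ne_zero (Complex.exp_ne_zero _) ?_
    have : (1 / Γ1 : ℝ) ≠ 0 := by positivity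
    exact_mod_cast this
  constructor
  · intro h2
    exact (mul_eq_zero.mp h2).resolve_right h1
  · intro h2
    rw [h2, zero_mul]

end Pool.Agent.H466.LD
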