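import Pool.Agent.H466.LD.L5
import Pool.Graph.R_pool_sql_team_seeded_35f281b4.K7.H52.SP.Bk

/-!
# Few zeros off the line imply small values
-/

set_option autoImplicit false

open Complex MeasureTheory Filter Topology Set Metric
open scoped ComplexConjugate

namespace Pool.Agent.H466.LD

open Pool.Agent.H466.HF Pool.Agent.K7.H52.SP

/-- few zeros to the right of the line imply the expected upper bound at distance `x1` -/
theorem few_right {μ0 x1 V1 ε : ℝ} (hμ0 : 0 ≤ μ0) (hx1 : 0 < x1) (hx1' : x1 ≤ 1)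
    (hε : 0 < ε) :
    ∃ η : ℝ, 0 < η ∧ ∃ R1 : ℝ, 0 < R1 ∧ ∃ ℒ0 : ℝ, 0 < ℒ0 ∧ ∀ (F : ℂ → ℂ) (T ℒ Γ1 : ℝ),
      Differentiable ℂ F → Sz F T ℒ Γ1 μ0 R1 η → ℒ0 ≤ ℒ →
      (∀ S : Finset ℂ, (∀ z ∈ S, F z = 0 ∧ η ≤ z.re ∧ |z.im - T| ≤ R1) →
        ∑ z ∈ S, (analyticOrderNatAt F z : ℝ) ≤ η * ℒ) →
      ∀ τ : ℝ, |τ - T| ≤ V1 → ‖F ((x1 : ℂ) + (τ : ℂ) * I)‖ ≤ Γ1 * Real.exp (ℒ * (x1 + ε)) := by
  set c0 : ℝ := 6 + μ0 + 4 * V1 ^ 2 / x1 with hc0
  have hq : 0 ≤ 4 * V1 ^ 2 / x1 := by positivity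
  have hc6 : 6 + μ0 ≤ c0 := by rw [hc0]; linarith
  set R : ℝ := c0 - x1 / 2 with hR
  obtain ⟨ηb, hηb, L0, hL0, hbk⟩ := bk (R := R) (δ := x1 / 8) (l := 1) (B := μ0 + 1) (ε := ε)
    (by rw [hR]; linarith) (by positivity) one_pos (by rw [hR]; linarith) (by linarith) hε
  set η : ℝ := min ηb (min (x1 / 2) 1) with hη
  have hη0 : 0 < η := lt_min hηb (lt_min (by positivity) one_pos)
  have hη1 : η ≤ ηb := min_le_left _ _
  have hη2 : η ≤ x1 / 2 := (min_le_right _ _).trans (min_le_left _ _)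
  have hη3 : η ≤ 1 := (min_le_right _ _).trans (min_le_right _ _)
  refine ⟨η, hη0, 2 * c0, by linarith, max L0 1, by positivity, ?_⟩
  intro F T ℒ Γ1 hF hS hℒ hz τ hτ
  have hℒ1 : L0 ≤ ℒ := (le_max_left _ _).trans hℒ
  have hℒ2 : 1 ≤ ℒ := (le_max_right _ _).trans hℒ
  have hΓ := hS.Γ1pos
  set cc : ℂ := (c0 : ℂ) + (T : ℂ) * I with hcc
  have hcre : cc.re = c0 := by simp [hcc]
  have hcim : cc.im = T := by simp [hcc]
  have hball : ∀ (z : ℂ) (r : ℝ), z ∈ closedBall cc r → |z.re - c0| ≤ r ∧ |z.im - T| ≤ r := by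
    intro z r h
    rw [mem_closedBall, dist_eq_norm] at h
    constructor
    · have := (abs_re_le_norm (z - cc)).trans h
      rwa [sub_re, hcre] at this
    · have := (abs_im_le_norm (z - cc)).trans h
      rwa [sub_im, hcim] at this
  have hnf := norm_nf F ℒ hΓ
  have key := hbk ℒ hℒ1 (nf F ℒ Γ1) cc (fun z _ => (nf_diff hF ℒ Γ1).analyticAt z)
    (by
      intro z hz
      obtain ⟨h1, h2⟩ := hball z R hz
      rw [abs_le] at h1
      have h3 : 0 ≤ z.re := by rw [hR] at h1; linarith [h1.1]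
      have h4 : |z.re| ≤ 2 * c0 := by rw [abs_of_nonneg h3]; rw [hR] at h1; linarith [h1.2]
      have h5 : |z.im - T| ≤ 2 * c0 := h2.trans (by rw [hR]; linarith)
      have h6 := hS.up z h4 h5
      rw [hnf, div_mul_eq_mul_div, div_le_iff₀ hΓ]
      rw [abs_of_nonneg h3] at h6
      calc ‖F z‖ * Real.exp (-(ℒ * z.re))
          ≤ (Γ1 * Real.exp (ℒ * (z.re + μ0 + η))) * Real.exp (-(ℒ * z.re)) := by gcongr
        _ = Γ1 * Real.exp (ℒ * (μ0 + η)) := by
            rw [mul_assoc, ← Real.exp_add]; congr 2; ring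
        _ ≤ Γ1 * Real.exp ((μ0 + 1) * ℒ) := by
            apply mul_le_mul_of_nonneg_left _ hΓ.le
            apply Real.exp_le_exp.mpr
            nlinarith
        _ = _ := by ring)
    (by
      intro z hz
      obtain ⟨h1, h2⟩ := hball z 1 hz
      rw [abs_le] at h1
      have h3 : 4 + μ0 ≤ z.re := by linarith [h1.1]
      have h4 : |z.re| ≤ 2 * c0 := by rw [abs_of_nonneg (by linarith)]; linarith [h1.2]
      have h5 : |z.im - T| ≤ 2 * c0 := h2.trans (by linarith)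
      have h6 := hS.right z h4 h5 h3
      have h7 := hS.low z h4 h5 h3
      have h8 : 0 < ‖F z‖ := lt_of_lt_of_le (by positivity) h7
      refine ⟨?_, ?_⟩
      · rw [Ne, nf_zero ℒ hΓ]
        exact norm_pos_iff.mp h8
      · rw [hnf, div_mul_eq_mul_div, div_le_iff₀ hΓ]
        calc ‖F z‖ * Real.exp (-(ℒ * z.re))
            ≤ (Γ1 * Real.exp (ℒ * (z.re + η))) * Real.exp (-(ℒ * z.re)) := by gcongr
          _ = Γ1 * Real.exp (ℒ * η) := by
              rw [mul_assoc, ← Real.exp_add]; congr 2; ring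
          _ ≤ Γ1 * Real.exp (ηb * ℒ) := by
              apply mul_le_mul_of_nonneg_left _ hΓ.le
              apply Real.exp_le_exp.mpr
              nlinarith
          _ = _ := by ring)
    (by
      have h4 : |cc.re| ≤ 2 * c0 := by rw [hcre, abs_of_nonneg (by linarith)]; linarith
      have h5 : |cc.im - T| ≤ 2 * c0 := by rw [hcim, sub_self, abs_zero]; linarith
      have h7 := hS.low cc h4 h5 (by rw [hcre]; linarith)
      rw [hnf, div_mul_eq_mul_div, le_div_iff₀ hΓ]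
      calc Real.exp (-(ηb * ℒ)) * Γ1 ≤ Real.exp (-(ℒ * η)) * Γ1 := by
            apply mul_le_mul_of_nonneg_right _ hΓ.le
            apply Real.exp_le_exp.mpr
            nlinarith
        _ = (Γ1 * Real.exp (ℒ * (cc.re - η))) * Real.exp (-(ℒ * cc.re)) := by
            rw [mul_assoc, ← Real.exp_add, mul_comm]
            congr 2
            ring
        _ ≤ _ := by gcongr)
    (by
      intro S hSz
      have h1 := hz S (by
        intro z hzS
        obtain ⟨h2, h3⟩ := hSz z hzS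
        obtain ⟨h4, h5⟩ := hball z _ h2
        rw [abs_le] at h4
        refine ⟨(nf_zero ℒ hΓ z).mp h3, ?_, h5.trans ?_⟩
        · rw [hR] at h4; linarith [h4.1]
        · rw [hR]; linarith)
      refine le_trans (le_of_eq ?_) (h1.trans ?_)
      · refine Finset.sum_congr rfl fun z _ => ?_
        unfold H370.mult
        rw [nf_order hF ℒ hΓ]
      · gcongr)
    ((x1 : ℂ) + (τ : ℂ) * I) (by
      rw [mem_closedBall, dist_eq_norm]
      have e : (x1 : ℂ) + (τ : ℂ) * I - cc = ((x1 - c0 : ℝ) : ℂ) + ((τ - T : ℝ) : ℂ) * I := by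
        rw [hcc]; push_cast; ring
      rw [e]
      have h1 : ‖((x1 - c0 : ℝ) : ℂ) + ((τ - T : ℝ) : ℂ) * I‖ ^ 2 = (x1 - c0) ^ 2 + (τ - T) ^ 2 := by
        rw [← Complex.normSq_eq_norm_sq, Complex.normSq_add_mul_I]
      have h2 : (τ - T) ^ 2 ≤ V1 ^ 2 := by
        rw [← sq_abs (τ - T)]
        exact pow_le_pow_left₀ (abs_nonneg _) hτ 2
      have h3 : 4 * V1 ^ 2 / x1 * x1 = 4 * V1 ^ 2 := by field_simp
      have h4 : ‖((x1 - c0 : ℝ) : ℂ) + ((τ - T : ℝ) : ℂ) * I‖ ^ 2 ≤ (R - 2 * (x1 / 8)) ^ 2 := by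
        rw [h1, hR]
        have h5 : (c0 - x1 / 2 - 2 * (x1 / 8)) ^ 2 - (x1 - c0) ^ 2 =
            (x1 / 4) * (2 * c0 - 7 * x1 / 4) := by ring
        have h6 : V1 ^ 2 ≤ (x1 / 4) * (2 * c0 - 7 * x1 / 4) := by
          have h7 : (x1 / 4) * (2 * c0 - 7 * x1 / 4) =
              (4 * V1 ^ 2 / x1 * x1) / 2 + (x1 / 4) * (2 * (6 + μ0) - 7 * x1 / 4) := by
            rw [hc0]; ring
          rw [h7, h3]
          have h8 : 0 ≤ (x1 / 4) * (2 * (6 + μ0) - 7 * x1 / 4) := by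
            apply mul_nonneg (by positivity)
            linarith
          nlinarith [sq_nonneg V1]
        linarith
      have h9 : 0 ≤ R - 2 * (x1 / 8) := by rw [hR]; linarith
      exact (pow_le_pow_iff_left₀ (norm_nonneg _) h9 two_ne_zero).mp h4)
  rw [hnf, div_mul_eq_mul_div, div_le_iff₀ hΓ] at key
  have e : ((x1 : ℂ) + (τ : ℂ) * I).re = x1 := by simp
  rw [e] at key
  calc ‖F ((x1 : ℂ) + (τ : ℂ) * I)‖
      = (‖F ((x1 : ℂ) + (τ : ℂ) * I)‖ * Real.exp (-(ℒ * x1))) * Real.exp (ℒ * x1) := by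
        rw [mul_assoc, ← Real.exp_add, neg_add_cancel, Real.exp_zero, mul_one]
    _ ≤ (Real.exp (ε * ℒ) * Γ1) * Real.exp (ℒ * x1) := by gcongr
    _ = Γ1 * Real.exp (ℒ * (x1 + ε)) := by
        rw [mul_comm (Real.exp (ε * ℒ)), mul_assoc, ← Real.exp_add]
        congr 2
        ring

end Pool.Agent.H466.LD
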