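import Pool.Agent.H466.LD.L6

/-!
# Few zeros off the line imply small values, second part
-/

set_option autoImplicit false

open Complex MeasureTheory Filter Topology Set Metric
open scoped ComplexConjugate

namespace Pool.Agent.H466.LD

open Pool.Agent.H466.HF Pool.Agent.K7.H52.SP

lemma Sz.mono {F : ℂ → ℂ} {T ℒ Γ1 μ0 R1 R2 η : ℝ} (h : Sz F T ℒ Γ1 μ0 R2 η) (hR : R1 ≤ R2) :
    Sz F T ℒ Γ1 μ0 R1 η :=
  ⟨h.Γ1pos, fun z h1 h2 => h.up z (h1.trans hR) (h2.trans hR),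
    fun z h1 h2 => h.right z (h1.trans hR) (h2.trans hR),
    fun z h1 h2 => h.low z (h1.trans hR) (h2.trans hR)⟩

/-- few zeros to the right of the line at the time `lam` imply the bound `exp (lam ℒ²)` at the
height `T` -/
theorem few_growth {K μ0 δ ε : ℝ} (hK : 1 ≤ K) (hμ0 : 0 ≤ μ0) (hδ : 0 < δ) (hε : 0 < ε) :
    ∃ η : ℝ, 0 < η ∧ ∃ R1 : ℝ, 0 < R1 ∧ ∃ ℒ0 : ℝ, 1 ≤ ℒ0 ∧
      ∀ {g : ℝ → ℂ} {A c : ℝ} {P : ℂ → ℂ} {T ℒ Γ0 lam : ℝ}, Kern g A c →
      Loc (LL g 0) P T ℒ Γ0 K μ0 → (∀ z : ℂ, LL g 0 (-conj z) = conj (LL g 0 z)) →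
      ℒ0 ≤ ℒ → 0 < lam → 2 * lam * ℒ ≤ δ →
      (∀ S : Finset ℂ, (∀ z ∈ S, LL g lam z = 0 ∧ η ≤ z.re ∧ |z.im - T| ≤ R1) →
        ∑ z ∈ S, (analyticOrderNatAt (LL g lam) z : ℝ) ≤ η * ℒ) →
      ‖LL g 0 ((T : ℂ) * I)‖ ≤ Γ0 * Real.exp (lam * ℒ ^ 2 + ε * ℒ) := by
  set V0 : ℝ := Real.sqrt (8 * δ * (μ0 + 1)) with hV0
  have hV02 : V0 ^ 2 = 8 * δ * (μ0 + 1) := Real.sq_sqrt (by positivity)
  have hV0p : 0 < V0 := Real.sqrt_pos.mpr (by positivity)
  set x1 : ℝ := min 1 (ε / 8) with hx1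
  have hx10 : 0 < x1 := lt_min one_pos (by positivity)
  have hx11 : x1 ≤ 1 := min_le_left _ _
  have hx12 : x1 ≤ ε / 8 := min_le_right _ _
  obtain ⟨W, hW, hltl⟩ := ltl (a := -x1) (b := x1) (α := x1 + ε / 8) (β := x1 + ε / 8)
    (B := μ0 + 2) (ε := ε / 8) (by linarith) (by linarith) (by positivity)
  obtain ⟨η, hη, R1, hR1, ℒ1, hℒ1, hfr⟩ := few_right (μ0 := μ0) (x1 := x1) (V1 := V0 + W)
    (ε := ε / 8) hμ0 hx10 hx11 (by positivity)
  set R2 : ℝ := max R1 (V0 + W + 2) with hR2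
  set η' : ℝ := min η 1 with hη'
  obtain ⟨ℒ2, hℒ2, hb⟩ := bounds (K := K) (μ0 := μ0) (δ := δ) (R1 := R2) (η := η') hK hδ
    (lt_min hη one_pos) (hR1.le.trans (le_max_left _ _))
  set K' : ℝ := 2 * K + 4 * K * δ ^ 2 + 2 with hK'
  have hK'0 : 0 < K' := by rw [hK']; positivity
  set ℒ3 : ℝ := 8 * δ * K' * (1 / V0 ^ 2 + 1) with hℒ3
  refine ⟨η, hη, R1, hR1, max (max ℒ1 ℒ2) (max ℒ3 (16 / ε)), ?_, ?_⟩
  · exact hℒ2.trans ((le_max_right _ _).trans (le_max_left _ _))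
  intro g A c P T ℒ Γ0 lam k C hfe hℒ hlam hl hz
  have a1 : ℒ1 ≤ ℒ := ((le_max_left _ _).trans (le_max_left _ _)).trans hℒ
  have a2 : ℒ2 ≤ ℒ := ((le_max_right _ _).trans (le_max_left _ _)).trans hℒ
  have a3 : ℒ3 ≤ ℒ := ((le_max_left _ _).trans (le_max_right _ _)).trans hℒ
  have a4 : 16 / ε ≤ ℒ := ((le_max_right _ _).trans (le_max_right _ _)).trans hℒ
  have hℒp : 1 ≤ ℒ := C.ℒ1
  have hΓ := C.Γpos
  obtain ⟨hKl, hS⟩ := hb k C a2 hlam hl
  set Γ1 : ℝ := Γ0 * Real.exp (lam * ℒ ^ 2) with hΓ1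
  have hΓ1p : 0 < Γ1 := by positivity
  have hS1 : Sz (LL g lam) T ℒ Γ1 μ0 R1 η := by
    have h1 := hS.mono (le_max_left _ _ : R1 ≤ R2)
    have h2 : η' ≤ η := min_le_left _ _
    refine ⟨hΓ1p, fun z p q => (h1.up z p q).trans ?_, fun z p q r => (h1.right z p q r).trans ?_,
      fun z p q r => le_trans ?_ (h1.low z p q r)⟩ <;>
    · apply mul_le_mul_of_nonneg_left _ hΓ1p.le
      apply Real.exp_le_exp.mpr
      nlinarith
  have hright := hfr (LL g lam) T ℒ Γ1 (k.differentiable lam) hS1 a1 hz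
  have hfe2 : ∀ z : ℂ, ‖LL g lam (-conj z)‖ = ‖LL g lam z‖ := by
    intro z
    have h1 := LL_fe2 k hlam (ε := 1) (fun z => by rw [one_mul]; exact hfe z) z
    rw [h1, one_mul, Complex.norm_conj]
  -- on the line
  have hline : ∀ τ : ℝ, |τ - T| ≤ V0 → ‖LL g lam ((τ : ℂ) * I)‖ ≤
      Γ1 * Real.exp ((x1 + ε / 4) * ℒ) := by
    intro τ hτ
    have hin : ∀ s : ℂ, |s.im - τ| ≤ W → |s.im - T| ≤ V0 + W := by
      intro s hs
      have : s.im - T = (s.im - τ) + (τ - T) := by ring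
      rw [this]
      refine (abs_add_le _ _).trans ?_
      linarith
    have hnorm : ∀ z : ℂ, ‖LL g lam z * ((1 / Γ1 : ℝ) : ℂ)‖ = ‖LL g lam z‖ / Γ1 := by
      intro z
      rw [norm_mul, Complex.norm_real, Real.norm_eq_abs, abs_of_pos (by positivity)]
      ring
    have h1 := hltl ℒ (by linarith) (fun z => LL g lam z * ((1 / Γ1 : ℝ) : ℂ)) τ
      (fun s _ _ _ => by
        have := k.differentiable lam
        fun_prop)
      (by
        intro s hs1 hs2 hs3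
        rw [hnorm, div_le_iff₀ hΓ1p]
        have h2 : |s.re| ≤ x1 := abs_le.mpr ⟨hs1, hs2⟩
        have h3 := hin s hs3
        have h4 := hS.up s (h2.trans (by
          have : V0 + W + 2 ≤ R2 := le_max_right _ _
          linarith)) (h3.trans (by
          have : V0 + W + 2 ≤ R2 := le_max_right _ _
          linarith))
        refine h4.trans ?_
        rw [mul_comm]
        apply mul_le_mul_of_nonneg_right _ hΓ1p.le
        apply Real.exp_le_exp.mpr
        have h5 : η' ≤ 1 := min_le_right _ _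
        nlinarith)
      (by
        intro s hs1 hs3
        rw [hnorm, div_le_iff₀ hΓ1p, ← hfe2 s]
        have h3 := hin s hs3
        have e : -conj s = (x1 : ℂ) + (s.im : ℂ) * I := by
          apply Complex.ext
          · simp [hs1]
          · simp
        rw [e]
        refine (hright s.im h3).trans (le_of_eq ?_)
        rw [mul_comm, mul_comm ℒ])
      (by
        intro s hs1 hs3
        rw [hnorm, div_le_iff₀ hΓ1p]
        have h3 := hin s hs3
        have e : s = (x1 : ℂ) + (s.im : ℂ) * I := by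
          apply Complex.ext
          · simp [hs1]
          · simp
        rw [e]
        refine (hright s.im h3).trans (le_of_eq ?_)
        rw [mul_comm, mul_comm ℒ])
      ((τ : ℂ) * I) (by simp; linarith) (by simp; linarith) (by simp)
    rw [hnorm, div_le_iff₀ hΓ1p] at h1
    refine h1.trans (le_of_eq ?_)
    rw [mul_comm]
    congr 2
    ring
  -- backward
  set Kb : ℝ := (ℒ * μ0 + K') / V0 ^ 2 + K' with hKb
  have hKb0 : 0 ≤ Kb := by positivity
  have hKbl : 8 * Kb * lam ≤ 1 := by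
    have h1 : lam ≤ δ / (2 * ℒ) := by
      rw [le_div_iff₀ (by positivity)]
      linarith
    have h2 : 8 * (ℒ * μ0 / V0 ^ 2) * lam ≤ 1 / 2 := by
      rw [hV02]
      have h3 : 8 * (ℒ * μ0 / (8 * δ * (μ0 + 1))) * lam = (2 * lam * ℒ) * μ0 / (2 * δ * (μ0 + 1)) := by
        field_simp
      rw [h3, div_le_iff₀ (by positivity)]
      calc (2 * lam * ℒ) * μ0 ≤ δ * μ0 := by gcongr
        _ ≤ 1 / 2 * (2 * δ * (μ0 + 1)) := by nlinarith
    have h4 : 8 * (K' * (1 / V0 ^ 2 + 1)) * lam ≤ 1 / 2 := by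
      have h5 : 8 * (K' * (1 / V0 ^ 2 + 1)) * lam * ℒ ≤ 1 / 2 * ℒ := by
        calc 8 * (K' * (1 / V0 ^ 2 + 1)) * lam * ℒ
            = 4 * (K' * (1 / V0 ^ 2 + 1)) * (2 * lam * ℒ) := by ring
          _ ≤ 4 * (K' * (1 / V0 ^ 2 + 1)) * δ := by gcongr
          _ = ℒ3 / 2 := by rw [hℒ3]; ring
          _ ≤ 1 / 2 * ℒ := by linarith
      exact le_of_mul_le_mul_right h5 (by linarith)
    have h6 : 8 * Kb * lam = 8 * (ℒ * μ0 / V0 ^ 2) * lam + 8 * (K' * (1 / V0 ^ 2 + 1)) * lam := by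
      rw [hKb]
      ring
    rw [h6]
    linarith
  have hback := backward_le k (lam := lam) (a := 0) (K := Kb) (B := Γ1 * Real.exp ((x1 + ε / 4) * ℒ))
    (z := (T : ℂ) * I) hlam hKb0 hKbl (by positivity) (by
      intro v
      have e : (T : ℂ) * I + v * I = ((T + v : ℝ) : ℂ) * I := by push_cast; ring
      rw [e]
      rcases le_or_gt |v| V0 with h1 | h1
      · refine (hline (T + v) (by rwa [add_sub_cancel_left])).trans ?_
        have h2 : (1 : ℝ) ≤ Real.exp (0 * |v| + Kb * v ^ 2) := by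
          apply Real.one_le_exp
          positivity
        have h3 : 0 ≤ Γ1 * Real.exp ((x1 + ε / 4) * ℒ) := by positivity
        nlinarith
      · have h2 := Fup k C hlam (by linarith) hl (((T + v : ℝ) : ℂ) * I)
        have e1 : (((T + v : ℝ) : ℂ) * I).re = 0 := by simp
        have e2 : (((T + v : ℝ) : ℂ) * I).im = T + v := by simp
        rw [e1, e2, abs_zero] at h2
        refine h2.trans ?_
        rw [hΓ1, mul_assoc Γ0, mul_assoc Γ0, ← Real.exp_add, ← Real.exp_add]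
        apply mul_le_mul_of_nonneg_left _ hΓ.le
        apply Real.exp_le_exp.mpr
        have h3 : V0 ^ 2 ≤ v ^ 2 := by
          rw [← sq_abs v]
          exact pow_le_pow_left₀ hV0p.le h1.le 2
        have h4 : ℒ * μ0 + K' ≤ (ℒ * μ0 + K') / V0 ^ 2 * v ^ 2 := by
          have h5 : (ℒ * μ0 + K') / V0 ^ 2 * V0 ^ 2 = ℒ * μ0 + K' := by field_simp
          have h6 : 0 ≤ (ℒ * μ0 + K') / V0 ^ 2 := by positivity
          nlinarith
        have h7 : 0 ≤ (x1 + ε / 4) * ℒ := by positivity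
        have h8 : T + v - T = v := by ring
        rw [h8, hKb]
        nlinarith)
  refine hback.trans ?_
  rw [hΓ1, mul_assoc Γ0, mul_assoc Γ0, ← Real.exp_add, ← Real.exp_add]
  apply mul_le_mul_of_nonneg_left _ hΓ.le
  apply Real.exp_le_exp.mpr
  have h1 : 16 ≤ ℒ * ε := by rwa [div_le_iff₀ hε] at a4
  nlinarith

end Pool.Agent.H466.LD
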