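import Pool.Agent.H466.LD.L7

/-!
# Splitting of the heat flow: the half transform
-/

set_option autoImplicit false

open Complex MeasureTheory Filter Topology Set Metric
open scoped ComplexConjugate

namespace Pool.Agent.H466.LD

open Pool.Agent.H466.HF

variable {g : ℝ → ℂ} {A c : ℝ}

/-- the heat flow as a Gaussian average along the horizontal line at the height `T` -/
lemma tilt2 (k : Kern g A c) {lam : ℝ} (hlam : 0 < lam) (T : ℝ) (w : ℂ) :
    ∫ v : ℝ, LL g 0 ((v : ℂ) + (T : ℂ) * I) * cexp (-((v : ℂ) - w) ^ 2 / (4 * lam)) =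
      (Real.sqrt (Real.pi * (4 * lam)) : ℂ) * LL g lam ((T : ℂ) * I + w) := by
  have hl : (lam : ℂ) ≠ 0 := by exact_mod_cast hlam.ne'
  set θ : ℝ := -w.im / (2 * lam) with hθ
  have hθ' : (w.im : ℂ) = -2 * lam * θ := by
    rw [hθ]; push_cast; field_simp
  have hw : w = (w.re : ℂ) + (w.im : ℂ) * I := (re_add_im w).symm
  have h := k.tilt hlam θ ((w.re : ℂ) + (T : ℂ) * I)
  rw [← integral_add_right_eq_self _ w.re]
  have e : ∀ v : ℝ, LL g 0 (((v + w.re : ℝ) : ℂ) + (T : ℂ) * I) *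
      cexp (-(((v + w.re : ℝ) : ℂ) - w) ^ 2 / (4 * lam)) =
      cexp (lam * θ ^ 2) * ((LL g 0 ((w.re : ℂ) + (T : ℂ) * I + v) *
        (Real.exp (-v ^ 2 / (4 * lam)) : ℂ)) * cexp (-(I * θ * v))) := by
    intro v
    have e1 : ((v + w.re : ℝ) : ℂ) + (T : ℂ) * I = (w.re : ℂ) + (T : ℂ) * I + v := by
      push_cast; ring
    have e2 : -(((v + w.re : ℝ) : ℂ) - w) ^ 2 / (4 * lam) =
        (lam * θ ^ 2) + (((-v ^ 2 / (4 * lam) : ℝ) : ℂ) + -(I * θ * v)) := by
      have e3 : ((v + w.re : ℝ) : ℂ) - w = v + 2 * lam * θ * I := by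
        rw [ofReal_add]
        nth_rewrite 2 [hw]
        rw [hθ']
        ring
      rw [e3]
      push_cast
      have hI : I ^ 2 = -1 := I_sq
      field_simp
      linear_combination (-4 * (lam : ℂ) ^ 2 * θ ^ 2) * hI
    rw [e1, e2, Complex.exp_add, Complex.exp_add, ← ofReal_exp]
    ring
  simp_rw [e]
  rw [integral_const_mul, h]
  have e4 : (w.re : ℂ) + (T : ℂ) * I - 2 * I * lam * θ = (T : ℂ) * I + w := by
    nth_rewrite 2 [hw]
    rw [hθ']
    ring
  rw [e4]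
  have e5 : cexp (lam * θ ^ 2) * cexp (-(lam * θ ^ 2)) = 1 := by
    rw [← Complex.exp_add, add_neg_cancel, Complex.exp_zero]
  calc cexp (lam * θ ^ 2) * ((Real.sqrt (Real.pi * (4 * lam)) : ℂ) * cexp (-(lam * θ ^ 2)) *
        LL g lam ((T : ℂ) * I + w))
      = (cexp (lam * θ ^ 2) * cexp (-(lam * θ ^ 2))) *
        ((Real.sqrt (Real.pi * (4 * lam)) : ℂ) * LL g lam ((T : ℂ) * I + w)) := by ring
    _ = _ := by rw [e5, one_mul]

/-- the half transform -/
noncomputable def AA (F : ℂ → ℂ) (T lam : ℝ) (w : ℂ) : ℂ :=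
  ((1 / Real.sqrt (Real.pi * (4 * lam)) : ℝ) : ℂ) *
    ∫ v in Ioi (0 : ℝ), F ((v : ℂ) + (T : ℂ) * I) * cexp (-((v : ℂ) - w) ^ 2 / (4 * lam))

/-- growth of a function along the horizontal half line at the height `T` -/
structure Gr (F : ℂ → ℂ) (T ℒ B K lam : ℝ) : Prop where
  cont : Continuous F
  K0 : 0 ≤ K
  B0 : 0 ≤ B
  ℒ0 : 0 ≤ ℒ
  lam0 : 0 < lam
  small : 16 * K * lam ≤ 1
  bd : ∀ v : ℝ, 0 ≤ v → ‖F ((v : ℂ) + (T : ℂ) * I)‖ ≤ B * Real.exp (ℒ * v + K * v ^ 2)

variable {F : ℂ → ℂ} {T ℒ B K lam : ℝ}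

lemma norm_gk (lam v : ℝ) (w : ℂ) : ‖cexp (-((v : ℂ) - w) ^ 2 / (4 * lam))‖ =
    Real.exp (-(v - w.re) ^ 2 / (4 * lam) + w.im ^ 2 / (4 * lam)) := by
  rw [Complex.norm_exp]
  congr 1
  have e : -((v : ℂ) - w) ^ 2 / (4 * lam) =
      ((-(v - w.re) ^ 2 / (4 * lam) + w.im ^ 2 / (4 * lam) : ℝ) : ℂ) +
        (((v - w.re) * w.im / (2 * lam) : ℝ) : ℂ) * I := by
    have hw : w = (w.re : ℂ) + (w.im : ℂ) * I := (re_add_im w).symm
    have e3 : ((v : ℂ) - w) = ((v - w.re : ℝ) : ℂ) - (w.im : ℂ) * I := by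
      nth_rewrite 1 [hw]
      push_cast
      ring
    rw [e3]
    push_cast
    have hI : I ^ 2 = -1 := I_sq
    by_cases hl : (lam : ℂ) = 0
    · rw [hl]; simp
    · field_simp
      linear_combination (-2 * (w.im : ℂ) ^ 2) * hI
  rw [e, add_re, ofReal_re, re_ofReal_mul, I_re, mul_zero, add_zero]

namespace Gr

lemma dom (G : Gr F T ℒ B K lam) {w : ℂ} {m v : ℝ} (hm : ‖w‖ ≤ m) (hv : 0 ≤ v) :
    ‖F ((v : ℂ) + (T : ℂ) * I) * cexp (-((v : ℂ) - w) ^ 2 / (4 * lam))‖ ≤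
      (B * Real.exp (m ^ 2 / (4 * lam))) *
        (Real.exp ((ℒ + m / (2 * lam)) * |v| + K * v ^ 2) * Real.exp (-v ^ 2 / (4 * lam))) := by
  have hlam := G.lam0
  have hB := G.B0
  rw [norm_mul, norm_gk]
  have h1 := G.bd v hv
  have h2 : |w.re| ≤ m := (abs_re_le_norm w).trans hm
  have h3 : |w.im| ≤ m := (abs_im_le_norm w).trans hm
  have h4 : w.im ^ 2 ≤ m ^ 2 := sq_le_sq' (by linarith [(abs_le.mp h3).1]) (abs_le.mp h3).2
  have h5 : Real.exp (-(v - w.re) ^ 2 / (4 * lam) + w.im ^ 2 / (4 * lam)) ≤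
      Real.exp (-v ^ 2 / (4 * lam) + m / (2 * lam) * v + m ^ 2 / (4 * lam)) := by
    apply Real.exp_le_exp.mpr
    have e1 : -(v - w.re) ^ 2 / (4 * lam) + w.im ^ 2 / (4 * lam) =
        (-(v - w.re) ^ 2 + w.im ^ 2) / (4 * lam) := by ring
    have e2 : -v ^ 2 / (4 * lam) + m / (2 * lam) * v + m ^ 2 / (4 * lam) =
        (-v ^ 2 + 2 * m * v + m ^ 2) / (4 * lam) := by
      field_simp
      ring
    rw [e1, e2]
    apply div_le_div_of_nonneg_right _ (by positivity)
    have h6 := (abs_le.mp h2).2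
    nlinarith [sq_nonneg w.re]
  rw [abs_of_nonneg hv]
  calc ‖F ((v : ℂ) + (T : ℂ) * I)‖ * Real.exp (-(v - w.re) ^ 2 / (4 * lam) + w.im ^ 2 / (4 * lam))
      ≤ (B * Real.exp (ℒ * v + K * v ^ 2)) *
        Real.exp (-v ^ 2 / (4 * lam) + m / (2 * lam) * v + m ^ 2 / (4 * lam)) := by
        gcongr
    _ = _ := by
        rw [mul_assoc, mul_assoc, ← Real.exp_add, ← Real.exp_add, ← Real.exp_add]
        congr 2
        ring

lemma int_on (G : Gr F T ℒ B K lam) (w : ℂ) : IntegrableOn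
    (fun v : ℝ => F ((v : ℂ) + (T : ℂ) * I) * cexp (-((v : ℂ) - w) ^ 2 / (4 * lam))) (Ioi 0) := by
  obtain ⟨i1, -⟩ := gauss_norm (ℒ := ℒ + ‖w‖ / (2 * lam)) (K := K) G.lam0 G.K0 (by
    have := G.small
    have := G.K0
    have := G.lam0
    have : 0 ≤ K * lam := by positivity
    linarith)
  have hF := G.cont
  refine Integrable.mono' ((i1.const_mul (B * Real.exp (‖w‖ ^ 2 / (4 * lam)))).integrableOn)
    (Continuous.aestronglyMeasurable (by fun_prop)) ?_
  refine (ae_restrict_iff' measurableSet_Ioi).mpr (Eventually.of_forall fun v hv => ?_)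
  exact G.dom le_rfl (le_of_lt hv)

lemma diff (G : Gr F T ℒ B K lam) : Differentiable ℂ (AA F T lam) := by
  have hlam := G.lam0
  have hB := G.B0
  have hF := G.cont
  intro w
  unfold AA
  refine DifferentiableAt.const_mul ?_ _
  set m : ℝ := ‖w‖ + 1 with hm
  have hm0 : 0 ≤ m := by positivity
  obtain ⟨i1, -⟩ := gauss_norm (ℒ := ℒ + (m + 1) / (2 * lam)) (K := K) G.lam0 G.K0 (by
    have := G.small
    have := G.K0
    have : 0 ≤ K * lam := by positivity
    linarith)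
  have hC : 0 ≤ B * Real.exp (m ^ 2 / (4 * lam)) * Real.exp (m / (2 * lam)) := by positivity
  have key := hasDerivAt_integral_of_dominated_loc_of_deriv_le
    (μ := volume.restrict (Ioi (0 : ℝ)))
    (F := fun (w : ℂ) (v : ℝ) => F ((v : ℂ) + (T : ℂ) * I) * cexp (-((v : ℂ) - w) ^ 2 / (4 * lam)))
    (F' := fun (w : ℂ) (v : ℝ) => F ((v : ℂ) + (T : ℂ) * I) *
      (cexp (-((v : ℂ) - w) ^ 2 / (4 * lam)) * (((v : ℂ) - w) / (2 * lam))))
    (bound := fun v : ℝ => (B * Real.exp (m ^ 2 / (4 * lam)) * Real.exp (m / (2 * lam))) *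
      (Real.exp ((ℒ + (m + 1) / (2 * lam)) * |v| + K * v ^ 2) * Real.exp (-v ^ 2 / (4 * lam))))
    (x₀ := w) (s := ball w 1) (ball_mem_nhds w one_pos)
    (Eventually.of_forall fun w' => Continuous.aestronglyMeasurable (by fun_prop))
    (G.int_on w)
    (Continuous.aestronglyMeasurable (by fun_prop))
    ?_ ((i1.const_mul _).integrableOn) ?_
  · exact key.2.differentiableAt
  · refine (ae_restrict_iff' measurableSet_Ioi).mpr (Eventually.of_forall fun v hv w' hw' => ?_)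
    have hv0 : 0 ≤ v := le_of_lt hv
    have hw2 : ‖w'‖ ≤ m := by
      rw [mem_ball, dist_eq_norm] at hw'
      have := norm_le_norm_add_norm_sub' w' w
      rw [hm]
      linarith
    have h1 := G.dom hw2 hv0
    have h2 : ‖((v : ℂ) - w') / (2 * lam)‖ ≤ Real.exp (m / (2 * lam)) * Real.exp (1 / (2 * lam) * |v|) := by
      have h3 : ‖((v : ℂ) - w') / (2 * lam)‖ ≤ (v + m) / (2 * lam) := by
        rw [norm_div]
        have h4 : ‖(2 * lam : ℂ)‖ = 2 * lam := by
          have : (2 * lam : ℂ) = ((2 * lam : ℝ) : ℂ) := by push_cast; ring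
          rw [this, Complex.norm_real, Real.norm_of_nonneg (by positivity)]
        rw [h4]
        apply div_le_div_of_nonneg_right _ (by positivity)
        refine (norm_sub_le _ _).trans ?_
        rw [Complex.norm_real, Real.norm_of_nonneg hv0]
        linarith
      refine h3.trans ?_
      rw [← Real.exp_add, abs_of_nonneg hv0]
      have e : (v + m) / (2 * lam) = m / (2 * lam) + 1 / (2 * lam) * v := by ring
      rw [e]
      linarith [Real.add_one_le_exp (m / (2 * lam) + 1 / (2 * lam) * v)]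
    calc ‖F ((v : ℂ) + (T : ℂ) * I) *
        (cexp (-((v : ℂ) - w') ^ 2 / (4 * lam)) * (((v : ℂ) - w') / (2 * lam)))‖
        = ‖F ((v : ℂ) + (T : ℂ) * I) * cexp (-((v : ℂ) - w') ^ 2 / (4 * lam))‖ *
          ‖((v : ℂ) - w') / (2 * lam)‖ := by rw [← mul_assoc, norm_mul]
      _ ≤ ((B * Real.exp (m ^ 2 / (4 * lam))) *
        (Real.exp ((ℒ + m / (2 * lam)) * |v| + K * v ^ 2) * Real.exp (-v ^ 2 / (4 * lam)))) *
        (Real.exp (m / (2 * lam)) * Real.exp (1 / (2 * lam) * |v|)) := by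
          gcongr
      _ = B * Real.exp (m ^ 2 / (4 * lam)) * Real.exp (m / (2 * lam)) *
          ((Real.exp ((ℒ + m / (2 * lam)) * |v| + K * v ^ 2) * Real.exp (1 / (2 * lam) * |v|)) *
            Real.exp (-v ^ 2 / (4 * lam))) := by ring
      _ = _ := by
          rw [← Real.exp_add]
          congr 3
          ring
  · refine (ae_restrict_iff' measurableSet_Ioi).mpr (Eventually.of_forall fun v _ w' _ => ?_)
    have hl : (lam : ℂ) ≠ 0 := by exact_mod_cast hlam.ne'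
    have h1 : HasDerivAt (fun w' : ℂ => -((v : ℂ) - w') ^ 2 / (4 * lam))
        (((v : ℂ) - w') / (2 * lam)) w' := by
      have h2 := (((hasDerivAt_id' w').const_sub (v : ℂ)).pow 2).neg.div_const (4 * (lam : ℂ))
      refine h2.congr_deriv ?_
      simp only [Nat.cast_ofNat, Nat.add_one_sub_one, pow_one]
      field_simp
      ring
    exact h1.cexp.const_mul _

lemma norm_le (G : Gr F T ℒ B K lam) (w : ℂ) :
    ‖AA F T lam w‖ ≤ B * Real.exp (ℒ * w.re + lam * ℒ ^ 2 + 16 * K * (lam * ℒ) ^ 2 +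
      2 * K * w.re ^ 2 + w.im ^ 2 / (4 * lam) + 2) := by
  have hlam := G.lam0
  have hB := G.B0
  have hK := G.K0
  have hℒ := G.ℒ0
  have hS := sqrt_pos' hlam
  obtain ⟨i1, i2⟩ := gauss_norm (ℒ := ℒ) (K := 2 * K) hlam (by linarith) (by linarith [G.small])
  set S := Real.sqrt (Real.pi * (4 * lam)) with hSd
  set D : ℝ := B * Real.exp (ℒ * w.re + 2 * K * w.re ^ 2 + w.im ^ 2 / (4 * lam)) with hD
  have hD0 : 0 ≤ D := by positivity
  set h : ℝ → ℝ := fun v => D * (Real.exp (ℒ * |v - w.re| + 2 * K * (v - w.re) ^ 2) *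
    Real.exp (-(v - w.re) ^ 2 / (4 * lam))) with hh
  have hhi : Integrable h := (i1.comp_sub_right w.re).const_mul D
  have hhint : ∫ v, h v ≤ D * (S * Real.exp (lam * ℒ ^ 2 + 8 * (2 * K) * (lam * ℒ) ^ 2 + 2)) := by
    rw [hh, integral_const_mul, integral_sub_right_eq_self (fun v : ℝ =>
      Real.exp (ℒ * |v| + 2 * K * v ^ 2) * Real.exp (-v ^ 2 / (4 * lam)))]
    exact mul_le_mul_of_nonneg_left i2 hD0
  have h1 : ‖∫ v in Ioi (0 : ℝ), F ((v : ℂ) + (T : ℂ) * I) *
      cexp (-((v : ℂ) - w) ^ 2 / (4 * lam))‖ ≤ ∫ v in Ioi (0 : ℝ), h v := by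
    refine norm_integral_le_of_norm_le hhi.integrableOn
      ((ae_restrict_iff' measurableSet_Ioi).mpr (Eventually.of_forall fun v hv => ?_))
    have hv0 : 0 ≤ v := le_of_lt hv
    rw [norm_mul, norm_gk]
    have h2 := G.bd v hv0
    have h3 : ℒ * v + K * v ^ 2 ≤ (ℒ * w.re + 2 * K * w.re ^ 2) +
        (ℒ * |v - w.re| + 2 * K * (v - w.re) ^ 2) := by
      have h4 : v - w.re ≤ |v - w.re| := le_abs_self _
      have h5 := sq_add_le (v - w.re) w.re
      rw [sub_add_cancel] at h5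
      nlinarith
    calc ‖F ((v : ℂ) + (T : ℂ) * I)‖ *
          Real.exp (-(v - w.re) ^ 2 / (4 * lam) + w.im ^ 2 / (4 * lam))
        ≤ (B * Real.exp (ℒ * v + K * v ^ 2)) *
          Real.exp (-(v - w.re) ^ 2 / (4 * lam) + w.im ^ 2 / (4 * lam)) := by gcongr
      _ ≤ (B * Real.exp ((ℒ * w.re + 2 * K * w.re ^ 2) +
        (ℒ * |v - w.re| + 2 * K * (v - w.re) ^ 2))) *
          Real.exp (-(v - w.re) ^ 2 / (4 * lam) + w.im ^ 2 / (4 * lam)) := by gcongr
      _ = B * Real.exp ((ℒ * w.re + 2 * K * w.re ^ 2 + w.im ^ 2 / (4 * lam)) +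
            ((ℒ * |v - w.re| + 2 * K * (v - w.re) ^ 2) + -(v - w.re) ^ 2 / (4 * lam))) := by
          rw [mul_assoc, ← Real.exp_add]
          congr 2
          ring
      _ = _ := by
          simp only [hh, hD]
          rw [Real.exp_add, Real.exp_add (ℒ * |v - w.re| + 2 * K * (v - w.re) ^ 2), mul_assoc B]
  have h2 : ∫ v in Ioi (0 : ℝ), h v ≤ ∫ v, h v :=
    setIntegral_le_integral hhi (Eventually.of_forall fun v => by
      simp only [hh]
      positivity)
  unfold AA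
  rw [norm_mul, Complex.norm_real, Real.norm_of_nonneg (by positivity), ← hSd]
  have h3 := (h1.trans h2).trans hhint
  calc 1 / S * ‖∫ v in Ioi (0 : ℝ), F ((v : ℂ) + (T : ℂ) * I) *
        cexp (-((v : ℂ) - w) ^ 2 / (4 * lam))‖
      ≤ 1 / S * (D * (S * Real.exp (lam * ℒ ^ 2 + 8 * (2 * K) * (lam * ℒ) ^ 2 + 2))) := by
        gcongr
    _ = D * Real.exp (lam * ℒ ^ 2 + 8 * (2 * K) * (lam * ℒ) ^ 2 + 2) := by
        field_simp
    _ = _ := by
        rw [hD, mul_assoc, ← Real.exp_add]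
        congr 2
        ring

end Gr

/-- the heat flow is the sum of the half transform and of its reflection -/
lemma split (k : Kern g A c) (G : Gr (LL g 0) T ℒ B K lam)
    (hfe : ∀ z : ℂ, LL g 0 (-conj z) = conj (LL g 0 z)) (w : ℂ) :
    LL g lam ((T : ℂ) * I + w) = AA (LL g 0) T lam w + conj (AA (LL g 0) T lam (-conj w)) := by
  have hlam := G.lam0
  have hS := sqrt_pos' hlam
  have h1 := tilt2 k hlam T w
  set f : ℝ → ℂ := fun v => LL g 0 ((v : ℂ) + (T : ℂ) * I) *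
    cexp (-((v : ℂ) - w) ^ 2 / (4 * lam)) with hf
  have hneg : ∀ v : ℝ, f (-v) = conj (LL g 0 ((v : ℂ) + (T : ℂ) * I) *
      cexp (-((v : ℂ) - (-conj w)) ^ 2 / (4 * lam))) := by
    intro v
    simp only [hf]
    have e1 : ((-v : ℝ) : ℂ) + (T : ℂ) * I = -conj ((v : ℂ) + (T : ℂ) * I) := by
      simp only [map_add, map_mul, conj_ofReal, conj_I]
      push_cast
      ring
    rw [e1, hfe, map_mul, ← Complex.exp_conj]
    congr 2
    simp only [map_div₀, map_neg, map_pow, map_sub, conj_ofReal, conj_conj, map_mul, map_ofNat]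
    push_cast
    ring
  have i1 : IntegrableOn f (Ioi 0) := G.int_on w
  have i2 : IntegrableOn (fun v : ℝ => f (-v)) (Ioi 0) := by
    have h2 := G.int_on (-conj w)
    have h3 : (fun v : ℝ => f (-v)) = fun v : ℝ => conj (LL g 0 ((v : ℂ) + (T : ℂ) * I) *
      cexp (-((v : ℂ) - (-conj w)) ^ 2 / (4 * lam))) := funext hneg
    rw [h3]
    refine Integrable.mono' (h2.norm) ?_ (Eventually.of_forall fun v => by
      rw [RCLike.norm_conj])
    have := (k.differentiable 0).continuous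
    exact Continuous.aestronglyMeasurable (by fun_prop)
  have i3 : IntegrableOn f (Iic 0) := by
    rw [integrableOn_Iic_iff_integrableOn_Iio]
    have h4 := (MeasurePreserving.integrableOn_comp_preimage (Measure.measurePreserving_neg
      (volume : Measure ℝ)) (Homeomorph.neg ℝ).measurableEmbedding (f := f) (s := Iio 0)).mp
    refine h4 ?_
    have e : (Neg.neg ⁻¹' Iio 0 : Set ℝ) = Ioi 0 := by
      ext x; simp
    rw [e]
    exact i2
  have h2 : ∫ v, f v = (∫ v in Iic 0, f v) + ∫ v in Ioi 0, f v :=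
    (intervalIntegral.integral_Iic_add_Ioi i3 i1).symm
  have h3 : ∫ v in Iic 0, f v = ∫ v in Ioi 0, f (-v) := by
    have := integral_comp_neg_Ioi (0 : ℝ) f
    rw [neg_zero] at this
    exact this.symm
  have h4 : ∫ v in Ioi 0, f (-v) = conj (∫ v in Ioi (0 : ℝ), LL g 0 ((v : ℂ) + (T : ℂ) * I) *
      cexp (-((v : ℂ) - (-conj w)) ^ 2 / (4 * lam))) := by
    rw [← integral_conj]
    exact integral_congr_ae (Eventually.of_forall hneg)
  have hSc : (Real.sqrt (Real.pi * (4 * lam)) : ℂ) ≠ 0 := by exact_mod_cast hS.ne'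
  have h5 : LL g lam ((T : ℂ) * I + w) = ((1 / Real.sqrt (Real.pi * (4 * lam)) : ℝ) : ℂ) *
      ∫ v, f v := by
    rw [h1, ofReal_div, ofReal_one, ← mul_assoc, one_div, inv_mul_cancel₀ hSc, one_mul]
  rw [h5, h2, h3, h4]
  unfold AA
  rw [map_mul, conj_ofReal, add_comm, mul_add]

end Pool.Agent.H466.LD
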