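import Pool.Agent.H466.LD.L8
import Pool.Graph.R_seed8.W186.LH.Fac
import Pool.Graph.R_seed8.H31R2.DH.Back

/-!
# Two constants, and zeros from the variation of the argument
-/

set_option autoImplicit false

open Complex MeasureTheory Filter Topology Set Metric
open scoped ComplexConjugate

namespace Pool.Agent.H466.LD

open Pool.Agent.H466.HF

/-- small values near the left end of a circle give small values at the centre -/
theorem two_const {ϱ ρ1 : ℝ} (hϱ : 0 < ϱ) (hρ1 : 0 < ρ1) :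
    ∃ θ : ℝ, 0 < θ ∧ ∀ (f : ℂ → ℂ) (C : ℂ) (m s : ℝ), Differentiable ℂ f → 0 ≤ s →
      (∀ z ∈ sphere C ϱ, ‖f z‖ ≤ Real.exp m) →
      (∀ z ∈ sphere C ϱ, ‖z - (C - ϱ)‖ ≤ ρ1 → ‖f z‖ ≤ Real.exp (m - s)) →
      ‖f C‖ ≤ Real.exp (m - θ * s) := by
  set d : ℝ := min (ρ1 / 2) (ρ1 ^ 2 / (8 * (2 * ϱ + ρ1))) with hd
  have hd0 : 0 < d := lt_min (by positivity) (by positivity)
  have hd1 : d ≤ ρ1 / 2 := min_le_left _ _
  have hd2 : d * (2 * ϱ + ρ1) ≤ ρ1 ^ 2 / 8 := by
    have h1 : d ≤ ρ1 ^ 2 / (8 * (2 * ϱ + ρ1)) := min_le_right _ _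
    calc d * (2 * ϱ + ρ1) ≤ ρ1 ^ 2 / (8 * (2 * ϱ + ρ1)) * (2 * ϱ + ρ1) := by gcongr
      _ = _ := by field_simp
  set b : ℝ := 3 / (4 * (ϱ + d)) with hb
  have hbd : 0 < 1 / d - b := by
    rw [hb, sub_pos, div_lt_div_iff₀ (by positivity) hd0]
    linarith
  set κ : ℝ := 1 / (1 / d - b) with hκ
  have hκ0 : 0 < κ := by positivity
  refine ⟨κ / (4 * (ϱ + d)), by positivity, ?_⟩
  intro f C m s hf hs h1 h2
  set p : ℂ := C - ((ϱ + d : ℝ) : ℂ) with hp
  have hge : ∀ z ∈ closedBall C ϱ, d ≤ ‖z - p‖ := by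
    intro z hz
    rw [mem_closedBall, dist_eq_norm] at hz
    have h3 : C - p = (z - p) - (z - C) := by ring
    have h4 : ‖C - p‖ = ϱ + d := by
      rw [hp, sub_sub_cancel, Complex.norm_real, Real.norm_of_nonneg (by positivity)]
    have h5 := norm_sub_le (z - p) (z - C)
    rw [← h3, h4] at h5
    linarith
  set g : ℂ → ℂ := fun z => f z * cexp (((s * κ : ℝ) : ℂ) * (1 / (z - p) - (b : ℂ))) with hg
  have hnorm : ∀ z, ‖g z‖ = ‖f z‖ * Real.exp (s * κ * ((1 / (z - p)).re - b)) := by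
    intro z
    simp only [hg]
    rw [norm_mul, Complex.norm_exp, re_ofReal_mul, sub_re, ofReal_re]
  have hdiff : DiffContOnCl ℂ g (ball C ϱ) := by
    apply DifferentiableOn.diffContOnCl
    intro z hz
    have hz' : z ∈ closedBall C ϱ := closure_ball_subset_closedBall hz
    have h3 : z - p ≠ 0 := by
      rw [← norm_pos_iff]
      linarith [hge z hz']
    have h4 : DifferentiableAt ℂ (fun z : ℂ => 1 / (z - p)) z :=
      (differentiableAt_const (1 : ℂ)).div (differentiableAt_id.sub_const p) h3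
    have h5 : DifferentiableAt ℂ g z := by
      simp only [hg]
      exact (hf z).mul ((((h4.sub_const _)).const_mul _).cexp)
    exact h5.differentiableWithinAt
  have hre1 : ∀ z ∈ closedBall C ϱ, (1 / (z - p)).re ≤ 1 / d := by
    intro z hz
    refine (re_le_norm _).trans ?_
    rw [norm_div, norm_one]
    exact one_div_le_one_div_of_le hd0 (hge z hz)
  have hfr : ∀ z ∈ frontier (ball C ϱ), ‖g z‖ ≤ Real.exp m := by
    intro z hz
    rw [frontier_ball C hϱ.ne'] at hz
    have hz' : z ∈ closedBall C ϱ := sphere_subset_closedBall hz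
    rw [hnorm]
    rcases le_or_gt ‖z - (C - ϱ)‖ ρ1 with h3 | h3
    · have h4 := h2 z hz h3
      have h5 : s * κ * ((1 / (z - p)).re - b) ≤ s := by
        have h6 : κ * ((1 / (z - p)).re - b) ≤ 1 := by
          have h7 := hre1 z hz'
          calc κ * ((1 / (z - p)).re - b) ≤ κ * (1 / d - b) := by gcongr
            _ = 1 := by rw [hκ, one_div_mul_cancel hbd.ne']
        rw [mul_assoc]
        calc s * (κ * ((1 / (z - p)).re - b)) ≤ s * 1 := by gcongr
          _ = s := mul_one s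
      calc ‖f z‖ * Real.exp (s * κ * ((1 / (z - p)).re - b))
          ≤ Real.exp (m - s) * Real.exp s := by gcongr
        _ = Real.exp m := by rw [← Real.exp_add]; congr 1; ring
    · have h4 := h1 z hz
      have h5 : (1 / (z - p)).re ≤ b := by
        set ζ := z - p with hζ
        have h6 : ρ1 / 2 ≤ ‖ζ‖ := by
          have h7 : z - (C - ϱ) = ζ - (d : ℂ) := by
            rw [hζ, hp]
            push_cast
            ring
          have h8 := norm_sub_le ζ (d : ℂ)
          rw [← h7, Complex.norm_real, Real.norm_of_nonneg hd0.le] at h8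
          linarith
        have h9 : ‖ζ‖ ^ 2 - 2 * (ϱ + d) * ζ.re + (ϱ + d) ^ 2 = ϱ ^ 2 := by
          have h10 : z - C = ζ - ((ϱ + d : ℝ) : ℂ) := by
            rw [hζ, hp]
            ring
          rw [mem_sphere, dist_eq_norm, h10] at hz
          have h14 : ‖ζ - ((ϱ + d : ℝ) : ℂ)‖ ^ 2 = (ζ.re - (ϱ + d)) ^ 2 + ζ.im ^ 2 := by
            rw [← Complex.normSq_eq_norm_sq, Complex.normSq_apply, sub_re, sub_im,
              Complex.ofReal_re, Complex.ofReal_im]
            ring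
          have h15 : ‖ζ‖ ^ 2 = ζ.re ^ 2 + ζ.im ^ 2 := by
            rw [← Complex.normSq_eq_norm_sq, Complex.normSq_apply]
            ring
          rw [hz] at h14
          rw [h14, h15]
          ring
        have h11 : (1 / ζ).re = ζ.re / ‖ζ‖ ^ 2 := by
          rw [one_div, Complex.inv_re, Complex.normSq_eq_norm_sq]
        have h12 : 0 < ‖ζ‖ ^ 2 := by
          have : 0 < ‖ζ‖ := by linarith
          positivity
        rw [h11, div_le_iff₀ h12, hb]
        have h13 : (ρ1 / 2) ^ 2 ≤ ‖ζ‖ ^ 2 := pow_le_pow_left₀ (by positivity) h6 2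
        rw [div_mul_eq_mul_div, le_div_iff₀ (by positivity)]
        nlinarith
      have h6 : s * κ * ((1 / (z - p)).re - b) ≤ 0 := by
        apply mul_nonpos_of_nonneg_of_nonpos (by positivity)
        linarith
      calc ‖f z‖ * Real.exp (s * κ * ((1 / (z - p)).re - b))
          ≤ Real.exp m * 1 := by
            gcongr
            exact Real.exp_le_one_iff.mpr h6
        _ = Real.exp m := mul_one _
  have key := Complex.norm_le_of_forall_mem_frontier_norm_le (U := ball C ϱ) isBounded_ball hdiff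
    hfr (subset_closure (mem_ball_self hϱ))
  rw [hnorm] at key
  have h3 : (1 / (C - p)).re = 1 / (ϱ + d) := by
    rw [hp, sub_sub_cancel, ← ofReal_one, ← ofReal_div, ofReal_re]
  rw [h3] at key
  have h4 : 1 / (ϱ + d) - b = 1 / (4 * (ϱ + d)) := by
    rw [hb]
    field_simp
    norm_num
  rw [h4] at key
  have h5 : ‖f C‖ = ‖f C‖ * Real.exp (s * κ * (1 / (4 * (ϱ + d)))) *
      Real.exp (-(s * κ * (1 / (4 * (ϱ + d))))) := by
    rw [mul_assoc, ← Real.exp_add, add_neg_cancel, Real.exp_zero, mul_one]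
  rw [h5]
  calc ‖f C‖ * Real.exp (s * κ * (1 / (4 * (ϱ + d)))) * Real.exp (-(s * κ * (1 / (4 * (ϱ + d)))))
      ≤ Real.exp m * Real.exp (-(s * κ * (1 / (4 * (ϱ + d))))) := by gcongr
    _ = _ := by
        rw [← Real.exp_add]
        congr 1
        ring

/-- a point near `iT` where the function has the expected size -/
theorem big_point {c0 r σ : ℝ} (hr : 0 < r) (hrc : r < c0) (hσ : 0 < σ) :
    ∃ μ1 : ℝ, 0 < μ1 ∧ ∀ (F : ℂ → ℂ) (T ℒ Γ1 : ℝ), Differentiable ℂ F → 0 < Γ1 → 0 < ℒ →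
      (∀ z : ℂ, 0 ≤ z.re → z.re ≤ 2 * c0 → |z.im - T| ≤ c0 →
        ‖F z‖ ≤ Γ1 * Real.exp (ℒ * (z.re + μ1))) →
      Γ1 * Real.exp (ℒ * (c0 - μ1)) ≤ ‖F ((c0 : ℂ) + (T : ℂ) * I)‖ →
      ∃ w0 : ℂ, r / 4 ≤ w0.re ∧ |w0.im| ≤ r / 4 ∧ ‖w0‖ ≤ r ∧
        Γ1 * Real.exp (ℒ * (w0.re - σ)) ≤ ‖F ((T : ℂ) * I + w0)‖ := by
  obtain ⟨θ, hθ, h⟩ := two_const (ϱ := c0 - r / 2) (ρ1 := r / 4) (by linarith) (by positivity)
  refine ⟨θ * σ / 4, by positivity, ?_⟩
  intro F T ℒ Γ1 hF hΓ hℒ hup hlow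
  set μ1 := θ * σ / 4 with hμ1
  have hμ10 : 0 < μ1 := by positivity
  by_contra hcon
  push Not at hcon
  set C : ℂ := (c0 : ℂ) + (T : ℂ) * I with hC
  have hCre : C.re = c0 := by simp [hC]
  have hCim : C.im = T := by simp [hC]
  have hnf := norm_nf F ℒ hΓ
  have key := h (nf F ℒ Γ1) C (ℒ * μ1) (ℒ * (μ1 + σ)) (nf_diff hF ℒ Γ1) (by positivity)
    (by
      intro z hz
      rw [mem_sphere, dist_eq_norm] at hz
      have h1 : |z.re - c0| ≤ c0 - r / 2 := by
        have := abs_re_le_norm (z - C)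
        rwa [sub_re, hCre, hz] at this
      have h2 : |z.im - T| ≤ c0 - r / 2 := by
        have := abs_im_le_norm (z - C)
        rwa [sub_im, hCim, hz] at this
      rw [abs_le] at h1
      have h3 := hup z (by linarith [h1.1]) (by linarith [h1.2]) (by linarith)
      rw [hnf, div_mul_eq_mul_div, div_le_iff₀ hΓ]
      calc ‖F z‖ * Real.exp (-(ℒ * z.re))
          ≤ (Γ1 * Real.exp (ℒ * (z.re + μ1))) * Real.exp (-(ℒ * z.re)) := by gcongr
        _ = _ := by
            rw [mul_assoc, ← Real.exp_add, mul_comm]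
            congr 2
            ring)
    (by
      intro z hz hz2
      have e : C - ((c0 - r / 2 : ℝ) : ℂ) = ((r / 2 : ℝ) : ℂ) + (T : ℂ) * I := by
        rw [hC]; push_cast; ring
      rw [e] at hz2
      have h1 : |z.re - r / 2| ≤ r / 4 := by
        have := (abs_re_le_norm _).trans hz2
        simpa using this
      have h2 : |z.im - T| ≤ r / 4 := by
        have := (abs_im_le_norm _).trans hz2
        simpa using this
      set w0 : ℂ := z - (T : ℂ) * I with hw0
      have hw1 : w0.re = z.re := by simp [hw0]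
      have hw2 : w0.im = z.im - T := by simp [hw0]
      have h3 := hcon w0 (by rw [hw1]; linarith [(abs_le.mp h1).1]) (by rw [hw2]; exact h2) (by
        refine (Complex.norm_le_abs_re_add_abs_im w0).trans ?_
        rw [hw1, hw2, abs_of_nonneg (by linarith [(abs_le.mp h1).1])]
        linarith [(abs_le.mp h1).2])
      have e2 : (T : ℂ) * I + w0 = z := by rw [hw0]; ring
      rw [e2, hw1] at h3
      rw [hnf, div_mul_eq_mul_div, div_le_iff₀ hΓ]
      calc ‖F z‖ * Real.exp (-(ℒ * z.re))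
          ≤ (Γ1 * Real.exp (ℒ * (z.re - σ))) * Real.exp (-(ℒ * z.re)) := by gcongr
        _ = _ := by
            rw [mul_assoc, ← Real.exp_add, mul_comm]
            congr 2
            ring)
  rw [hnf, hCre, div_mul_eq_mul_div, div_le_iff₀ hΓ] at key
  have h1 : Γ1 * Real.exp (-(ℒ * μ1)) ≤ ‖F C‖ * Real.exp (-(ℒ * c0)) := by
    calc Γ1 * Real.exp (-(ℒ * μ1)) = (Γ1 * Real.exp (ℒ * (c0 - μ1))) * Real.exp (-(ℒ * c0)) := by
          rw [mul_assoc, ← Real.exp_add]
          congr 2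
          ring
      _ ≤ _ := by gcongr
  have h2 := h1.trans key
  rw [mul_comm] at h2
  have h3 := Real.exp_le_exp.mp (le_of_mul_le_mul_right h2 hΓ)
  have h4 : θ * (ℒ * (μ1 + σ)) ≤ 2 * (ℒ * μ1) := by linarith
  have h5 : θ * (ℒ * σ) = ℒ * (4 * μ1) := by rw [hμ1]; ring
  have h6 : 0 < θ * (ℒ * μ1) := by positivity
  have h7 : 0 < ℒ * μ1 := by positivity
  nlinarith

end Pool.Agent.H466.LD
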